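import Pool.Agent.E8helper69.AP.Defs
import Mathlib.AlgebraicGeometry.EllipticCurve.Weierstrass

/-!
# L-series of elliptic curves over number fields and their boundary values
-/

set_option autoImplicit false

namespace Pool.Agent.E8helper69.AQ

open NumberField IsDedekindDomain Filter Topology MeasureTheory

section
variable {K : Type} [Field K] [NumberField K]

/-- `V v` is, for every `v`, an integral model of `E` with discriminant minimal at `v`. -/
def MinimalModels (E : WeierstrassCurve K)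
    (V : HeightOneSpectrum (𝓞 K) → WeierstrassCurve (𝓞 K)) : Prop :=
  ∀ v : HeightOneSpectrum (𝓞 K),
    (∃ C : WeierstrassCurve.VariableChange K, C • E = (V v).map (algebraMap (𝓞 K) K)) ∧
    ∀ W : WeierstrassCurve (𝓞 K),
      (∃ C : WeierstrassCurve.VariableChange K, C • E = W.map (algebraMap (𝓞 K) K)) →
        ∀ n : ℕ, (V v).Δ ∈ v.asIdeal ^ n → W.Δ ∈ v.asIdeal ^ n

/-- `Nv` minus the number of affine points of the reduction of `V v`. -/
noncomputable def trace (V : HeightOneSpectrum (𝓞 K) → WeierstrassCurve (𝓞 K))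
    (v : HeightOneSpectrum (𝓞 K)) : ℤ :=
  ((Ideal.absNorm v.asIdeal : ℕ) : ℤ) -
    ((Nat.card {p : (𝓞 K ⧸ v.asIdeal) × (𝓞 K ⧸ v.asIdeal) //
      p.2 ^ 2 + Ideal.Quotient.mk v.asIdeal (V v).a₁ * p.1 * p.2
        + Ideal.Quotient.mk v.asIdeal (V v).a₃ * p.2
      = p.1 ^ 3 + Ideal.Quotient.mk v.asIdeal (V v).a₂ * p.1 ^ 2
        + Ideal.Quotient.mk v.asIdeal (V v).a₄ * p.1
        + Ideal.Quotient.mk v.asIdeal (V v).a₆} : ℕ) : ℤ)

open Classical in
/-- The Euler factor at `v`. -/
noncomputable def eulerFactor (V : HeightOneSpectrum (𝓞 K) → WeierstrassCurve (𝓞 K))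
    (v : HeightOneSpectrum (𝓞 K)) (s : ℂ) : ℂ :=
  (1 - (trace V v : ℂ) * ((Ideal.absNorm v.asIdeal : ℕ) : ℂ) ^ (-s)
    + (if (V v).Δ ∈ v.asIdeal then (0 : ℂ) else 1)
      * ((Ideal.absNorm v.asIdeal : ℕ) : ℂ) ^ (1 - 2 * s))⁻¹

/-- The Euler product of the problem, computed from the reductions of the models `V v`. -/
noncomputable def hasseWeil (V : HeightOneSpectrum (𝓞 K) → WeierstrassCurve (𝓞 K)) (s : ℂ) : ℂ :=
  ∏' v : HeightOneSpectrum (𝓞 K), eulerFactor V v s

/-- The product of the Euler factors at the primes of norm less than `x`. -/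
noncomputable def partialProduct (V : HeightOneSpectrum (𝓞 K) → WeierstrassCurve (𝓞 K)) (s : ℂ)
    (x : ℕ) : ℂ :=
  ∏ᶠ v ∈ {v : HeightOneSpectrum (𝓞 K) | Ideal.absNorm v.asIdeal < x}, eulerFactor V v s

/-- The boundary value of the L-series at `3/2 + iτ`: the limit of the partial products. -/
noncomputable def edgeValue (V : HeightOneSpectrum (𝓞 K) → WeierstrassCurve (𝓞 K)) (τ : ℝ) : ℂ :=
  limUnder atTop (partialProduct V (3 / 2 + τ * Complex.I))

/-- The sum of the traces at the primes of norm `p`. -/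
noncomputable def primeTrace (V : HeightOneSpectrum (𝓞 K) → WeierstrassCurve (𝓞 K)) (p : ℕ) : ℤ :=
  ∑ᶠ v ∈ {v : HeightOneSpectrum (𝓞 K) | Ideal.absNorm v.asIdeal = p}, trace V v

end

end Pool.Agent.E8helper69.AQ
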