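import Pool.Agent.E8helper69.AQ.Q
import Pool.Agent.E8helper69.AQ.Defs
import Pool.Agent.E8helper69.AP.I

/-!
# Boundary values of L-series of elliptic curves
-/

set_option autoImplicit false

namespace Pool.Agent.E8helper69.AP

open Complex MeasureTheory Finset Filter Topology Set NumberField IsDedekindDomain
open scoped ComplexConjugate ENNReal
open Pool.Agent.TH339.MP
open Pool.Agent.W350.Edge (ps divSet dimH_divSet)
open Pool.Agent.W350.EdgeV (FV mem_FV tendsto_FV)
open Pool.Agent.E8helper69.AQ (trace eulerFactor hasseWeil partialProduct edgeValue primeTrace)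

section
variable {K : Type} [Field K] [NumberField K]
  (W : HeightOneSpectrum (𝓞 K) → WeierstrassCurve (𝓞 K))

lemma trace_eq (v : HeightOneSpectrum (𝓞 K)) : ((trace W v : ℤ) : ℝ) = trv W v := by
  unfold trace
  change _ = Pool.Agent.TH339.MP.av W v
  unfold Pool.Agent.TH339.MP.av affc
  push_cast
  rfl

lemma eulerFactor_eq (v : HeightOneSpectrum (𝓞 K)) (s : ℂ) : eulerFactor W v s = elf W v s := by
  classical
  have hq : ((nm v : ℕ) : ℂ) ≠ 0 := by
    have := two_le_nm v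
    exact_mod_cast (by omega : nm v ≠ 0)
  rw [elf_eq_inv]
  unfold eulerFactor ielf
  congr 1
  have h1 : ((trace W v : ℤ) : ℂ) = ((trv W v : ℝ) : ℂ) := by
    rw [← trace_eq W v]
    push_cast
    rfl
  have h2 : ((nm v : ℕ) : ℂ) ^ (1 - 2 * s) = (nm v : ℂ) * (nm v : ℂ) ^ (-2 * s) := by
    have : (1 - 2 * s) = 1 + -2 * s := by ring
    rw [this, cpow_add _ _ hq, cpow_one]
  change 1 - ((trace W v : ℤ) : ℂ) * ((nm v : ℕ) : ℂ) ^ (-s) +
    (if (W v).Δ ∈ v.asIdeal then (0 : ℂ) else 1) * ((nm v : ℕ) : ℂ) ^ (1 - 2 * s) = _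
  rw [h1, h2]
  split_ifs
  · ring
  · ring

/-- the full logarithm on the edge -/
noncomputable def YY (u : ℝ) : ℂ := bl (eb W) u + ∑ p ∈ F23, g6 W p u

/-- its local parts -/
noncomputable def VV (p : Nat.Primes) (u : ℝ) : ℂ := lp (eb W) p u + g6 W p u

lemma isModel_YY : IsModel (YY W) (VV W) :=
  isModel_bl (norm_eb W) F23 (g6 W) (per_g6 W) (g6_zero W)

open Classical in
lemma elf_edge (v : HeightOneSpectrum (𝓞 K)) (s : ℂ) : elf W v (s + 1 / 2) =
    fc (beta W) v s * (if v ∈ (S6 : Finset (HeightOneSpectrum (𝓞 K))) then elf W v (s + 1 / 2)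
      else 1) := by
  classical
  by_cases hv : v ∈ (S6 : Finset (HeightOneSpectrum (𝓞 K)))
  · rw [if_pos hv]
    have h1 : fc (beta W) v s = 1 := by
      unfold fc
      refine Finset.prod_eq_one fun j _ => ?_
      rw [beta_S6 W hv j]
      simp
    rw [h1, one_mul]
  · rw [if_neg hv, mul_one, beta_elf W hv]
    unfold fc
    refine Finset.prod_congr rfl fun j _ => ?_
    rw [add_sub_cancel_right]

lemma tendsto_partial {τ : ℝ} (hτ : τ ∉ divSet (ap (eb W))) :
    Tendsto (partialProduct W (3 / 2 + τ * Complex.I)) atTop (𝓝 (Complex.exp (YY W τ))) := by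
  classical
  have h1 := prod_tendsto (norm_beta W) hτ
  have h2 : Tendsto (fun x : ℕ => ∏ v ∈ FV nm Pool.Agent.W350.EdgeNF.hfin x,
      (if v ∈ (S6 : Finset (HeightOneSpectrum (𝓞 K))) then elf W v (3 / 2 + τ * I) else 1)) atTop
      (𝓝 (∏ v ∈ (S6 : Finset (HeightOneSpectrum (𝓞 K))), elf W v (3 / 2 + τ * I))) := by
    refine Tendsto.congr' ?_ tendsto_const_nhds
    filter_upwards [(tendsto_FV (N := (nm : HeightOneSpectrum (𝓞 K) → ℕ))
      Pool.Agent.W350.EdgeNF.hfin).eventually (eventually_ge_atTop S6)] with x hx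
    rw [← Finset.prod_subset hx]
    · exact Finset.prod_congr rfl fun v hv => (if_pos hv).symm
    · intro v _ hv
      exact if_neg hv
  have h3 := h1.mul h2
  rw [← exp_g6, ← Complex.exp_add] at h3
  refine h3.congr fun x => ?_
  rw [← Finset.prod_mul_distrib]
  unfold partialProduct
  have hf : {v : HeightOneSpectrum (𝓞 K) | Ideal.absNorm v.asIdeal < x}.Finite :=
    Pool.Agent.W350.EdgeNF.hfin x
  rw [finprod_mem_eq_finite_toFinset_prod _ hf]
  refine Finset.prod_congr rfl fun v _ => ?_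
  have e1 : (3 / 2 : ℂ) + τ * I = (1 + τ * I) + 1 / 2 := by ring
  rw [eulerFactor_eq, e1]
  exact (elf_edge W v (1 + τ * I)).symm

lemma edgeValue_eq {τ : ℝ} (hτ : τ ∉ divSet (ap (eb W))) :
    edgeValue W τ = Complex.exp (YY W τ) := (tendsto_partial W hτ).limUnder_eq

/-- the exceptional set -/
lemma edgeValue_spec : dimH {τ : ℝ | ¬ (edgeValue W τ ≠ 0 ∧
      Tendsto (partialProduct W (3 / 2 + τ * Complex.I)) atTop (𝓝 (edgeValue W τ)))} = 0 := by
  have h1 : dimH (divSet (ap (eb W))) = 0 := dimH_divSet _ _ (norm_ap (norm_eb W))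
  refine le_antisymm ?_ zero_le
  rw [← h1]
  refine dimH_mono fun τ hτ => ?_
  by_contra hcon
  apply hτ
  rw [edgeValue_eq W hcon]
  exact ⟨Complex.exp_ne_zero _, tendsto_partial W hcon⟩

/-- the factor at the primes above `6` -/
noncomputable def E6 (s : ℂ) : ℂ := ∏ v ∈ (S6 : Finset (HeightOneSpectrum (𝓞 K))), elf W v s

lemma hasseWeil_eq {s : ℂ} (hs : 3 / 2 < s.re) :
    hasseWeil W s = Complex.exp (FF (eb W) (s - 1 / 2)) * E6 W s := by
  classical
  have hs1 : 1 < (s - 1 / 2).re := by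
    have : (s - 1 / 2).re = s.re - 1 / 2 := by simp
    rw [this]
    linarith
  have h3 := hasProd_L (norm_beta W) hs1
  have h4 : HasProd (fun v => if v ∈ (S6 : Finset (HeightOneSpectrum (𝓞 K))) then elf W v s else 1)
      (∏ v ∈ (S6 : Finset (HeightOneSpectrum (𝓞 K))), elf W v s) := by
    have h5 := hasProd_prod_of_ne_finset_one (L := SummationFilter.unconditional _)
      (s := (S6 : Finset (HeightOneSpectrum (𝓞 K))))
      (f := fun v => if v ∈ (S6 : Finset (HeightOneSpectrum (𝓞 K))) then elf W v s else 1)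
      (fun v hv => if_neg hv)
    have h6 : ∏ v ∈ (S6 : Finset (HeightOneSpectrum (𝓞 K))),
        (if v ∈ (S6 : Finset (HeightOneSpectrum (𝓞 K))) then elf W v s else 1) =
        ∏ v ∈ (S6 : Finset (HeightOneSpectrum (𝓞 K))), elf W v s :=
      Finset.prod_congr rfl fun v hv => if_pos hv
    rwa [h6] at h5
  have h5 := h3.mul h4
  unfold hasseWeil E6
  rw [← h5.tprod_eq]
  refine tprod_congr fun v => ?_
  have h6 := elf_edge W v (s - 1 / 2)
  rw [sub_add_cancel] at h6
  rw [eulerFactor_eq]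
  exact h6

lemma norm_E6 {s : ℂ} (hs : 3 / 2 < s.re) :
    ‖E6 W s‖ ≤ 24 ^ (S6 : Finset (HeightOneSpectrum (𝓞 K))).card ∧
      ‖(E6 W s)⁻¹‖ ≤ 24 ^ (S6 : Finset (HeightOneSpectrum (𝓞 K))).card := by
  unfold E6
  constructor
  · rw [norm_prod]
    calc _ ≤ ∏ v ∈ (S6 : Finset (HeightOneSpectrum (𝓞 K))), (24 : ℝ) :=
          Finset.prod_le_prod (fun _ _ => norm_nonneg _) fun v _ => (elf_triv W v hs).1
      _ = _ := by rw [Finset.prod_const]
  · rw [← Finset.prod_inv_distrib, norm_prod]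
    calc _ ≤ ∏ v ∈ (S6 : Finset (HeightOneSpectrum (𝓞 K))), (24 : ℝ) :=
          Finset.prod_le_prod (fun _ _ => norm_nonneg _) fun v _ => (elf_triv W v hs).2
      _ = _ := by rw [Finset.prod_const]

lemma continuousAt_elf (v : HeightOneSpectrum (𝓞 K)) {s : ℂ} (hs : 3 / 2 ≤ s.re) :
    ContinuousAt (elf W v) s := by
  classical
  have hq : ((nm v : ℕ) : ℂ) ≠ 0 := by
    have := two_le_nm v
    exact_mod_cast (by omega : nm v ≠ 0)
  have h1 : Continuous (ielf W v) := by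
    unfold ielf
    refine (continuous_const.sub (continuous_const.mul ?_)).add (continuous_const.mul ?_)
    · exact continuous_neg.const_cpow (Or.inl hq)
    · exact (continuous_const.mul continuous_id).const_cpow (Or.inl hq)
  have h2 : elf W v = fun s => (ielf W v s)⁻¹ := rfl
  rw [h2]
  exact h1.continuousAt.inv₀ (Complex.slitPlane_ne_zero (ielf_slit W v hs))

/-- radial limits -/
lemma radial {τ : ℝ} (hτ : τ ∉ divSet (ap (eb W))) :
    Tendsto (fun ε : ℝ => hasseWeil W (3 / 2 + τ * I + ε)) (𝓝[>] 0) (𝓝 (Complex.exp (YY W τ))) := by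
  have h1 : Tendsto (fun ε : ℝ => (ε : ℂ)) (𝓝[>] 0)
      (𝓝[{z : ℂ | 0 < z.re ∧ ‖z‖ ≤ 1 * z.re}] (0 : ℂ)) := by
    refine tendsto_nhdsWithin_iff.2 ⟨?_, ?_⟩
    · have e6 : Tendsto (fun ε : ℝ => (ε : ℂ)) (𝓝 0) (𝓝 ((0 : ℝ) : ℂ)) :=
        Complex.continuous_ofReal.tendsto 0
      rw [Complex.ofReal_zero] at e6
      exact e6.mono_left nhdsWithin_le_nhds
    · filter_upwards [self_mem_nhdsWithin] with ε hε
      have hε' : (0 : ℝ) < ε := hε
      refine ⟨by simpa using hε', ?_⟩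
      rw [one_mul, Complex.norm_real, Complex.ofReal_re, Real.norm_of_nonneg hε'.le]
  have h2 := ((Complex.continuous_exp.tendsto _).comp (bl_angle (norm_eb W) hτ 1)).comp h1
  have h3 : Tendsto (fun ε : ℝ => E6 W (3 / 2 + τ * I + ε)) (𝓝[>] 0)
      (𝓝 (E6 W (3 / 2 + τ * I))) := by
    have h4 : Tendsto (fun ε : ℝ => (3 / 2 : ℂ) + τ * I + ε) (𝓝[>] 0) (𝓝 (3 / 2 + τ * I)) := by
      have h5 : Continuous fun ε : ℝ => (3 / 2 : ℂ) + τ * I + ε := by fun_prop
      have h6 := h5.tendsto 0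
      simp only [Complex.ofReal_zero, add_zero] at h6
      exact h6.mono_left nhdsWithin_le_nhds
    unfold E6
    refine tendsto_finsetProd _ fun v _ => ?_
    exact (continuousAt_elf W v (edge_re τ).ge).tendsto.comp h4
  have h4 := h2.mul h3
  have h5 : Complex.exp (bl (eb W) τ) * E6 W (3 / 2 + τ * I) = Complex.exp (YY W τ) := by
    unfold E6 YY
    rw [← exp_g6, ← Complex.exp_add]
  rw [h5] at h4
  refine h4.congr' ?_
  filter_upwards [self_mem_nhdsWithin] with ε hε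
  have hε' : (0 : ℝ) < ε := hε
  simp only [Function.comp_apply]
  rw [hasseWeil_eq]
  · congr 3
    ring
  · simp
    exact hε'

lemma nm_eq_prime_iff (p : Nat.Primes) (v : HeightOneSpectrum (𝓞 K)) :
    nm v = (p : ℕ) ↔ v ∈ (Sp p : Finset (HeightOneSpectrum (𝓞 K))) ∧ dg v = 1 := by
  rw [mem_Sp]
  constructor
  · intro h2
    have h3 : (pr v : ℕ) ∣ (p : ℕ) := by
      rw [← h2, nm_eq]
      exact dvd_pow_self _ (dg_pos v).ne'
    have h4 : (pr v : ℕ) = (p : ℕ) := (Nat.prime_dvd_prime_iff_eq (pr v).2 p.2).1 h3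
    refine ⟨Subtype.ext h4, ?_⟩
    have h5 := nm_eq v
    rw [h2, h4] at h5
    have h6 : (p : ℕ) ^ 1 = (p : ℕ) ^ dg v := by rw [pow_one]; exact h5
    exact (Nat.pow_right_injective p.2.two_le h6).symm
  · rintro ⟨h2, h3⟩
    rw [nm_eq, h2, h3, pow_one]

/-- the first coefficient -/
lemma eb_zero {p : Nat.Primes} (hp : p ∉ F23) :
    eb W (p, 0) / ((p : ℕ) : ℂ) =
      (((primeTrace W (p : ℕ) : ℤ) : ℝ) / ((p : ℕ) : ℝ) ^ (3 / 2 : ℝ) : ℝ) := by
  classical
  have hp0 := prime_pos p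
  have hsq : 0 < Real.sqrt ((p : ℕ) : ℝ) := Real.sqrt_pos.2 hp0
  have hfin : {v : HeightOneSpectrum (𝓞 K) | Ideal.absNorm v.asIdeal = (p : ℕ)}.Finite := by
    refine (Sp p : Finset (HeightOneSpectrum (𝓞 K))).finite_toSet.subset fun v hv => ?_
    exact ((nm_eq_prime_iff p v).1 hv).1
  have hset : hfin.toFinset = (Sp p : Finset (HeightOneSpectrum (𝓞 K))).filter fun v => dg v = 1 := by
    ext v
    rw [Set.Finite.mem_toFinset, Finset.mem_filter]
    exact nm_eq_prime_iff p v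
  have hnot : ∀ v ∈ (Sp p : Finset (HeightOneSpectrum (𝓞 K))),
      v ∉ (S6 : Finset (HeightOneSpectrum (𝓞 K))) := by
    intro v hv h
    rw [mem_S6_iff, mem_Sp, mem_Sp] at h
    rw [mem_Sp] at hv
    rw [hv] at h
    apply hp
    unfold F23
    rw [Finset.mem_insert, Finset.mem_singleton]
    exact h
  have h1 : eb W (p, 0) = ∑ v ∈ (Sp p : Finset (HeightOneSpectrum (𝓞 K))).filter fun v => dg v = 1,
      ((trv W v / Real.sqrt ((p : ℕ) : ℝ) : ℝ) : ℂ) := by
    unfold eb bb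
    rw [Finset.sum_filter]
    refine Finset.sum_congr rfl fun v hv => ?_
    simp only [zero_add, Nat.dvd_one]
    split_ifs with h
    · have h2 : nm v = (p : ℕ) := (nm_eq_prime_iff p v).2 ⟨hv, h⟩
      rw [h]
      simp only [Nat.div_self, pow_one, Nat.cast_one, div_one, mul_one, zero_lt_one]
      rw [sum_beta W (hnot v hv), h2]
    · rfl
  have h2 : ((primeTrace W (p : ℕ) : ℤ) : ℝ) =
      ∑ v ∈ (Sp p : Finset (HeightOneSpectrum (𝓞 K))).filter fun v => dg v = 1, trv W v := by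
    unfold primeTrace
    rw [finsum_mem_eq_finite_toFinset_sum _ hfin, hset]
    push_cast
    exact Finset.sum_congr rfl fun v _ => trace_eq W v
  have h3 : ((p : ℕ) : ℝ) ^ (3 / 2 : ℝ) = Real.sqrt ((p : ℕ) : ℝ) * ((p : ℕ) : ℝ) := by
    rw [Real.sqrt_eq_rpow]
    nth_rewrite 3 [← Real.rpow_one ((p : ℕ) : ℝ)]
    rw [← Real.rpow_add hp0]
    norm_num
  rw [h1, h2, h3, ← Complex.ofReal_sum, ← Finset.sum_div]
  push_cast
  rw [div_div]

end

end Pool.Agent.E8helper69.AP
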