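import Pool.Agent.E8helper69.AQ.Defs
import Pool.Agent.E8helper69.AP.F
import Mathlib.Probability.ConditionalProbability
import Mathlib.MeasureTheory.Constructions.Pi

/-!
# Random Euler products of L-series of elliptic curves over number fields
-/

set_option autoImplicit false

namespace Pool.Agent.E8helper69.AQ

open NumberField IsDedekindDomain Filter Topology MeasureTheory
open Pool.Agent.E8helper69.AP (PX)

/-- The distribution of a family of independent random variables `θ_p`, one for every prime number
`p < X`, with `θ_p` uniform on `(0, 2π / log p]`. -/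
noncomputable def uniformLaw (X : ℕ) : Measure (PX X → ℝ) :=
  Measure.pi fun p : PX X =>
    ProbabilityTheory.cond volume (Set.Ioc 0 (2 * Real.pi / Real.log ((p : Nat.Primes) : ℕ)))

section
variable {K : Type} [Field K] [NumberField K]

/-- The product of the Euler factors at the primes of `K` containing the prime number `p`. -/
noncomputable def factorAt (V : HeightOneSpectrum (𝓞 K) → WeierstrassCurve (𝓞 K)) (p : ℕ)
    (s : ℂ) : ℂ :=
  ∏ᶠ v ∈ {v : HeightOneSpectrum (𝓞 K) | (p : 𝓞 K) ∈ v.asIdeal}, eulerFactor V v s

/-- The Euler product over the prime numbers `p < X`, with the `p`-factor taken at the point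
`3/2 + iθ_p`. -/
noncomputable def randomProduct (V : HeightOneSpectrum (𝓞 K) → WeierstrassCurve (𝓞 K)) (X : ℕ)
    (θ : PX X → ℝ) : ℂ :=
  ∏ p : PX X, factorAt V ((p : Nat.Primes) : ℕ) (3 / 2 + θ p * Complex.I)

end

end Pool.Agent.E8helper69.AQ
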