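import Pool.Agent.E8helper69.AP.F

/-!
# Independence of the local factors
-/

set_option autoImplicit false

namespace Pool.Agent.E8helper69.AP

open Complex MeasureTheory Finset Filter Topology Set
open scoped ComplexConjugate ENNReal
open Pool.Agent.TH339.MP

lemma stp_pos (p : Nat.Primes) : 0 < stp p := by
  have := log_prime_pos p
  have := Real.pi_pos
  unfold stp
  positivity

/-- continuous functions of period `2π / log p` -/
structure Per (p : Nat.Primes) (g : ℝ → ℂ) : Prop where
  cont : Continuous g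
  per : Function.Periodic g (stp p)

/-- the mean over a period -/
noncomputable def av (p : Nat.Primes) (g : ℝ → ℂ) : ℂ := (stp p : ℂ)⁻¹ * ∫ u in (0:ℝ)..stp p, g u

lemma av_add {p : Nat.Primes} {f g : ℝ → ℂ} (hf : Continuous f) (hg : Continuous g) :
    av p (fun u => f u + g u) = av p f + av p g := by
  unfold av
  rw [intervalIntegral.integral_add (hf.intervalIntegrable _ _) (hg.intervalIntegrable _ _), mul_add]

lemma av_const_mul (p : Nat.Primes) (c : ℂ) (f : ℝ → ℂ) :
    av p (fun u => c * f u) = c * av p f := by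
  unfold av
  rw [intervalIntegral.integral_const_mul]
  ring

lemma av_const (p : Nat.Primes) (c : ℂ) : av p (fun _ => c) = c := by
  unfold av
  rw [intervalIntegral.integral_const, sub_zero, Complex.real_smul, ← mul_assoc,
    inv_mul_cancel₀ (by exact_mod_cast (stp_pos p).ne'), one_mul]

lemma norm_av_le {p : Nat.Primes} {f : ℝ → ℂ} {C : ℝ} (h : ∀ u, ‖f u‖ ≤ C) : ‖av p f‖ ≤ C := by
  have hs := stp_pos p
  unfold av
  rw [norm_mul, norm_inv, Complex.norm_real, Real.norm_of_nonneg hs.le]
  have h1 := intervalIntegral.norm_integral_le_of_norm_le_const (a := 0) (b := stp p) (f := f)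
    (C := C) (fun u _ => h u)
  rw [sub_zero, abs_of_pos hs] at h1
  calc (stp p)⁻¹ * ‖∫ u in (0:ℝ)..stp p, f u‖ ≤ (stp p)⁻¹ * (C * stp p) :=
        mul_le_mul_of_nonneg_left h1 (by positivity)
    _ = C := by field_simp

lemma stp_log (p : Nat.Primes) (n : ℤ) :
    (n : ℝ) * Real.log (p : ℕ) * stp p = n * (2 * Real.pi) := by
  unfold stp
  have := (log_prime_pos p).ne'
  field_simp

lemma ee_stp_int (p : Nat.Primes) (n : ℤ) : ee (n * Real.log (p : ℕ)) (stp p) = 1 := by
  unfold ee
  rw [stp_log, Complex.exp_eq_one_iff]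
  exact ⟨n, by push_cast; ring⟩

lemma per_ee (p : Nat.Primes) (n : ℤ) : Per p (ee (n * Real.log (p : ℕ))) :=
  ⟨continuous_ee _, fun u => by rw [ee_add, ee_stp_int, mul_one]⟩

lemma av_ee (p : Nat.Primes) (n : ℤ) :
    av p (ee (n * Real.log (p : ℕ))) = if n = 0 then 1 else 0 := by
  split_ifs with h
  · subst h
    have : ee (((0 : ℤ) : ℝ) * Real.log (p : ℕ)) = fun _ => 1 := by
      funext u
      rw [Int.cast_zero, zero_mul, ee_zero_left]
    rw [this, av_const]
  · have hl := log_prime_pos p
    have hne : (n : ℝ) * Real.log (p : ℕ) ≠ 0 :=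
      mul_ne_zero (by exact_mod_cast h) hl.ne'
    set μ : ℝ := (n : ℝ) * Real.log (p : ℕ) with hμ
    have hmI : (μ * I : ℂ) ≠ 0 := mul_ne_zero (by exact_mod_cast hne) I_ne_zero
    have h2 := integral_exp_mul_complex (a := 0) (b := stp p) hmI
    have h3 : ∀ x : ℝ, ee μ x = Complex.exp (μ * I * x) := by
      intro x
      rw [ee]
      congr 1
      push_cast
      ring
    unfold av
    simp_rw [h3]
    rw [h2, ← h3, ← h3, hμ, ee_stp_int, ee_zero, sub_self, zero_div, mul_zero]

section
variable {p : Nat.Primes}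

local instance factStp (p : Nat.Primes) : Fact (0 < stp p) := ⟨stp_pos p⟩

/-- the lift to the circle -/
noncomputable def Per.lift {g : ℝ → ℂ} (hg : Per p g) : C(AddCircle (stp p), ℂ) where
  toFun := hg.per.lift
  continuous_toFun := by
    have h := hg.cont
    exact continuous_coinduced_dom.2 h

lemma Per.lift_coe {g : ℝ → ℂ} (hg : Per p g) (u : ℝ) :
    hg.lift ((u : ℝ) : AddCircle (stp p)) = g u := hg.per.lift_coe u

lemma fourier_ee (n : ℤ) (u : ℝ) :
    fourier n ((u : ℝ) : AddCircle (stp p)) = ee (n * Real.log (p : ℕ)) u := by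
  rw [fourier_coe_apply]
  unfold ee stp
  congr 1
  have h1 := (log_prime_pos p).ne'
  have h2 := Real.pi_ne_zero
  have h1' : ((Real.log ((p : ℕ) : ℝ) : ℝ) : ℂ) ≠ 0 := by exact_mod_cast h1
  have h2' : ((Real.pi : ℝ) : ℂ) ≠ 0 := by exact_mod_cast h2
  push_cast
  field_simp

lemma continuous_coe_circle (G : C(AddCircle (stp p), ℂ)) :
    Continuous fun u : ℝ => G ((u : ℝ) : AddCircle (stp p)) :=
  G.continuous.comp (AddCircle.continuous_mk' _)

/-- **Separation of the variable of the prime `p`.** -/
theorem mean_step {f : ℝ → ℂ} {A : ℂ} {C : ℝ} (hC : ∀ u, ‖f u‖ ≤ C)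
    (h : ∀ n : ℤ, Mean (fun u => ee (n * Real.log (p : ℕ)) u * f u) (if n = 0 then A else 0))
    {g : ℝ → ℂ} (hg : Per p g) : Mean (fun u => g u * f u) (av p g * A) := by
  have hC0 : 0 ≤ C := (norm_nonneg _).trans (hC 0)
  have hfi : ∀ a c : ℝ, IntervalIntegrable f volume a c := by
    intro a c
    have h1 := (h 0).1 a c
    have : (fun u => ee (((0 : ℤ) : ℝ) * Real.log (p : ℕ)) u * f u) = f := by
      funext u
      rw [Int.cast_zero, zero_mul, ee_zero_left, one_mul]
    rwa [this] at h1
  have hspan : ∀ G ∈ Submodule.span ℂ (Set.range (fourier (T := stp p))),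
      Mean (fun u => G ((u : ℝ) : AddCircle (stp p)) * f u)
        (av p (fun u => G ((u : ℝ) : AddCircle (stp p))) * A) := by
    intro G hG
    induction hG using Submodule.span_induction with
    | mem x hx =>
      obtain ⟨n, rfl⟩ := hx
      have h1 := h n
      have e1 : (fun u : ℝ => fourier n ((u : ℝ) : AddCircle (stp p))) =
          ee (n * Real.log (p : ℕ)) := by
        funext u
        exact fourier_ee n u
      have e2 : (fun u : ℝ => fourier n ((u : ℝ) : AddCircle (stp p)) * f u) =
          fun u => ee (n * Real.log (p : ℕ)) u * f u := by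
        funext u
        rw [fourier_ee]
      rw [e1, e2, av_ee]
      split_ifs at h1 ⊢ with hn
      · rwa [one_mul]
      · rwa [zero_mul]
    | zero =>
      have e1 : (fun u : ℝ => (0 : C(AddCircle (stp p), ℂ)) ((u : ℝ) : AddCircle (stp p)) * f u) =
          fun _ => 0 := by
        funext u
        simp
      have e2 : (fun u : ℝ => (0 : C(AddCircle (stp p), ℂ)) ((u : ℝ) : AddCircle (stp p))) =
          fun _ => 0 := by
        funext u
        simp
      rw [e1, e2, av_const, zero_mul]
      exact Mean.zero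
    | add x y _ _ hx hy =>
      have h1 := hx.add hy
      have e1 : (fun u : ℝ => (x + y) ((u : ℝ) : AddCircle (stp p)) * f u) = fun u =>
          x ((u : ℝ) : AddCircle (stp p)) * f u + y ((u : ℝ) : AddCircle (stp p)) * f u := by
        funext u
        rw [ContinuousMap.add_apply, add_mul]
      have e2 : (fun u : ℝ => (x + y) ((u : ℝ) : AddCircle (stp p))) = fun u =>
          x ((u : ℝ) : AddCircle (stp p)) + y ((u : ℝ) : AddCircle (stp p)) := by
        funext u
        rw [ContinuousMap.add_apply]
      rw [e1, e2, av_add (continuous_coe_circle x) (continuous_coe_circle y), add_mul]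
      exact h1
    | smul c x _ hx =>
      have h1 := hx.const_mul c
      have e1 : (fun u : ℝ => (c • x) ((u : ℝ) : AddCircle (stp p)) * f u) = fun u =>
          c * (x ((u : ℝ) : AddCircle (stp p)) * f u) := by
        funext u
        rw [ContinuousMap.smul_apply, smul_eq_mul, mul_assoc]
      have e2 : (fun u : ℝ => (c • x) ((u : ℝ) : AddCircle (stp p))) = fun u =>
          c * x ((u : ℝ) : AddCircle (stp p)) := by
        funext u
        rw [ContinuousMap.smul_apply, smul_eq_mul]
      rw [e1, e2, av_const_mul, mul_assoc]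
      exact h1
  set G := hg.lift with hG
  have hGg : ∀ u : ℝ, G ((u : ℝ) : AddCircle (stp p)) = g u := fun u => hg.lift_coe u
  have hmem : G ∈ (Submodule.span ℂ (Set.range (fourier (T := stp p)))).topologicalClosure := by
    rw [span_fourier_closure_eq_top]
    trivial
  have hclos : G ∈ closure ((Submodule.span ℂ (Set.range (fourier (T := stp p))) : Set _)) := hmem
  rw [Metric.mem_closure_iff] at hclos
  refine Mean.of_approx (fun a c => (hfi a c).continuousOn_mul hg.cont.continuousOn)
    fun η hη => ?_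
  obtain ⟨G', hG', hd⟩ := hclos (η / (C + ‖A‖ + 1)) (by positivity)
  have hpt : ∀ u : ℝ, ‖g u - G' ((u : ℝ) : AddCircle (stp p))‖ ≤ η / (C + ‖A‖ + 1) := by
    intro u
    rw [← hGg u]
    have h1 := ContinuousMap.dist_apply_le_dist (f := G) (g := G') ((u : ℝ) : AddCircle (stp p))
    rw [dist_eq_norm] at h1
    exact h1.trans hd.le
  refine ⟨_, _, hspan G' hG', ?_, fun t => ?_⟩
  · rw [← sub_mul, norm_mul]
    have e1 : av p (fun u => G' ((u : ℝ) : AddCircle (stp p))) - av p g =
        av p (fun u => G' ((u : ℝ) : AddCircle (stp p)) + (-1) * g u) := by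
      rw [av_add (f := fun u => G' ((u : ℝ) : AddCircle (stp p))) (g := fun u => (-1) * g u)
        (continuous_coe_circle G') (continuous_const.mul hg.cont), av_const_mul]
      ring
    have e2 : ‖av p (fun u => G' ((u : ℝ) : AddCircle (stp p)) + (-1) * g u)‖ ≤
        η / (C + ‖A‖ + 1) := norm_av_le fun u => by
      have := hpt u
      rw [← norm_neg, neg_sub] at this
      have e3 : G' ((u : ℝ) : AddCircle (stp p)) + (-1) * g u =
          G' ((u : ℝ) : AddCircle (stp p)) - g u := by ring
      rwa [e3]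
    rw [e1]
    calc _ ≤ η / (C + ‖A‖ + 1) * ‖A‖ := mul_le_mul_of_nonneg_right e2 (norm_nonneg _)
      _ = η * (‖A‖ / (C + ‖A‖ + 1)) := by ring
      _ ≤ η * 1 := by
          refine mul_le_mul_of_nonneg_left ?_ hη.le
          rw [div_le_one (by positivity)]
          linarith
      _ = η := mul_one _
  · have e1 : ∀ u : ℝ, ‖g u * f u - G' ((u : ℝ) : AddCircle (stp p)) * f u‖ ≤ η := by
      intro u
      rw [← sub_mul, norm_mul]
      calc _ ≤ η / (C + ‖A‖ + 1) * C := mul_le_mul (hpt u) (hC u) (norm_nonneg _) (by positivity)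
        _ = η * (C / (C + ‖A‖ + 1)) := by ring
        _ ≤ η * 1 := by
            refine mul_le_mul_of_nonneg_left ?_ hη.le
            rw [div_le_one (by positivity)]
            linarith [norm_nonneg A]
        _ = η := mul_one _
    have i1 : IntervalIntegrable (fun u : ℝ =>
        ‖g u * f u - G' ((u : ℝ) : AddCircle (stp p)) * f u‖) volume t (t + 1) :=
      (((hfi _ _).continuousOn_mul hg.cont.continuousOn).sub
        ((hfi _ _).continuousOn_mul (continuous_coe_circle G').continuousOn)).norm
    calc _ ≤ ∫ u in t..(t + 1), η :=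
          intervalIntegral.integral_mono (by linarith) i1 intervalIntegrable_const e1
      _ = η := by simp

end

lemma cop_pow_aux {p q : Nat.Primes} (h : p ≠ q) (n : ℕ) : Nat.Coprime (p : ℕ) ((q : ℕ) ^ n) :=
  Nat.Coprime.pow_right _ ((Nat.coprime_primes p.2 q.2).2 fun h' => h (Subtype.ext h'))

/-- **Independence of the local factors.** -/
theorem mean_prod (F : Finset Nat.Primes) (g : Nat.Primes → ℝ → ℂ) (hg : ∀ p ∈ F, Per p (g p))
    (hbd : ∀ p ∈ F, ∃ C : ℝ, ∀ u, ‖g p u‖ ≤ C) :
    ∀ a b : ℕ, a ≠ 0 → b ≠ 0 → (∀ p ∈ F, Nat.Coprime (p : ℕ) a ∧ Nat.Coprime (p : ℕ) b) →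
    Mean (fun u => (∏ p ∈ F, g p u) * ee (Real.log a - Real.log b) u)
      ((∏ p ∈ F, av p (g p)) * if a = b then 1 else 0) := by
  classical
  induction F using Finset.induction_on with
  | empty =>
    intro a b ha hb _
    have ha' : (0 : ℝ) < a := by exact_mod_cast Nat.pos_of_ne_zero ha
    have hb' : (0 : ℝ) < b := by exact_mod_cast Nat.pos_of_ne_zero hb
    have h1 := Mean.ee (Real.log a - Real.log b)
    have h2 : (Real.log a - Real.log b = 0) ↔ a = b := by
      rw [sub_eq_zero]
      constructor
      · intro h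
        have := Real.log_injOn_pos (Set.mem_Ioi.2 ha') (Set.mem_Ioi.2 hb') h
        exact_mod_cast this
      · intro h
        rw [h]
    simp only [Finset.prod_empty, one_mul]
    simp only [h2] at h1
    exact h1
  | insert p F hpF ih =>
    intro a b ha hb hab
    have hg' : ∀ q ∈ F, Per q (g q) := fun q hq => hg q (Finset.mem_insert_of_mem hq)
    have hbd' : ∀ q ∈ F, ∃ C : ℝ, ∀ u, ‖g q u‖ ≤ C := fun q hq => hbd q (Finset.mem_insert_of_mem hq)
    have hp := hab p (Finset.mem_insert_self _ _)
    set f : ℝ → ℂ := fun u => (∏ q ∈ F, g q u) * ee (Real.log a - Real.log b) u with hf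
    obtain ⟨C, hC⟩ : ∃ C : ℝ, ∀ u, ‖f u‖ ≤ C := by
      choose! B hB using hbd'
      refine ⟨∏ q ∈ F, B q, fun u => ?_⟩
      rw [hf]
      simp only
      rw [norm_mul, norm_ee, mul_one, norm_prod]
      exact Finset.prod_le_prod (fun q _ => norm_nonneg _) fun q hq => hB q hq u
    have key : ∀ n : ℤ, Mean (fun u => ee (n * Real.log (p : ℕ)) u * f u)
        (if n = 0 then (∏ q ∈ F, av q (g q)) * (if a = b then 1 else 0) else 0) := by
      intro n
      have hpne : (p : ℕ) ≠ 0 := p.2.ne_zero
      have hpow : ∀ k : ℕ, ((p : ℕ)) ^ k ≠ 0 := fun k => pow_ne_zero _ hpne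
      have h1 := ih hg' hbd' (a * (p : ℕ) ^ n.toNat) (b * (p : ℕ) ^ (-n).toNat)
        (mul_ne_zero ha (hpow _)) (mul_ne_zero hb (hpow _)) (fun q hq => by
          have hne : q ≠ p := fun h => hpF (h ▸ hq)
          have h2 := hab q (Finset.mem_insert_of_mem hq)
          exact ⟨h2.1.mul_right (cop_pow_aux hne _), h2.2.mul_right (cop_pow_aux hne _)⟩)
      have hla : (a : ℝ) ≠ 0 := by exact_mod_cast ha
      have hlb : (b : ℝ) ≠ 0 := by exact_mod_cast hb
      have hlp : (((p : ℕ) : ℝ)) ≠ 0 := by exact_mod_cast hpne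
      have e1 : Real.log ((a * (p : ℕ) ^ n.toNat : ℕ) : ℝ) -
          Real.log ((b * (p : ℕ) ^ (-n).toNat : ℕ) : ℝ) =
          n * Real.log (p : ℕ) + (Real.log a - Real.log b) := by
        push_cast
        rw [Real.log_mul hla (pow_ne_zero _ hlp), Real.log_mul hlb (pow_ne_zero _ hlp),
          Real.log_pow, Real.log_pow]
        have e2 : (n : ℝ) = (n.toNat : ℝ) - ((-n).toNat : ℝ) := by
          have : n = (n.toNat : ℤ) - ((-n).toNat : ℤ) := by omega
          exact_mod_cast this
        rw [e2]
        ring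
      have e3 : (a * (p : ℕ) ^ n.toNat = b * (p : ℕ) ^ (-n).toNat) ↔ (n = 0 ∧ a = b) := by
        constructor
        · intro h
          rcases lt_trichotomy n 0 with h0 | h0 | h0
          · exfalso
            have e4 : n.toNat = 0 := by omega
            have e5 : (-n).toNat ≠ 0 := by omega
            rw [e4, pow_zero, mul_one] at h
            have e6 : (p : ℕ) ∣ a := by
              rw [h]
              exact Dvd.dvd.mul_left (dvd_pow_self _ e5) _
            exact (Nat.Prime.coprime_iff_not_dvd p.2).1 hp.1 e6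
          · refine ⟨h0, ?_⟩
            subst h0
            simpa using h
          · exfalso
            have e4 : (-n).toNat = 0 := by omega
            have e5 : n.toNat ≠ 0 := by omega
            rw [e4, pow_zero, mul_one] at h
            have e6 : (p : ℕ) ∣ b := by
              rw [← h]
              exact Dvd.dvd.mul_left (dvd_pow_self _ e5) _
            exact (Nat.Prime.coprime_iff_not_dvd p.2).1 hp.2 e6
        · rintro ⟨rfl, rfl⟩
          simp
      have e7 : (fun u => ee (n * Real.log (p : ℕ)) u * f u) = fun u => (∏ q ∈ F, g q u) *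
          ee (Real.log ((a * (p : ℕ) ^ n.toNat : ℕ) : ℝ) -
            Real.log ((b * (p : ℕ) ^ (-n).toNat : ℕ) : ℝ)) u := by
        funext u
        rw [e1, ee_add_left, hf]
        ring
      rw [e7]
      convert h1 using 1
      by_cases hn : n = 0
      · rw [if_pos hn]
        by_cases hab' : a = b
        · rw [if_pos hab', if_pos (e3.2 ⟨hn, hab'⟩)]
        · rw [if_neg hab', if_neg fun h => hab' (e3.1 h).2]
      · rw [if_neg hn, if_neg fun h => hn (e3.1 h).1, mul_zero]
    have h3 := mean_step hC key (hg p (Finset.mem_insert_self _ _))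
    have e8 : (fun u => (∏ q ∈ insert p F, g q u) * ee (Real.log a - Real.log b) u) =
        fun u => g p u * f u := by
      funext u
      rw [Finset.prod_insert hpF, hf]
      ring
    rw [e8, Finset.prod_insert hpF, mul_assoc]
    exact h3

/-- continuous periodic functions are bounded -/
lemma Per.bdd {p : Nat.Primes} {g : ℝ → ℂ} (hg : Per p g) : ∃ C : ℝ, ∀ u, ‖g u‖ ≤ C := by
  have : Fact (0 < stp p) := ⟨stp_pos p⟩
  refine ⟨‖hg.lift‖, fun u => ?_⟩
  rw [← hg.lift_coe u]
  exact hg.lift.norm_coe_le_norm _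

theorem mean_prod' (F : Finset Nat.Primes) (g : Nat.Primes → ℝ → ℂ) (hg : ∀ p ∈ F, Per p (g p)) :
    Mean (fun u => ∏ p ∈ F, g p u) (∏ p ∈ F, av p (g p)) := by
  have h := mean_prod F g hg (fun p hp => (hg p hp).bdd) 1 1 one_ne_zero one_ne_zero
    (fun p _ => ⟨Nat.coprime_one_right _, Nat.coprime_one_right _⟩)
  simp only [sub_self, ee_zero_left, mul_one, if_true] at h
  exact h

end Pool.Agent.E8helper69.AP
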