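import Pool.Agent.E8helper69.AQ.K

/-!
# Models: approximation of the boundary function by independent local terms
-/

set_option autoImplicit false

namespace Pool.Agent.E8helper69.AP

open Complex MeasureTheory Finset Filter Topology Set
open scoped ComplexConjugate ENNReal
open Pool.Agent.TH339.MP
open Pool.Agent.E8helper17.MC (log_qq_pos PS_eq_tm)

section
variable {b : PP → ℂ} {M : ℝ}

lemma per_lp (hb : ∀ x, ‖b x‖ ≤ M / (x.2 + 1 : ℕ)) (p : Nat.Primes) : Per p (lp b p) := by
  refine ⟨continuous_lp hb p, fun u => ?_⟩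
  unfold lp
  refine tsum_congr fun k => ?_
  rw [tm_edge, tm_edge, ee_add, ee_stp_same, mul_one]

lemma fr_int (x : PP) : fr x = ((-(x.2 + 1 : ℕ) : ℤ) : ℝ) * Real.log (x.1 : ℕ) := by
  unfold fr
  push_cast
  ring

lemma av_tm (p : Nat.Primes) (k : ℕ) : av p (fun u => tm b (1 + u * I) (p, k)) = 0 := by
  have h1 : (fun u : ℝ => tm b (1 + u * I) (p, k)) =
      fun u => (b (p, k) * (wt 1 (p, k) : ℂ)) * ee (((-(k + 1 : ℕ) : ℤ) : ℝ) * Real.log (p : ℕ)) u := by
    funext u
    rw [tm_edge, fr_int]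
  rw [h1, av_const_mul, av_ee, if_neg (by omega), mul_zero]

lemma av_sum {p : Nat.Primes} {ι : Type*} (s : Finset ι) {f : ι → ℝ → ℂ}
    (hf : ∀ i ∈ s, Continuous (f i)) :
    av p (fun u => ∑ i ∈ s, f i u) = ∑ i ∈ s, av p (f i) := by
  unfold av
  rw [intervalIntegral.integral_finsetSum fun i hi => (hf i hi).intervalIntegrable _ _,
    Finset.mul_sum]

lemma av_lp (hb : ∀ x, ‖b x‖ ≤ M / (x.2 + 1 : ℕ)) (p : Nat.Primes) : av p (lp b p) = 0 := by
  have hu : TendstoUniformly (fun (N : ℕ) (u : ℝ) => ∑ k ∈ Finset.range N,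
      tm b (1 + u * I) (p, k)) (lp b p) atTop :=
    tendstoUniformly_tsum_nat ((summable_ce_p p).mul_left M) fun k u => norm_tm_edge hb (p, k) u
  rw [Metric.tendstoUniformly_iff] at hu
  rw [← norm_le_zero_iff]
  refine le_of_forall_pos_le_add fun ε hε => ?_
  obtain ⟨N, hN⟩ := (hu ε hε).exists
  have hc : ∀ k ∈ Finset.range N, Continuous fun u : ℝ => tm b (1 + u * I) (p, k) := fun k _ =>
    (continuous_tm b (p, k)).comp (by fun_prop)
  have h1 : av p (fun u => ∑ k ∈ Finset.range N, tm b (1 + u * I) (p, k)) = 0 := by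
    rw [av_sum _ hc]
    exact Finset.sum_eq_zero fun k _ => av_tm p k
  have hcs : Continuous fun u : ℝ => ∑ k ∈ Finset.range N, tm b (1 + u * I) (p, k) :=
    continuous_finsetSum _ hc
  have h2 : av p (lp b p) = av p (fun u => lp b p u +
      (-1) * ∑ k ∈ Finset.range N, tm b (1 + u * I) (p, k)) := by
    rw [av_add (f := lp b p) (g := fun u => (-1) * ∑ k ∈ Finset.range N, tm b (1 + u * I) (p, k))
      (continuous_lp hb p) (continuous_const.mul hcs), av_const_mul, h1, mul_zero, add_zero]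
  rw [h2, zero_add]
  refine norm_av_le fun u => ?_
  have h3 := (hN u).le
  rw [dist_eq_norm] at h3
  rwa [neg_one_mul, ← sub_eq_add_neg]

lemma ce_le' (p : Nat.Primes) (k : ℕ) : ce (p, k) ≤ (1 / ((p : ℕ) : ℝ)) * (1 / 2) ^ k := by
  unfold ce qq
  simp only
  have h2 : (2 : ℝ) ≤ ((p : ℕ) : ℝ) := two_le_prime p
  have h0 : (0 : ℝ) < ((p : ℕ) : ℝ) := by linarith
  have h3 : (2 : ℝ) ^ k ≤ ((p : ℕ) : ℝ) ^ k := pow_le_pow_left₀ (by norm_num) h2 _
  rw [one_div_pow, one_div_mul_one_div]
  refine one_div_le_one_div_of_le (by positivity) ?_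
  push_cast
  have h4 : (1 : ℝ) ≤ (k : ℝ) + 1 := by
    have : (0 : ℝ) ≤ k := Nat.cast_nonneg k
    linarith
  have h5 : ((p : ℕ) : ℝ) * 2 ^ k ≤ ((p : ℕ) : ℝ) ^ (k + 1) := by
    rw [pow_succ, mul_comm]
    exact mul_le_mul_of_nonneg_right h3 h0.le
  have h6 : (0 : ℝ) < ((p : ℕ) : ℝ) ^ (k + 1) := by positivity
  nlinarith

lemma norm_lp_le (hb : ∀ x, ‖b x‖ ≤ M / (x.2 + 1 : ℕ)) (p : Nat.Primes) (u : ℝ) :
    ‖lp b p u‖ ≤ 2 * M / (p : ℕ) := by
  unfold lp
  have hM := M_nonneg hb
  have hg : HasSum (fun k : ℕ => M * ((1 / ((p : ℕ) : ℝ)) * (1 / 2) ^ k)) (2 * M / (p : ℕ)) := by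
    have h1 := (hasSum_geometric_two).mul_left (M * (1 / ((p : ℕ) : ℝ)))
    have e1 : (fun k : ℕ => M * ((1 / ((p : ℕ) : ℝ)) * (1 / 2) ^ k)) =
        fun k : ℕ => M * (1 / ((p : ℕ) : ℝ)) * (1 / 2) ^ k := by
      funext k
      ring
    have e2 : 2 * M / ((p : ℕ) : ℝ) = M * (1 / ((p : ℕ) : ℝ)) * 2 := by ring
    rw [e1, e2]
    exact h1
  refine tsum_of_norm_bounded hg fun k => (norm_tm_edge hb (p, k) u).trans ?_
  exact mul_le_mul_of_nonneg_left (ce_le' p k) hM

/-- the sum of the first local terms -/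
noncomputable def SX (b : PP → ℂ) (X : ℕ) (u : ℝ) : ℂ := ∑ p ∈ PX X, lp b p u

lemma summable_ce_high : Summable fun x : PP => if x.2 = 0 then 0 else ce x := by
  have h1 : Function.Injective sh := sh_injective
  have h2 : ∀ x ∉ Set.range sh, (if x.2 = 0 then (0 : ℝ) else ce x) = 0 := by
    intro x hx
    rw [if_pos]
    by_contra h
    apply hx
    refine ⟨(x.1, x.2 - 1), Prod.ext rfl ?_⟩
    change x.2 - 1 + 1 = x.2
    omega
  rw [← h1.summable_iff h2]
  refine Summable.of_nonneg_of_le (fun x => ?_) (fun x => ?_) wt_sh_summable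
  · simp only [Function.comp_apply]
    split_ifs
    · exact le_rfl
    · exact ce_nonneg _
  · simp only [Function.comp_apply]
    rw [if_neg (by unfold sh; simp)]
    unfold ce
    rw [wt_one]
    have h3 : (0 : ℝ) < qq (sh x) := by
      exact_mod_cast (by have := two_le_qq (sh x); omega : 0 < qq (sh x))
    refine one_div_le_one_div_of_le h3 ?_
    have h4 : (1 : ℝ) ≤ ((sh x).2 + 1 : ℕ) := by exact_mod_cast Nat.le_add_left 1 _
    nlinarith

lemma summable_ce_mem (P : Finset Nat.Primes) : Summable fun x : PP => if x.1 ∈ P then ce x else 0 := by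
  classical
  have h1 : ∀ p ∈ P, HasSum (fun x : PP => if x.1 = p then ce x else 0) (∑' k, ce (p, k)) := by
    intro p _
    have hinj : Function.Injective (fun k : ℕ => ((p, k) : PP)) := fun k l h => congrArg Prod.snd h
    rw [← hinj.hasSum_iff]
    · simp only [Function.comp_def, if_true]
      exact (summable_ce_p p).hasSum
    · intro x hx
      rw [if_neg]
      intro h
      exact hx ⟨x.2, Prod.ext h.symm rfl⟩
  have h2 := (hasSum_sum h1).summable
  refine h2.congr fun x => ?_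
  rw [Finset.sum_ite_eq]

/-- the error made by the cut-off of the prime powers -/
noncomputable def rho (X : ℕ) : ℝ :=
  ∑' x : PP, if x.1 ∈ PX (X + 1) ∧ x ∉ TX X then ce x else 0

lemma rho_term_le (X : ℕ) (x : PP) : ‖(if x.1 ∈ PX (X + 1) ∧ x ∉ TX X then ce x else 0 : ℝ)‖ ≤
    if x.2 = 0 then 0 else ce x := by
  split_ifs with h1 h2 h2
  · exfalso
    apply h1.2
    rw [mem_TX]
    have h3 := mem_PX.1 h1.1
    unfold qq
    rw [h2, zero_add, pow_one]
    omega
  · rw [Real.norm_of_nonneg (ce_nonneg x)]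
  · rw [norm_zero]
  · rw [norm_zero]
    exact ce_nonneg x

lemma rho_tendsto : Tendsto rho atTop (𝓝 0) := by
  have key : Tendsto (fun X : ℕ => ∑' x : PP, if x.1 ∈ PX (X + 1) ∧ x ∉ TX X then ce x else 0) atTop
      (𝓝 (∑' x : PP, (fun _ => (0 : ℝ)) x)) := by
    refine tendsto_tsum_of_dominated_convergence
      (f := fun (X : ℕ) (x : PP) => if x.1 ∈ PX (X + 1) ∧ x ∉ TX X then ce x else 0)
      (g := fun _ => 0) summable_ce_high (fun x => ?_)
      (Eventually.of_forall fun X x => rho_term_le X x)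
    refine Tendsto.congr' ?_ tendsto_const_nhds
    filter_upwards [eventually_ge_atTop (qq x)] with X hX
    rw [if_neg]
    intro h
    exact h.2 ((mem_TX X x).2 hX)
  rw [tsum_zero] at key
  exact key

lemma SX_sub_PS (hb : ∀ x, ‖b x‖ ≤ M / (x.2 + 1 : ℕ)) (X : ℕ) (u : ℝ) :
    ‖SX b (X + 1) u - PS b X u‖ ≤ M * rho X := by
  classical
  have h1 : HasSum (fun x : PP => if x.1 ∈ PX (X + 1) then tm b (1 + u * I) x else 0)
      (SX b (X + 1) u) := by
    have h2 : ∀ p ∈ PX (X + 1), HasSum (fun x : PP => if x.1 = p then tm b (1 + u * I) x else 0)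
        (lp b p u) := by
      intro p _
      have hinj : Function.Injective (fun k : ℕ => ((p, k) : PP)) :=
        fun k l h => congrArg Prod.snd h
      rw [← hinj.hasSum_iff]
      · simp only [Function.comp_def, if_true]
        exact (summable_lp hb p u).hasSum
      · intro x hx
        rw [if_neg]
        intro h
        exact hx ⟨x.2, Prod.ext h.symm rfl⟩
    have h3 := hasSum_sum h2
    have h3' : (fun x : PP => if x.1 ∈ PX (X + 1) then tm b (1 + u * I) x else 0) =
        fun x : PP => ∑ p ∈ PX (X + 1), if x.1 = p then tm b (1 + u * I) x else 0 := by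
      funext x
      rw [Finset.sum_ite_eq]
    rw [h3']
    exact h3
  have h4 : HasSum (fun x : PP => if x ∈ TX X then tm b (1 + u * I) x else 0) (PS b X u) := by
    have h5 : PS b X u = ∑ x ∈ TX X, if x ∈ TX X then tm b (1 + u * I) x else 0 := by
      unfold PS
      refine Finset.sum_congr rfl fun x hx => ?_
      rw [if_pos hx, tm_edge]
    rw [h5]
    refine hasSum_sum_of_ne_finset_zero fun x hx => ?_
    rw [if_neg hx]
  have h6 := h1.sub h4
  rw [← h6.tsum_eq]
  unfold rho
  rw [← tsum_mul_left]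
  have hs : Summable fun x : PP => M * (if x.1 ∈ PX (X + 1) ∧ x ∉ TX X then ce x else 0) :=
    (Summable.of_norm_bounded summable_ce_high (rho_term_le X)).mul_left M
  refine tsum_of_norm_bounded hs.hasSum fun x => ?_
  by_cases h7 : x ∈ TX X
  · have h8 : x.1 ∈ PX (X + 1) := by
      rw [mem_PX]
      rw [mem_TX] at h7
      have h9 : (x.1 : ℕ) ≤ qq x := by
        unfold qq
        exact Nat.le_self_pow (by omega) _
      omega
    rw [if_pos h8, if_pos h7, sub_self, norm_zero, if_neg (fun h => h.2 h7), mul_zero]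
  · rw [if_neg h7, sub_zero]
    by_cases h8 : x.1 ∈ PX (X + 1)
    · rw [if_pos h8, if_pos ⟨h8, h7⟩]
      exact norm_tm_edge hb x u
    · rw [if_neg h8, norm_zero, if_neg (fun h => h8 h.1), mul_zero]

lemma continuous_SX (hb : ∀ x, ‖b x‖ ≤ M / (x.2 + 1 : ℕ)) (X : ℕ) : Continuous (SX b X) :=
  continuous_finsetSum _ fun p _ => continuous_lp hb p

lemma norm_sq_add2 (x y : ℂ) : ‖x + y‖ ^ 2 ≤ 2 * (‖x‖ ^ 2 + ‖y‖ ^ 2) := by
  have h1 := pow_le_pow_left₀ (norm_nonneg _) (norm_add_le x y) 2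
  nlinarith [sq_nonneg (‖x‖ - ‖y‖)]

end

/-- A function on the line together with continuous periodic functions, one for each prime, whose
sums approximate it in the mean, uniformly, all but finitely many of the periodic functions having
mean zero and size `O(1/p)`. -/
structure IsModel (Y : ℝ → ℂ) (V : Nat.Primes → ℝ → ℂ) : Prop where
  per : ∀ p, Per p (V p)
  int : ∀ a c : ℝ, IntervalIntegrable Y volume a c
  sq : ∀ᶠ X : ℕ in atTop, ∀ a c : ℝ,
    IntervalIntegrable (fun u => ‖Y u - ∑ p ∈ PX X, V p u‖ ^ 2) volume a c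
  close : ∀ η : ℝ, 0 < η → ∀ᶠ X : ℕ in atTop, ∀ t : ℝ,
    ∫ u in t..(t + 1), ‖Y u - ∑ p ∈ PX X, V p u‖ ^ 2 ≤ η
  mean : ∃ (F : Finset Nat.Primes), ∀ p ∉ F, av p (V p) = 0
  small : ∃ (C : ℝ), ∀ p u, ‖V p u‖ ≤ C / (p : ℕ)

/-- the boundary function plus finitely many periodic functions -/
theorem isModel_bl {b : PP → ℂ} {M : ℝ} (hb : ∀ x, ‖b x‖ ≤ M / (x.2 + 1 : ℕ))
    (F : Finset Nat.Primes) (g : Nat.Primes → ℝ → ℂ) (hg : ∀ p, Per p (g p))
    (hF : ∀ p ∉ F, g p = 0) :
    IsModel (fun u => bl b u + ∑ p ∈ F, g p u) (fun p u => lp b p u + g p u) := by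
  classical
  have hgc : Continuous fun u => ∑ p ∈ F, g p u := continuous_finsetSum _ fun p _ => (hg p).cont
  have hdiff : ∀ᶠ X : ℕ in atTop, ∀ u, (bl b u + ∑ p ∈ F, g p u) -
      ∑ p ∈ PX X, (lp b p u + g p u) = bl b u - SX b X u := by
    filter_upwards [PX_tendsto.eventually (eventually_ge_atTop F)] with X hX u
    rw [Finset.sum_add_distrib]
    have h1 : ∑ p ∈ PX X, g p u = ∑ p ∈ F, g p u := by
      symm
      refine Finset.sum_subset hX fun p _ hp => ?_
      rw [hF p hp]
      rfl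
    rw [h1]
    unfold SX
    ring
  have hM := M_nonneg hb
  have hsq : ∀ᶠ X : ℕ in atTop, ∀ a c : ℝ,
      IntervalIntegrable (fun u => ‖bl b u - SX b X u‖ ^ 2) volume a c := by
    filter_upwards [eventually_ge_atTop 3] with X hX a c
    obtain ⟨Y, rfl⟩ : ∃ Y, X = Y + 1 := ⟨X - 1, by omega⟩
    have h1 : IntervalIntegrable (fun u => 2 * (‖bl b u - PS b Y u‖ ^ 2 + (M * rho Y) ^ 2))
        volume a c := ((sq_integrable hb Y (by omega) a c).add intervalIntegrable_const).const_mul 2
    refine h1.mono_fun ?_ (Eventually.of_forall fun u => ?_)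
    · have h2 : AEStronglyMeasurable (fun u => bl b u - SX b (Y + 1) u)
          (volume.restrict (Set.uIoc a c)) :=
        ((aesm_bl hb).sub (continuous_SX hb _).aestronglyMeasurable).restrict
      exact (h2.norm.aemeasurable.pow_const 2).aestronglyMeasurable
    · change ‖‖bl b u - SX b (Y + 1) u‖ ^ 2‖ ≤ ‖2 * (‖bl b u - PS b Y u‖ ^ 2 + (M * rho Y) ^ 2)‖
      rw [Real.norm_of_nonneg (by positivity), Real.norm_of_nonneg (by positivity)]
      have h2 := norm_sq_add2 (bl b u - PS b Y u) (-(SX b (Y + 1) u - PS b Y u))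
      have h3 := pow_le_pow_left₀ (norm_nonneg _) (SX_sub_PS hb Y u) 2
      rw [norm_neg] at h2
      have h4 : bl b u - PS b Y u + -(SX b (Y + 1) u - PS b Y u) = bl b u - SX b (Y + 1) u := by
        ring
      rw [h4] at h2
      linarith
  refine ⟨fun p => ⟨(continuous_lp hb p).add (hg p).cont, fun u => ?_⟩,
    fun a c => (intervalIntegrable_bl hb a c).add (hgc.intervalIntegrable _ _), ?_, ?_, ?_, ?_⟩
  · simp only [(per_lp hb p).per u, (hg p).per u]
  · filter_upwards [hdiff, hsq] with X h1 h2 a c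
    simp only [h1]
    exact h2 a c
  · intro η hη
    have hz : Tendsto (fun X : ℕ => 64800 * M ^ 2 / Real.log X) atTop (𝓝 0) :=
      Tendsto.div_atTop tendsto_const_nhds
        (Real.tendsto_log_atTop.comp tendsto_natCast_atTop_atTop)
    have hr : Tendsto (fun X : ℕ => (M * rho X) ^ 2) atTop (𝓝 0) := by
      have h1 := (rho_tendsto.const_mul M).pow 2
      simpa using h1
    have hev : ∀ᶠ Y : ℕ in atTop, (∀ t : ℝ,
        ∫ u in t..(t + 1), ‖bl b u - SX b (Y + 1) u‖ ^ 2 ≤ η) := by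
      filter_upwards [hz.eventually (gt_mem_nhds (show 0 < η / 4 by positivity)),
        hr.eventually (gt_mem_nhds (show 0 < η / 4 by positivity)), eventually_ge_atTop 2,
        (tendsto_add_atTop_nat 1).eventually hsq] with Y h1 h2 h3 h5 t
      have h4 : ∫ u in t..(t + 1), ‖bl b u - SX b (Y + 1) u‖ ^ 2 ≤
          ∫ u in t..(t + 1), 2 * (‖bl b u - PS b Y u‖ ^ 2 + (M * rho Y) ^ 2) := by
        refine intervalIntegral.integral_mono (by linarith) (h5 _ _)
          (((sq_integrable hb Y h3 _ _).add intervalIntegrable_const).const_mul 2) fun u => ?_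
        have h2 := norm_sq_add2 (bl b u - PS b Y u) (-(SX b (Y + 1) u - PS b Y u))
        have h3 := pow_le_pow_left₀ (norm_nonneg _) (SX_sub_PS hb Y u) 2
        rw [norm_neg] at h2
        have h4 : bl b u - PS b Y u + -(SX b (Y + 1) u - PS b Y u) = bl b u - SX b (Y + 1) u := by
          ring
        rw [h4] at h2
        change ‖bl b u - SX b (Y + 1) u‖ ^ 2 ≤ 2 * (‖bl b u - PS b Y u‖ ^ 2 + (M * rho Y) ^ 2)
        linarith
      refine h4.trans ?_
      rw [intervalIntegral.integral_const_mul, intervalIntegral.integral_add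
        (sq_integrable hb Y h3 _ _) intervalIntegrable_const, intervalIntegral.integral_const]
      have h6 := sq_bound hb h3 t
      rw [smul_eq_mul]
      linarith
    have hev' : ∀ᶠ X : ℕ in atTop, (∀ t : ℝ,
        ∫ u in t..(t + 1), ‖bl b u - SX b X u‖ ^ 2 ≤ η) := by
      rw [eventually_atTop] at hev ⊢
      obtain ⟨Y0, hY0⟩ := hev
      refine ⟨Y0 + 1, fun X hX => ?_⟩
      have h1 := hY0 (X - 1) (by omega)
      rwa [Nat.sub_add_cancel (by omega)] at h1
    filter_upwards [hdiff, hev'] with X h1 h2 t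
    simp only [h1]
    exact h2 t
  · refine ⟨F, fun p hp => ?_⟩
    have h1 : (fun u => lp b p u + g p u) = lp b p := by
      funext u
      rw [hF p hp]
      simp
    rw [h1]
    exact av_lp hb p
  · choose! B hB using fun p => (hg p).bdd
    have hB0 : ∀ p, 0 ≤ B p := fun p => (norm_nonneg _).trans (hB p 0)
    refine ⟨2 * M + ∑ p ∈ F, B p * (p : ℕ), fun p u => ?_⟩
    have hp := prime_pos p
    have h0 : 0 ≤ ∑ p ∈ F, B p * ((p : ℕ) : ℝ) := Finset.sum_nonneg fun q _ =>
      mul_nonneg (hB0 q) (prime_pos q).le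
    have h1 := norm_lp_le hb p u
    have h2 : ‖g p u‖ ≤ (∑ p ∈ F, B p * (p : ℕ)) / (p : ℕ) := by
      by_cases hpF : p ∈ F
      · rw [le_div_iff₀ hp]
        refine (mul_le_mul_of_nonneg_right (hB p u) hp.le).trans ?_
        exact Finset.single_le_sum (f := fun q : Nat.Primes => B q * ((q : ℕ) : ℝ))
          (fun q _ => mul_nonneg (hB0 q) (prime_pos q).le) hpF
      · rw [hF p hpF]
        simp only [Pi.zero_apply, norm_zero]
        positivity
    refine (norm_add_le _ _).trans ?_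
    rw [add_div]
    exact add_le_add h1 h2

end Pool.Agent.E8helper69.AP
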