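import Pool.Agent.E8helper69.AQ.L

/-!
# The values in all long windows come near to all partial sums
-/

set_option autoImplicit false

namespace Pool.Agent.E8helper69.AP

open Complex MeasureTheory Finset Filter Topology Set
open scoped ComplexConjugate ENNReal
open Pool.Agent.TH339.MP

/-- a set is often met if a function which is at most its indicator has large integrals -/
lemma often_of_integral {f : ℝ → ℝ} {G : Set ℝ} (hf : ∀ a c : ℝ, IntervalIntegrable f volume a c)
    (h1 : ∀ u ∈ G, f u ≤ 1) (h0 : ∀ u, u ∉ G → f u ≤ 0) {κ H : ℝ} (hκ : 0 < κ) (hH : 0 < H)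
    (h : ∀ T : ℝ, κ ≤ ∫ u in T..(T + H), f u) : Often G := by
  refine ⟨H, κ, hH, hκ, fun T => ?_⟩
  set μ : Measure ℝ := volume.restrict (Icc T (T + H)) with hμ
  have hint : Integrable f μ := by
    have h2 := hf T (T + H)
    rw [intervalIntegrable_iff_integrableOn_Icc_of_le (by linarith)] at h2
    exact h2
  have hk : κ ≤ ∫ u, f u ∂μ := by
    have h2 := h T
    rw [intervalIntegral.integral_of_le (by linarith), ← integral_Icc_eq_integral_Ioc] at h2
    exact h2
  have e1 : ENNReal.ofReal κ ≤ ∫⁻ u, ENNReal.ofReal (f u) ∂μ := by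
    rw [integral_eq_lintegral_pos_part_sub_lintegral_neg_part hint] at hk
    have h2 : κ ≤ (∫⁻ u, ENNReal.ofReal (f u) ∂μ).toReal := by
      have := ENNReal.toReal_nonneg (a := ∫⁻ u, ENNReal.ofReal (-(f u)) ∂μ)
      linarith
    exact ENNReal.ofReal_le_of_le_toReal h2
  refine e1.trans ?_
  have e2 : ∫⁻ u, ENNReal.ofReal (f u) ∂μ ≤ 1 * μ G := by
    refine (lintegral_mono fun u => ?_).trans (lintegral_indicator_const_le G 1)
    by_cases hu : u ∈ G
    · rw [Set.indicator_of_mem hu]
      exact ENNReal.ofReal_le_one.2 (h1 u hu)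
    · rw [ENNReal.ofReal_of_nonpos (h0 u hu)]
      exact zero_le
  refine e2.trans (le_of_eq ?_)
  rw [one_mul, hμ, Measure.restrict_apply' measurableSet_Icc]

section
variable {ι : Type} [Fintype ι] {Y : ι → ℝ → ℂ} {V : ι → Nat.Primes → ℝ → ℂ}

/-- the bump -/
noncomputable def wb (V : ι → Nat.Primes → ℝ → ℂ) (p : Nat.Primes) (θ δ u : ℝ) : ℝ :=
  max 0 (1 - (∑ k, ‖V k p u - V k p θ‖) / δ)

lemma wb_nonneg (p : Nat.Primes) (θ δ u : ℝ) : 0 ≤ wb V p θ δ u := le_max_left _ _

lemma wb_le_one (p : Nat.Primes) (θ : ℝ) {δ : ℝ} (hδ : 0 < δ) (u : ℝ) : wb V p θ δ u ≤ 1 := by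
  refine max_le zero_le_one ?_
  have : 0 ≤ (∑ k, ‖V k p u - V k p θ‖) / δ := by positivity
  linarith

lemma wb_self (p : Nat.Primes) (θ δ : ℝ) : wb V p θ δ θ = 1 := by
  unfold wb
  simp

lemma wb_pos {p : Nat.Primes} {θ δ u : ℝ} (hδ : 0 < δ) (h : wb V p θ δ u ≠ 0) (k : ι) :
    ‖V k p u - V k p θ‖ ≤ δ := by
  by_contra hcon
  apply h
  refine max_eq_left ?_
  rw [not_le] at hcon
  have h1 : δ ≤ ∑ k, ‖V k p u - V k p θ‖ := hcon.le.trans
    (Finset.single_le_sum (f := fun k => ‖V k p u - V k p θ‖) (fun _ _ => norm_nonneg _)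
      (Finset.mem_univ k))
  have h2 : 1 ≤ (∑ k, ‖V k p u - V k p θ‖) / δ := (one_le_div hδ).2 h1
  linarith

lemma wb_cont (hV : ∀ k p, Per p (V k p)) (p : Nat.Primes) (θ δ : ℝ) : Continuous (wb V p θ δ) := by
  unfold wb
  refine continuous_const.max (continuous_const.sub (Continuous.div_const ?_ _))
  exact continuous_finsetSum _ fun k _ => ((hV k p).cont.sub continuous_const).norm

lemma wb_per (hV : ∀ k p, Per p (V k p)) (p : Nat.Primes) (θ δ : ℝ) :
    Per p (fun u => (wb V p θ δ u : ℂ)) := by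
  refine ⟨Complex.continuous_ofReal.comp (wb_cont hV p θ δ), fun u => ?_⟩
  unfold wb
  simp only [(hV _ p).per u]

lemma av_real {p : Nat.Primes} (g : ℝ → ℝ) :
    av p (fun u => (g u : ℂ)) = (((stp p)⁻¹ * ∫ u in (0:ℝ)..stp p, g u : ℝ) : ℂ) := by
  unfold av
  rw [intervalIntegral.integral_ofReal]
  push_cast
  rfl

/-- the real mean of the bump -/
noncomputable def mw (V : ι → Nat.Primes → ℝ → ℂ) (p : Nat.Primes) (θ δ : ℝ) : ℝ :=
  (stp p)⁻¹ * ∫ u in (0:ℝ)..stp p, wb V p θ δ u

lemma mw_pos (hV : ∀ k p, Per p (V k p)) (p : Nat.Primes) (θ δ : ℝ) : 0 < mw V p θ δ := by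
  have hs := stp_pos p
  have hper : Function.Periodic (wb V p θ δ) (stp p) := by
    intro u
    have h1 := (wb_per hV p θ δ).per u
    exact_mod_cast h1
  unfold mw
  refine mul_pos (inv_pos.2 hs) ?_
  have h1 := hper.intervalIntegral_add_eq 0 θ
  rw [zero_add] at h1
  rw [h1]
  refine intervalIntegral.integral_pos (by linarith) (wb_cont hV p θ δ).continuousOn
    (fun u _ => wb_nonneg p θ δ u) ⟨θ, ⟨le_rfl, by linarith⟩, ?_⟩
  rw [wb_self]
  exact one_pos

/-- the weight -/
noncomputable def WW (V : ι → Nat.Primes → ℝ → ℂ) (X : ℕ) (θ : Nat.Primes → ℝ) (δ u : ℝ) : ℝ :=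
  ∏ p ∈ PX X, wb V p (θ p) δ u

/-- its mean -/
noncomputable def mW (V : ι → Nat.Primes → ℝ → ℂ) (X : ℕ) (θ : Nat.Primes → ℝ) (δ : ℝ) : ℝ :=
  ∏ p ∈ PX X, mw V p (θ p) δ

lemma mW_pos (hV : ∀ k p, Per p (V k p)) (X : ℕ) (θ : Nat.Primes → ℝ) (δ : ℝ) :
    0 < mW V X θ δ := Finset.prod_pos fun p _ => mw_pos hV p (θ p) δ

lemma WW_nonneg (X : ℕ) (θ : Nat.Primes → ℝ) (δ u : ℝ) : 0 ≤ WW V X θ δ u :=
  Finset.prod_nonneg fun p _ => wb_nonneg p (θ p) δ u

lemma WW_le_one (X : ℕ) (θ : Nat.Primes → ℝ) {δ : ℝ} (hδ : 0 < δ) (u : ℝ) : WW V X θ δ u ≤ 1 :=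
  Finset.prod_le_one (fun p _ => wb_nonneg p (θ p) δ u) fun p _ => wb_le_one p (θ p) hδ u

lemma WW_cont (hV : ∀ k p, Per p (V k p)) (X : ℕ) (θ : Nat.Primes → ℝ) (δ : ℝ) :
    Continuous (WW V X θ δ) := by
  unfold WW
  exact continuous_finsetProd _ fun p _ => wb_cont hV p (θ p) δ

lemma mean_WW (hV : ∀ k p, Per p (V k p)) (X : ℕ) (θ : Nat.Primes → ℝ) (δ : ℝ) :
    Mean (fun u => (WW V X θ δ u : ℂ)) (mW V X θ δ : ℂ) := by
  have h := mean_prod' (PX X) (fun p u => (wb V p (θ p) δ u : ℂ)) fun p _ => wb_per hV p (θ p) δ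
  have e1 : (fun u => (WW V X θ δ u : ℂ)) = fun u => ∏ p ∈ PX X, (wb V p (θ p) δ u : ℂ) := by
    funext u
    unfold WW
    push_cast
    rfl
  have e2 : (mW V X θ δ : ℂ) = ∏ p ∈ PX X, av p (fun u => (wb V p (θ p) δ u : ℂ)) := by
    unfold mW mw
    rw [Complex.ofReal_prod]
    exact Finset.prod_congr rfl fun p _ => (av_real _).symm
  rw [e1, e2]
  exact h

lemma PX_mono {X Z : ℕ} (h : X ≤ Z) : PX X ⊆ PX Z := fun p hp => by
  rw [mem_PX] at hp ⊢
  omega

lemma norm_sq_sum (s : Finset Nat.Primes) (f : Nat.Primes → ℂ) :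
    ((‖∑ p ∈ s, f p‖ ^ 2 : ℝ) : ℂ) = ∑ p ∈ s, ∑ q ∈ s, f p * conj (f q) := by
  rw [← Complex.normSq_eq_norm_sq, Complex.normSq_eq_conj_mul_self, mul_comm, map_sum,
    Finset.sum_mul_sum]

/-- the mean square of the tail, with the weight -/
lemma mean_tail (hV : ∀ k p, Per p (V k p)) {X Z : ℕ} (hXZ : X ≤ Z) (θ : Nat.Primes → ℝ) (δ : ℝ)
    (k : ι) (h0 : ∀ p ∈ PX Z \ PX X, av p (V k p) = 0) :
    Mean (fun u => (WW V X θ δ u : ℂ) * ((‖∑ p ∈ PX Z \ PX X, V k p u‖ ^ 2 : ℝ) : ℂ))
      ((mW V X θ δ : ℂ) * ∑ p ∈ PX Z \ PX X, av p (fun u => V k p u * conj (V k p u))) := by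
  classical
  set D := PX Z \ PX X with hD
  have hPZ : PX Z = PX X ∪ D := by
    rw [hD, Finset.union_sdiff_of_subset (PX_mono hXZ)]
  have hdisj : Disjoint (PX X) D := Finset.disjoint_sdiff
  have h1 : ∀ p ∈ D, ∀ q ∈ D, Mean (fun u => (WW V X θ δ u : ℂ) * (V k p u * conj (V k q u)))
      (if p = q then (mW V X θ δ : ℂ) * av p (fun u => V k p u * conj (V k p u)) else 0) := by
    intro p hp q hq
    set g : Nat.Primes → ℝ → ℂ := fun r u => if r ∈ PX X then (wb V r (θ r) δ u : ℂ) else
      (if r = p then V k r u else 1) * (if r = q then conj (V k r u) else 1) with hg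
    have hgper : ∀ r ∈ PX Z, Per r (g r) := by
      intro r _
      rw [hg]
      by_cases h1 : r ∈ PX X
      · simp only [if_pos h1]
        exact wb_per hV r (θ r) δ
      · simp only [if_neg h1]
        refine ⟨?_, ?_⟩
        · refine Continuous.mul ?_ ?_
          · split_ifs
            · exact (hV k r).cont
            · exact continuous_const
          · split_ifs
            · exact Complex.continuous_conj.comp (hV k r).cont
            · exact continuous_const
        · intro u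
          simp only [(hV k r).per u]
    have h2 := mean_prod' (PX Z) g hgper
    have h3 : ∀ u, ∏ r ∈ PX Z, g r u = (WW V X θ δ u : ℂ) * (V k p u * conj (V k q u)) := by
      intro u
      rw [hPZ, Finset.prod_union hdisj]
      congr 1
      · unfold WW
        rw [Complex.ofReal_prod]
        refine Finset.prod_congr rfl fun r hr => ?_
        rw [hg]
        simp only [if_pos hr]
      · have h4 : ∀ r ∈ D, g r u = (if r = p then V k r u else 1) *
            (if r = q then conj (V k r u) else 1) := by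
          intro r hr
          have : r ∉ PX X := fun h => Finset.disjoint_left.1 hdisj h hr
          rw [hg]
          simp only [if_neg this]
        rw [Finset.prod_congr rfl h4, Finset.prod_mul_distrib, Finset.prod_ite_eq' D p,
          Finset.prod_ite_eq' D q, if_pos hp, if_pos hq]
    have h5 : ∏ r ∈ PX Z, av r (g r) =
        (if p = q then (mW V X θ δ : ℂ) * av p (fun u => V k p u * conj (V k p u)) else 0) := by
      rw [hPZ, Finset.prod_union hdisj]
      have h6 : ∏ r ∈ PX X, av r (g r) = (mW V X θ δ : ℂ) := by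
        unfold mW mw
        rw [Complex.ofReal_prod]
        refine Finset.prod_congr rfl fun r hr => ?_
        rw [← av_real]
        congr 1
        funext u
        rw [hg]
        simp only [if_pos hr]
      rw [h6]
      have hnot : ∀ r ∈ D, r ∉ PX X := fun r hr h => Finset.disjoint_left.1 hdisj h hr
      by_cases hpq : p = q
      · subst hpq
        rw [if_pos rfl]
        congr 1
        rw [Finset.prod_eq_single p]
        · congr 1
          funext u
          rw [hg]
          simp only [if_neg (hnot p hp), if_true]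
        · intro r hr hrp
          have h7 : g r = fun _ => 1 := by
            funext u
            rw [hg]
            simp only [if_neg (hnot r hr), if_neg hrp, mul_one]
          rw [h7, av_const]
        · intro h
          exact absurd hp h
      · rw [if_neg hpq]
        have h7 : av p (g p) = 0 := by
          have h8 : g p = V k p := by
            funext u
            rw [hg]
            simp only [if_neg (hnot p hp), if_true, if_neg hpq, mul_one]
          rw [h8]
          exact h0 p hp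
        rw [Finset.prod_eq_zero hp h7, mul_zero]
    rw [h5] at h2
    simp only [h3] at h2
    exact h2
  have h2 := Mean.sum D fun p hp => Mean.sum D fun q hq => h1 p hp q hq
  have h3 : (fun u => (WW V X θ δ u : ℂ) * ((‖∑ p ∈ D, V k p u‖ ^ 2 : ℝ) : ℂ)) = fun u =>
      ∑ p ∈ D, ∑ q ∈ D, (WW V X θ δ u : ℂ) * (V k p u * conj (V k q u)) := by
    funext u
    rw [norm_sq_sum, Finset.mul_sum]
    refine Finset.sum_congr rfl fun p _ => ?_
    rw [Finset.mul_sum]
  have h4 : (mW V X θ δ : ℂ) * ∑ p ∈ D, av p (fun u => V k p u * conj (V k p u)) =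
      ∑ p ∈ D, ∑ q ∈ D, if p = q then (mW V X θ δ : ℂ) *
        av p (fun u => V k p u * conj (V k p u)) else 0 := by
    rw [Finset.mul_sum]
    refine Finset.sum_congr rfl fun p hp => ?_
    rw [Finset.sum_ite_eq, if_pos hp]
  rw [h3, h4]
  exact h2

end

end Pool.Agent.E8helper69.AP
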