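import Pool.Agent.E8helper69.AQ.N

/-!
# The values in all long windows come near to all partial sums, II
-/

set_option autoImplicit false

namespace Pool.Agent.E8helper69.AP

open Complex MeasureTheory Finset Filter Topology Set
open scoped ComplexConjugate ENNReal
open Pool.Agent.TH339.MP

lemma summable_inv_sq (C : ℝ) : Summable fun p : Nat.Primes => (C / ((p : ℕ) : ℝ)) ^ 2 := by
  have h1 : Summable fun p : Nat.Primes => ((p : ℕ) : ℝ) ^ (-2 : ℝ) :=
    (Nat.Primes.summable_rpow (r := -2)).2 (by norm_num)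
  refine (h1.mul_left (C ^ 2)).congr fun p => ?_
  have h2 := prime_pos p
  rw [Real.rpow_neg h2.le, Real.rpow_two, div_pow]
  rfl

/-- the sums over far away primes are small -/
lemma far_small {f : Nat.Primes → ℝ} (hf : Summable f) (h0 : ∀ p, 0 ≤ f p) {η : ℝ} (hη : 0 < η) :
    ∀ᶠ X : ℕ in atTop, ∀ D : Finset Nat.Primes, Disjoint D (PX X) → ∑ p ∈ D, f p ≤ η := by
  classical
  obtain ⟨s, hs⟩ := summable_iff_vanishing_norm.1 hf η hη
  filter_upwards [PX_tendsto.eventually (eventually_ge_atTop s)] with X hX D hD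
  have h1 := hs D (Finset.disjoint_left.2 fun p hp hps => Finset.disjoint_left.1 hD hp (hX hps))
  rw [Real.norm_of_nonneg (Finset.sum_nonneg fun p _ => h0 p)] at h1
  exact h1.le

section
variable {ι : Type} [Fintype ι] {Y : ι → ℝ → ℂ} {V : ι → Nat.Primes → ℝ → ℂ}

theorem near (hY : ∀ k, IsModel (Y k) (V k)) {ε : ℝ} (hε : 0 < ε) :
    ∀ᶠ X : ℕ in atTop, ∀ θ : Nat.Primes → ℝ,
      Often {u | ∀ k, ‖Y k u - ∑ p ∈ PX X, V k p (θ p)‖ < ε} := by
  classical
  have hV : ∀ k p, Per p (V k p) := fun k p => (hY k).per p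
  choose F hF using fun k => (hY k).mean
  choose C hC using fun k => (hY k).small
  set r : ℝ := (Fintype.card ι : ℝ) with hr
  have hr0 : 0 ≤ r := by positivity
  have hsum : Summable fun p : Nat.Primes => ∑ k, (C k / ((p : ℕ) : ℝ)) ^ 2 :=
    summable_sum fun k _ => summable_inv_sq (C k)
  filter_upwards [far_small hsum (fun p => Finset.sum_nonneg fun k _ => sq_nonneg _)
      (show 0 < ε ^ 2 / 64 by positivity),
    PX_tendsto.eventually (eventually_ge_atTop (Finset.univ.biUnion F))] with X hX1 hX2 θ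
  -- the weight
  set δ : ℝ := ε / (2 * ((PX X).card + 1)) with hδ
  have hδ0 : 0 < δ := by positivity
  set m : ℝ := mW V X θ δ with hm
  have hm0 : 0 < m := mW_pos hV X θ δ
  set η3 : ℝ := m / (8 * (1 + 8 * (r + 1) / ε ^ 2)) with hη3
  have hη30 : 0 < η3 := by positivity
  set η2 : ℝ := m / (8 * (1 + 16 * (r + 1) / ε ^ 2)) with hη2
  have hη20 : 0 < η2 := by positivity
  -- the second cut-off
  have hev : ∀ᶠ Z : ℕ in atTop, ∀ k, (∀ a c : ℝ,
      IntervalIntegrable (fun u => ‖Y k u - ∑ p ∈ PX Z, V k p u‖ ^ 2) volume a c) ∧ ∀ t : ℝ,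
      ∫ u in t..(t + 1), ‖Y k u - ∑ p ∈ PX Z, V k p u‖ ^ 2 ≤ η2 := by
    rw [eventually_all]
    intro k
    filter_upwards [(hY k).sq, (hY k).close η2 hη20] with Z h1 h2
    exact ⟨h1, h2⟩
  obtain ⟨Z, hZ, hXZ⟩ := (hev.and (eventually_ge_atTop X)).exists
  set D : Finset Nat.Primes := PX Z \ PX X with hD
  have hDX : Disjoint D (PX X) := Finset.sdiff_disjoint
  have hDav : ∀ k, ∀ p ∈ D, av p (V k p) = 0 := by
    intro k p hp
    refine hF k p fun hpF => ?_
    have h1 : p ∈ PX X := hX2 (Finset.mem_biUnion.2 ⟨k, Finset.mem_univ k, hpF⟩)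
    exact Finset.disjoint_left.1 hDX hp h1
  set TT : ι → ℝ → ℂ := fun k u => ∑ p ∈ D, V k p u with hTT
  have hTTc : ∀ k, Continuous (TT k) := fun k => continuous_finsetSum _ fun p _ => (hV k p).cont
  have hsplit : ∀ k u, ∑ p ∈ PX Z, V k p u = (∑ p ∈ PX X, V k p u) + TT k u := by
    intro k u
    rw [hTT]
    simp only
    rw [hD, add_comm, Finset.sum_sdiff (PX_mono hXZ)]
  -- the test function
  set N : ℝ → ℝ := fun u => ∑ k, 2 * (‖Y k u - ∑ p ∈ PX Z, V k p u‖ ^ 2 + ‖TT k u‖ ^ 2) with hN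
  have hN0 : ∀ u, 0 ≤ N u := fun u => Finset.sum_nonneg fun k _ => by positivity
  set f : ℝ → ℝ := fun u => WW V X θ δ u * (1 - 4 / ε ^ 2 * N u) with hf
  have hTi : ∀ k (a c : ℝ), IntervalIntegrable (fun u => ‖TT k u‖ ^ 2) volume a c := fun k a c =>
    ((hTTc k).norm.pow 2).intervalIntegrable _ _
  have hNi : ∀ a c : ℝ, IntervalIntegrable N volume a c := by
    intro a c
    have : N = ∑ k, fun u => 2 * (‖Y k u - ∑ p ∈ PX Z, V k p u‖ ^ 2 + ‖TT k u‖ ^ 2) := by
      funext u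
      rw [hN, Finset.sum_apply]
    rw [this]
    exact IntervalIntegrable.sum _ fun k _ => (((hZ k).1 a c).add (hTi k a c)).const_mul 2
  have hWc := WW_cont hV X θ δ
  have hfi : ∀ a c : ℝ, IntervalIntegrable f volume a c := fun a c =>
    (intervalIntegrable_const.sub ((hNi a c).const_mul _)).continuousOn_mul hWc.continuousOn
  have hW0 := WW_nonneg (V := V) X θ δ
  have hW1 := WW_le_one (V := V) X θ hδ0
  -- the windows
  obtain ⟨HW, hHW0, hHW⟩ := (mean_WW hV X θ δ).2 η3 hη30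
  choose Hk hHk0 hHk using fun k => (mean_tail hV hXZ θ δ k (hDav k)).2 η3 hη30
  set H : ℝ := 1 + HW + ∑ k, Hk k with hH
  have hsum0 : 0 ≤ ∑ k, Hk k := Finset.sum_nonneg fun k _ => (hHk0 k).le
  have hH1 : 1 ≤ H := by rw [hH]; linarith
  have hH0 : 0 < H := by linarith
  have hHHW : HW ≤ H := by rw [hH]; linarith
  have hHHk : ∀ k, Hk k ≤ H := by
    intro k
    have := Finset.single_le_sum (f := Hk) (fun k _ => (hHk0 k).le) (Finset.mem_univ k)
    rw [hH]
    linarith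
  refine often_of_integral (f := f) (κ := m / 2 * H) (H := H) hfi (fun u _ => ?_) (fun u hu => ?_)
    (by positivity) hH0 fun T => ?_
  · rw [hf]
    simp only
    have h1 : 1 - 4 / ε ^ 2 * N u ≤ 1 := by
      have := hN0 u
      have : 0 ≤ 4 / ε ^ 2 * N u := by positivity
      linarith
    calc WW V X θ δ u * (1 - 4 / ε ^ 2 * N u) ≤ WW V X θ δ u * 1 :=
          mul_le_mul_of_nonneg_left h1 (hW0 u)
      _ ≤ 1 := by
          rw [mul_one]
          exact hW1 u
  · by_cases hWu : WW V X θ δ u = 0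
    · rw [hf]
      simp only
      rw [hWu, zero_mul]
    · have h1 : ∀ p ∈ PX X, wb V p (θ p) δ u ≠ 0 := by
        intro p hp h
        exact hWu (Finset.prod_eq_zero hp h)
      have h2 : ∀ k, ‖(∑ p ∈ PX X, V k p u) - ∑ p ∈ PX X, V k p (θ p)‖ < ε / 2 := by
        intro k
        rw [← Finset.sum_sub_distrib]
        refine lt_of_le_of_lt (norm_sum_le_of_le _ fun p hp => wb_pos hδ0 (h1 p hp) k) ?_
        rw [Finset.sum_const, nsmul_eq_mul, hδ]
        have hc : (0 : ℝ) ≤ (PX X).card := Nat.cast_nonneg _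
        rw [mul_div_assoc', div_lt_div_iff₀ (by positivity) two_pos]
        nlinarith
      rw [Set.mem_ofPred_eq, not_forall] at hu
      obtain ⟨k, hk⟩ := hu
      rw [not_lt] at hk
      have h3 : ε / 2 ≤ ‖Y k u - ∑ p ∈ PX X, V k p u‖ := by
        have h4 : Y k u - ∑ p ∈ PX X, V k p (θ p) = (Y k u - ∑ p ∈ PX X, V k p u) +
            ((∑ p ∈ PX X, V k p u) - ∑ p ∈ PX X, V k p (θ p)) := by ring
        have h5 := norm_add_le (Y k u - ∑ p ∈ PX X, V k p u)
            ((∑ p ∈ PX X, V k p u) - ∑ p ∈ PX X, V k p (θ p))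
        rw [← h4] at h5
        linarith [h2 k]
      have h4 : ε ^ 2 / 4 ≤ N u := by
        have h5 : ‖Y k u - ∑ p ∈ PX X, V k p u‖ ^ 2 ≤
            2 * (‖Y k u - ∑ p ∈ PX Z, V k p u‖ ^ 2 + ‖TT k u‖ ^ 2) := by
          have h6 := norm_sq_add2 (Y k u - ∑ p ∈ PX Z, V k p u) (TT k u)
          have h7 : Y k u - ∑ p ∈ PX Z, V k p u + TT k u = Y k u - ∑ p ∈ PX X, V k p u := by
            rw [hsplit]
            ring
          rwa [h7] at h6
        have h6 : 2 * (‖Y k u - ∑ p ∈ PX Z, V k p u‖ ^ 2 + ‖TT k u‖ ^ 2) ≤ N u :=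
          Finset.single_le_sum (f := fun k => 2 * (‖Y k u - ∑ p ∈ PX Z, V k p u‖ ^ 2 +
            ‖TT k u‖ ^ 2)) (fun k _ => by positivity) (Finset.mem_univ k)
        have h7 := pow_le_pow_left₀ (by positivity) h3 2
        have h8 : (ε / 2) ^ 2 = ε ^ 2 / 4 := by ring
        linarith
      rw [hf]
      simp only
      refine mul_nonpos_of_nonneg_of_nonpos (hW0 u) ?_
      have h5 : 4 / ε ^ 2 * (ε ^ 2 / 4) ≤ 4 / ε ^ 2 * N u :=
        mul_le_mul_of_nonneg_left h4 (by positivity)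
      have h6 : 4 / ε ^ 2 * (ε ^ 2 / 4) = 1 := by
        field_simp
      linarith
  · -- the integral
    have iW : IntervalIntegrable (WW V X θ δ) volume T (T + H) := hWc.intervalIntegrable _ _
    have iA : ∀ k, IntervalIntegrable (fun u => WW V X θ δ u *
        ‖Y k u - ∑ p ∈ PX Z, V k p u‖ ^ 2) volume T (T + H) := fun k =>
      ((hZ k).1 _ _).continuousOn_mul hWc.continuousOn
    have iB : ∀ k, IntervalIntegrable (fun u => WW V X θ δ u * ‖TT k u‖ ^ 2) volume T (T + H) :=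
      fun k => (hTi k _ _).continuousOn_mul hWc.continuousOn
    have e1 : ∫ u in T..(T + H), f u = (∫ u in T..(T + H), WW V X θ δ u) -
        4 / ε ^ 2 * ∑ k, 2 * ((∫ u in T..(T + H), WW V X θ δ u *
          ‖Y k u - ∑ p ∈ PX Z, V k p u‖ ^ 2) + ∫ u in T..(T + H), WW V X θ δ u * ‖TT k u‖ ^ 2) := by
      have h1 : ∀ u, f u = WW V X θ δ u - 4 / ε ^ 2 * ∑ k, 2 * (WW V X θ δ u *
          ‖Y k u - ∑ p ∈ PX Z, V k p u‖ ^ 2 + WW V X θ δ u * ‖TT k u‖ ^ 2) := by
        intro u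
        rw [hf, hN]
        simp only
        have h2 : WW V X θ δ u * (1 - 4 / ε ^ 2 * ∑ k, 2 * (‖Y k u - ∑ p ∈ PX Z, V k p u‖ ^ 2 +
            ‖TT k u‖ ^ 2)) = WW V X θ δ u - 4 / ε ^ 2 * (WW V X θ δ u *
              ∑ k, 2 * (‖Y k u - ∑ p ∈ PX Z, V k p u‖ ^ 2 + ‖TT k u‖ ^ 2)) := by ring
        rw [h2, Finset.mul_sum]
        congr 2
        refine Finset.sum_congr rfl fun k _ => ?_
        ring
      simp_rw [h1]
      have i2 : ∀ k, IntervalIntegrable (fun u => 2 * (WW V X θ δ u *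
          ‖Y k u - ∑ p ∈ PX Z, V k p u‖ ^ 2 + WW V X θ δ u * ‖TT k u‖ ^ 2)) volume T (T + H) :=
        fun k => ((iA k).add (iB k)).const_mul 2
      have i3 : IntervalIntegrable (fun u => ∑ k, 2 * (WW V X θ δ u *
          ‖Y k u - ∑ p ∈ PX Z, V k p u‖ ^ 2 + WW V X θ δ u * ‖TT k u‖ ^ 2)) volume T (T + H) := by
        have := IntervalIntegrable.sum Finset.univ fun k _ => i2 k
        simpa [Finset.sum_fn] using this
      rw [intervalIntegral.integral_sub iW (i3.const_mul _), intervalIntegral.integral_const_mul,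
        intervalIntegral.integral_finsetSum fun k _ => i2 k]
      congr 2
      refine Finset.sum_congr rfl fun k _ => ?_
      rw [intervalIntegral.integral_const_mul, intervalIntegral.integral_add (iA k) (iB k)]
    have e2 : (m - η3) * H ≤ ∫ u in T..(T + H), WW V X θ δ u := by
      have h1 := hHW H hHHW T
      rw [intervalIntegral.integral_ofReal] at h1
      have h2 : ((∫ u in T..(T + H), WW V X θ δ u : ℝ) : ℂ) - H * (m : ℂ) =
          (((∫ u in T..(T + H), WW V X θ δ u) - H * m : ℝ) : ℂ) := by push_cast; ring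
      rw [h2, Complex.norm_real, Real.norm_eq_abs] at h1
      have h3 := (abs_le.1 h1).1
      linarith
    have e3 : ∀ k, ∫ u in T..(T + H), WW V X θ δ u * ‖Y k u - ∑ p ∈ PX Z, V k p u‖ ^ 2 ≤
        η2 * (2 * H) := by
      intro k
      have h1 : ∫ u in T..(T + H), WW V X θ δ u * ‖Y k u - ∑ p ∈ PX Z, V k p u‖ ^ 2 ≤
          ∫ u in T..(T + H), ‖Y k u - ∑ p ∈ PX Z, V k p u‖ ^ 2 := by
        refine intervalIntegral.integral_mono (by linarith) (iA k) ((hZ k).1 _ _) fun u => ?_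
        exact mul_le_of_le_one_left (by positivity) (hW1 u)
      refine h1.trans ((window (hZ k).1 (fun u => by positivity) (hZ k).2 hH0.le T).trans ?_)
      refine mul_le_mul_of_nonneg_left ?_ hη20.le
      linarith
    have e4 : ∀ k, ∫ u in T..(T + H), WW V X θ δ u * ‖TT k u‖ ^ 2 ≤
        H * (m * ∑ p ∈ D, (C k / ((p : ℕ) : ℝ)) ^ 2) + η3 * H := by
      intro k
      have h1 := hHk k H (hHHk k) T
      have h2 : ∫ u in T..(T + H), (WW V X θ δ u : ℂ) * ((‖∑ p ∈ D, V k p u‖ ^ 2 : ℝ) : ℂ) =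
          ((∫ u in T..(T + H), WW V X θ δ u * ‖TT k u‖ ^ 2 : ℝ) : ℂ) := by
        rw [← intervalIntegral.integral_ofReal]
        refine intervalIntegral.integral_congr fun u _ => ?_
        change (WW V X θ δ u : ℂ) * ((‖∑ p ∈ D, V k p u‖ ^ 2 : ℝ) : ℂ) =
          ((WW V X θ δ u * ‖TT k u‖ ^ 2 : ℝ) : ℂ)
        rw [Complex.ofReal_mul]
      rw [h2] at h1
      set A : ℂ := (H : ℂ) * ((mW V X θ δ : ℂ) *
        ∑ p ∈ D, av p (fun u => V k p u * conj (V k p u))) with hA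
      have h3 : ‖A‖ ≤ H * (m * ∑ p ∈ D, (C k / ((p : ℕ) : ℝ)) ^ 2) := by
        rw [hA, norm_mul, norm_mul, Complex.norm_real, Complex.norm_real,
          Real.norm_of_nonneg hH0.le, Real.norm_of_nonneg hm0.le]
        refine mul_le_mul_of_nonneg_left (mul_le_mul_of_nonneg_left ?_ hm0.le) hH0.le
        refine norm_sum_le_of_le _ fun p _ => norm_av_le fun u => ?_
        rw [norm_mul, RCLike.norm_conj, ← sq]
        exact pow_le_pow_left₀ (norm_nonneg _) (hC k p u) 2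
      have h4 : (∫ u in T..(T + H), WW V X θ δ u * ‖TT k u‖ ^ 2) ≤
          ‖((∫ u in T..(T + H), WW V X θ δ u * ‖TT k u‖ ^ 2 : ℝ) : ℂ)‖ := by
        rw [Complex.norm_real]
        exact Real.le_norm_self _
      have h5 : ‖((∫ u in T..(T + H), WW V X θ δ u * ‖TT k u‖ ^ 2 : ℝ) : ℂ)‖ ≤
          ‖((∫ u in T..(T + H), WW V X θ δ u * ‖TT k u‖ ^ 2 : ℝ) : ℂ) - A‖ + ‖A‖ := by
        have := norm_add_le (((∫ u in T..(T + H), WW V X θ δ u * ‖TT k u‖ ^ 2 : ℝ) : ℂ) - A) A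
        rwa [sub_add_cancel] at this
      linarith
    have e5 : ∑ k, 2 * ((∫ u in T..(T + H), WW V X θ δ u *
          ‖Y k u - ∑ p ∈ PX Z, V k p u‖ ^ 2) + ∫ u in T..(T + H), WW V X θ δ u * ‖TT k u‖ ^ 2) ≤
        4 * r * η2 * H + 2 * r * η3 * H + 2 * H * m * (ε ^ 2 / 64) := by
      have h1 : ∑ k, 2 * ((∫ u in T..(T + H), WW V X θ δ u *
          ‖Y k u - ∑ p ∈ PX Z, V k p u‖ ^ 2) + ∫ u in T..(T + H), WW V X θ δ u * ‖TT k u‖ ^ 2) ≤
          ∑ k, (4 * η2 * H + 2 * η3 * H + 2 * H * m * ∑ p ∈ D, (C k / ((p : ℕ) : ℝ)) ^ 2) :=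
        Finset.sum_le_sum fun k _ => by linarith [e3 k, e4 k]
      refine h1.trans ?_
      rw [Finset.sum_add_distrib, Finset.sum_const, Finset.card_univ, nsmul_eq_mul,
        ← Finset.mul_sum, Finset.sum_comm]
      have h2 := hX1 D hDX
      have h3 : 2 * H * m * ∑ p ∈ D, ∑ k, (C k / ((p : ℕ) : ℝ)) ^ 2 ≤
          2 * H * m * (ε ^ 2 / 64) := mul_le_mul_of_nonneg_left h2 (by positivity)
      linarith
    rw [e1]
    have e6 : 4 / ε ^ 2 * (∑ k, 2 * ((∫ u in T..(T + H), WW V X θ δ u *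
          ‖Y k u - ∑ p ∈ PX Z, V k p u‖ ^ 2) + ∫ u in T..(T + H), WW V X θ δ u * ‖TT k u‖ ^ 2)) ≤
        4 / ε ^ 2 * (4 * r * η2 * H + 2 * r * η3 * H + 2 * H * m * (ε ^ 2 / 64)) :=
      mul_le_mul_of_nonneg_left e5 (by positivity)
    have e7 : 16 * r / ε ^ 2 * η2 ≤ m / 8 := by
      rw [hη2, mul_div_assoc', div_le_div_iff₀ (by positivity) (by norm_num)]
      have h1 : 16 * r / ε ^ 2 ≤ 1 + 16 * (r + 1) / ε ^ 2 := by
        have : 16 * (r + 1) / ε ^ 2 = 16 * r / ε ^ 2 + 16 / ε ^ 2 := by ring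
        rw [this]
        have : 0 ≤ 16 / ε ^ 2 := by positivity
        linarith
      calc 16 * r / ε ^ 2 * m * 8 = (8 * m) * (16 * r / ε ^ 2) := by ring
        _ ≤ (8 * m) * (1 + 16 * (r + 1) / ε ^ 2) := mul_le_mul_of_nonneg_left h1 (by positivity)
        _ = _ := by ring
    have e8 : 8 * r / ε ^ 2 * η3 ≤ m / 8 := by
      rw [hη3, mul_div_assoc', div_le_div_iff₀ (by positivity) (by norm_num)]
      have h1 : 8 * r / ε ^ 2 ≤ 1 + 8 * (r + 1) / ε ^ 2 := by
        have : 8 * (r + 1) / ε ^ 2 = 8 * r / ε ^ 2 + 8 / ε ^ 2 := by ring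
        rw [this]
        have : 0 ≤ 8 / ε ^ 2 := by positivity
        linarith
      calc 8 * r / ε ^ 2 * m * 8 = (8 * m) * (8 * r / ε ^ 2) := by ring
        _ ≤ (8 * m) * (1 + 8 * (r + 1) / ε ^ 2) := mul_le_mul_of_nonneg_left h1 (by positivity)
        _ = _ := by ring
    have e9 : η3 ≤ m / 8 := by
      rw [hη3]
      refine div_le_div_of_nonneg_left hm0.le (by norm_num) ?_
      have : 0 ≤ 8 * (r + 1) / ε ^ 2 := by positivity
      linarith
    have e10 : 4 / ε ^ 2 * (4 * r * η2 * H + 2 * r * η3 * H + 2 * H * m * (ε ^ 2 / 64)) =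
        (16 * r / ε ^ 2 * η2) * H + (8 * r / ε ^ 2 * η3) * H + m / 8 * H := by
      field_simp
      ring
    have e11 : (16 * r / ε ^ 2 * η2) * H ≤ m / 8 * H := mul_le_mul_of_nonneg_right e7 hH0.le
    have e12 : (8 * r / ε ^ 2 * η3) * H ≤ m / 8 * H := mul_le_mul_of_nonneg_right e8 hH0.le
    have e13 : (m - m / 8) * H ≤ (m - η3) * H :=
      mul_le_mul_of_nonneg_right (by linarith) hH0.le
    linarith

end

end Pool.Agent.E8helper69.AP
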