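import Pool.Agent.E8helper69.AQ.O

/-!
# Sums with free phases are dense
-/

set_option autoImplicit false

namespace Pool.Agent.E8helper69.AP

open Complex MeasureTheory Finset Filter Topology Set
open scoped ComplexConjugate ENNReal
open Pool.Agent.TH339.MP

section
variable {ι : Type} [Fintype ι]

/-- sums with coefficients in the unit disc -/
def KK (c : ι → Nat.Primes → ℂ) (X1 X0 : ℕ) : Set (ι → ℂ) :=
  {x | ∃ X, X0 ≤ X ∧ ∃ a : Nat.Primes → ℂ, (∀ p, ‖a p‖ ≤ 1) ∧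
    ∀ k, x k = ∑ p ∈ PX X \ PX X1, a p * c k p}

lemma KK_ext {c : ι → Nat.Primes → ℂ} {X1 X0 : ℕ} {x : ι → ℂ} (hx : x ∈ KK c X1 X0) :
    ∃ X, X0 ≤ X ∧ ∀ Z, X ≤ Z → ∃ a : Nat.Primes → ℂ, (∀ p, ‖a p‖ ≤ 1) ∧
      ∀ k, x k = ∑ p ∈ PX Z \ PX X1, a p * c k p := by
  classical
  obtain ⟨X, hX, a, ha, h⟩ := hx
  refine ⟨X, hX, fun Z hZ => ⟨fun p => if p ∈ PX X then a p else 0, fun p => ?_, fun k => ?_⟩⟩
  · beta_reduce
    split_ifs
    · exact ha p
    · simp
  · rw [h k]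
    beta_reduce
    have h1 : PX X \ PX X1 ⊆ PX Z \ PX X1 := Finset.sdiff_subset_sdiff (PX_mono hZ) le_rfl
    rw [← Finset.sum_subset h1]
    · refine Finset.sum_congr rfl fun p hp => ?_
      rw [if_pos (Finset.mem_sdiff.1 hp).1]
    · intro p hp hp'
      rw [if_neg, zero_mul]
      intro h2
      exact hp' (Finset.mem_sdiff.2 ⟨h2, (Finset.mem_sdiff.1 hp).2⟩)

lemma KK_convex (c : ι → Nat.Primes → ℂ) (X1 X0 : ℕ) : Convex ℝ (KK c X1 X0) := by
  intro x hx y hy s t hs ht hst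
  obtain ⟨X, hX, h1⟩ := KK_ext hx
  obtain ⟨X', hX', h2⟩ := KK_ext hy
  obtain ⟨a, ha, ha'⟩ := h1 (max X X') (le_max_left _ _)
  obtain ⟨a2, ha2, ha2'⟩ := h2 (max X X') (le_max_right _ _)
  refine ⟨max X X', hX.trans (le_max_left _ _), fun p => (s : ℂ) * a p + (t : ℂ) * a2 p,
    fun p => ?_, fun k => ?_⟩
  · refine (norm_add_le _ _).trans ?_
    rw [norm_mul, norm_mul, Complex.norm_real, Complex.norm_real, Real.norm_of_nonneg hs,
      Real.norm_of_nonneg ht]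
    nlinarith [ha p, ha2 p, norm_nonneg (a p), norm_nonneg (a2 p)]
  · simp only [Pi.add_apply, Pi.smul_apply, Complex.real_smul]
    rw [ha' k, ha2' k, Finset.mul_sum, Finset.mul_sum, ← Finset.sum_add_distrib]
    refine Finset.sum_congr rfl fun p _ => ?_
    ring

lemma dual_apply [DecidableEq ι] (φ : StrongDual ℂ (ι → ℂ)) (x : ι → ℂ) :
    φ x = ∑ k, φ (Pi.single k 1) * x k := by
  have h1 : x = ∑ k, x k • (Pi.single k (1 : ℂ) : ι → ℂ) := by
    funext j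
    rw [Finset.sum_apply]
    simp [Pi.single_apply]
  conv_lhs => rw [h1]
  rw [map_sum]
  refine Finset.sum_congr rfl fun k _ => ?_
  rw [map_smul, smul_eq_mul, mul_comm]

lemma hull_dense (c : ι → Nat.Primes → ℂ) (X1 X0 : ℕ)
    (hdiv : ∀ ξ : ι → ℂ, ξ ≠ 0 → ¬ Summable fun p => ‖∑ k, ξ k * c k p‖) (z : ι → ℂ) :
    z ∈ closure (KK c X1 X0) := by
  classical
  by_contra hz
  obtain ⟨φ, u, h1, h2⟩ := RCLike.geometric_hahn_banach_closed_point (𝕜 := ℂ)
    (KK_convex c X1 X0).closure isClosed_closure hz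
  have h0 : (0 : ι → ℂ) ∈ KK c X1 X0 :=
    ⟨X0, le_rfl, fun _ => 0, fun p => by simp, fun k => by simp⟩
  have hu : 0 < u := by
    have h3 := h1 0 (subset_closure h0)
    simpa using h3
  set ξ : ι → ℂ := fun k => φ (Pi.single k 1) with hξ
  have hξ0 : ξ ≠ 0 := by
    intro h
    have h3 := dual_apply φ z
    have h4 : φ z = 0 := by
      rw [h3]
      refine Finset.sum_eq_zero fun k _ => ?_
      have : φ (Pi.single k 1) = 0 := congrFun h k
      rw [this, zero_mul]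
    rw [h4] at h2
    simp at h2
    linarith
  apply hdiv ξ hξ0
  set w : Nat.Primes → ℂ := fun p => ∑ k, ξ k * c k p with hw
  set a : Nat.Primes → ℂ := fun p => conj (w p) / (‖w p‖ : ℂ) with ha
  have ha1 : ∀ p, ‖a p‖ ≤ 1 := by
    intro p
    rw [ha]
    simp only
    rw [norm_div, RCLike.norm_conj, Complex.norm_real, norm_norm]
    exact div_self_le_one _
  have haw : ∀ p, a p * w p = (‖w p‖ : ℂ) := by
    intro p
    rw [ha]
    simp only
    by_cases h : w p = 0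
    · rw [h]
      simp
    · have h3 : (‖w p‖ : ℂ) ≠ 0 := by exact_mod_cast (norm_ne_zero_iff.2 h)
      rw [div_mul_eq_mul_div, mul_comm, Complex.mul_conj, Complex.normSq_eq_norm_sq]
      push_cast
      field_simp
  have hbound : ∀ X, X0 ≤ X → ∑ p ∈ PX X \ PX X1, ‖w p‖ ≤ u := by
    intro X hX
    set x : ι → ℂ := fun k => ∑ p ∈ PX X \ PX X1, a p * c k p with hx
    have hxK : x ∈ KK c X1 X0 := ⟨X, hX, a, ha1, fun k => rfl⟩
    have h3 := (h1 x (subset_closure hxK)).le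
    have h4 : φ x = ((∑ p ∈ PX X \ PX X1, ‖w p‖ : ℝ) : ℂ) := by
      rw [dual_apply φ x, Complex.ofReal_sum]
      have h5 : ∀ k, φ (Pi.single k 1) * x k = ∑ p ∈ PX X \ PX X1, a p * (ξ k * c k p) := by
        intro k
        rw [hx]
        simp only
        rw [Finset.mul_sum]
        refine Finset.sum_congr rfl fun p _ => ?_
        rw [hξ]
        ring
      simp_rw [h5]
      rw [Finset.sum_comm]
      refine Finset.sum_congr rfl fun p _ => ?_
      rw [← Finset.mul_sum]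
      exact haw p
    rw [h4] at h3
    simpa using h3
  refine summable_of_sum_le (c := (∑ p ∈ PX X1, ‖w p‖) + u) (fun p => norm_nonneg _) fun s => ?_
  obtain ⟨X, hX1, hX2⟩ := ((PX_tendsto.eventually (eventually_ge_atTop s)).and
    (eventually_ge_atTop X0)).exists
  have h3 : ∑ p ∈ s, ‖w p‖ ≤ ∑ p ∈ PX X, ‖w p‖ :=
    Finset.sum_le_sum_of_subset_of_nonneg hX1 fun _ _ _ => norm_nonneg _
  have h4 : ∑ p ∈ PX X, ‖w p‖ ≤ ∑ p ∈ PX X1 ∪ (PX X \ PX X1), ‖w p‖ := by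
    refine Finset.sum_le_sum_of_subset_of_nonneg (fun p hp => ?_) fun _ _ _ => norm_nonneg _
    rw [Finset.mem_union, Finset.mem_sdiff]
    by_cases h : p ∈ PX X1
    · exact Or.inl h
    · exact Or.inr ⟨hp, h⟩
  rw [Finset.sum_union Finset.disjoint_sdiff] at h4
  have h5 := hbound X hX2
  exact h3.trans (h4.trans (by linarith))

lemma round_one {a : ℂ} (ha : ‖a‖ ≤ 1) : ∃ e : ℂ, ‖e‖ = 1 ∧ ‖2 * a - e‖ = 1 := by
  set r : ℝ := ‖a‖ with hr
  have hr0 : 0 ≤ r := norm_nonneg _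
  set t : ℝ := Real.sqrt (1 - r ^ 2) with ht
  have ht2 : t ^ 2 = 1 - r ^ 2 := Real.sq_sqrt (by nlinarith)
  set ω : ℂ := Complex.exp ((Complex.arg a : ℂ) * I) with hω
  have hω1 : ‖ω‖ = 1 := Complex.norm_exp_ofReal_mul_I _
  have haω : a = (r : ℂ) * ω := (Complex.norm_mul_exp_arg_mul_I a).symm
  have key : ∀ s : ℝ, s ^ 2 = 1 - r ^ 2 → ‖(r : ℂ) + (s : ℂ) * I‖ = 1 := by
    intro s hs
    have h1 : ‖(r : ℂ) + (s : ℂ) * I‖ ^ 2 = 1 := by
      rw [← Complex.normSq_eq_norm_sq, Complex.normSq_add_mul_I]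
      linarith
    have h2 := norm_nonneg ((r : ℂ) + (s : ℂ) * I)
    nlinarith
  refine ⟨ω * ((r : ℂ) + (t : ℂ) * I), ?_, ?_⟩
  · rw [norm_mul, hω1, one_mul, key t ht2]
  · have h1 : 2 * a - ω * ((r : ℂ) + (t : ℂ) * I) = ω * ((r : ℂ) + ((-t : ℝ) : ℂ) * I) := by
      rw [haω]
      push_cast
      ring
    rw [h1, norm_mul, hω1, one_mul, key (-t) (by rw [neg_sq, ht2])]

lemma round_all (c : ι → Nat.Primes → ℂ) (a : Nat.Primes → ℂ) (ha : ∀ p, ‖a p‖ ≤ 1)
    (s : Finset Nat.Primes) : ∃ e : Nat.Primes → ℂ, (∀ p, ‖e p‖ = 1) ∧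
      ∑ k, ‖∑ p ∈ s, (a p - e p) * c k p‖ ^ 2 ≤ 4 * ∑ p ∈ s, ∑ k, ‖c k p‖ ^ 2 := by
  classical
  induction s using Finset.induction_on with
  | empty => exact ⟨fun _ => 1, fun p => norm_one, by simp⟩
  | insert p s hps ih =>
    obtain ⟨e, he, h1⟩ := ih
    obtain ⟨e1, he1, he2⟩ := round_one (ha p)
    set R : ι → ℂ := fun k => ∑ q ∈ s, (a q - e q) * c k q with hR
    set v : ι → ℂ := fun k => (a p - e1) * c k p with hv
    have hv4 : ∑ k, ‖v k‖ ^ 2 ≤ 4 * ∑ k, ‖c k p‖ ^ 2 := by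
      rw [Finset.mul_sum]
      refine Finset.sum_le_sum fun k _ => ?_
      rw [hv]
      simp only
      rw [norm_mul, mul_pow]
      refine mul_le_mul_of_nonneg_right ?_ (by positivity)
      have h2 : ‖a p - e1‖ ≤ 2 := (norm_sub_le _ _).trans (by linarith [ha p])
      nlinarith [norm_nonneg (a p - e1)]
    have hpar : (∑ k, ‖R k + v k‖ ^ 2) + ∑ k, ‖R k - v k‖ ^ 2 =
        2 * ((∑ k, ‖R k‖ ^ 2) + ∑ k, ‖v k‖ ^ 2) := by
      rw [← Finset.sum_add_distrib, ← Finset.sum_add_distrib, Finset.mul_sum]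
      refine Finset.sum_congr rfl fun k _ => ?_
      have h2 := parallelogram_law_with_norm ℝ (R k) (v k)
      nlinarith
    have hupd : ∀ (e' : ℂ) (k : ι), ∑ q ∈ insert p s, (a q - Function.update e p e' q) * c k q =
        R k + (a p - e') * c k p := by
      intro e' k
      rw [Finset.sum_insert hps, Function.update_self, add_comm]
      congr 1
      refine Finset.sum_congr rfl fun q hq => ?_
      have : q ≠ p := fun h => hps (h ▸ hq)
      rw [Function.update_of_ne this]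
    have hor : (∑ k, ‖R k + v k‖ ^ 2 ≤ (∑ k, ‖R k‖ ^ 2) + ∑ k, ‖v k‖ ^ 2) ∨
        (∑ k, ‖R k - v k‖ ^ 2 ≤ (∑ k, ‖R k‖ ^ 2) + ∑ k, ‖v k‖ ^ 2) := by
      by_contra hcon
      push Not at hcon
      linarith [hcon.1, hcon.2]
    rw [Finset.sum_insert hps, mul_add]
    rcases hor with h2 | h2
    · refine ⟨Function.update e p e1, fun q => ?_, ?_⟩
      · by_cases h : q = p
        · rw [h, Function.update_self]
          exact he1
        · rw [Function.update_of_ne h]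
          exact he q
      · simp only [hupd]
        change ∑ k, ‖R k + v k‖ ^ 2 ≤ _
        linarith
    · refine ⟨Function.update e p (2 * a p - e1), fun q => ?_, ?_⟩
      · by_cases h : q = p
        · rw [h, Function.update_self]
          exact he2
        · rw [Function.update_of_ne h]
          exact he q
      · simp only [hupd]
        have h3 : ∀ k, R k + (a p - (2 * a p - e1)) * c k p = R k - v k := by
          intro k
          rw [hv]
          ring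
        simp only [h3]
        linarith

lemma exists_theta (p : Nat.Primes) {e : ℂ} (he : ‖e‖ = 1) :
    ∃ θ : ℝ, ee (-Real.log (p : ℕ)) θ = e := by
  have hl := (log_prime_pos p).ne'
  refine ⟨-Complex.arg e / Real.log (p : ℕ), ?_⟩
  unfold ee
  have h1 : -Real.log ((p : ℕ) : ℝ) * (-Complex.arg e / Real.log ((p : ℕ) : ℝ)) = Complex.arg e := by
    field_simp
  rw [h1]
  have h2 := Complex.norm_mul_exp_arg_mul_I e
  rw [he, Complex.ofReal_one, one_mul] at h2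
  exact h2

theorem density {V : ι → Nat.Primes → ℝ → ℂ} {c : ι → Nat.Primes → ℂ} {C : ℝ}
    (hc : ∀ k p, ‖c k p‖ ≤ C / (p : ℕ)) (F : Finset Nat.Primes)
    (herr : ∀ k, ∀ p ∉ F, ∀ u, ‖V k p u - c k p * ee (-Real.log (p : ℕ)) u‖ ≤
      (C / ((p : ℕ) : ℝ)) ^ 2)
    (hdiv : ∀ ξ : ι → ℂ, ξ ≠ 0 → ¬ Summable fun p => ‖∑ k, ξ k * c k p‖) (z : ι → ℂ) {ε : ℝ}
    (hε : 0 < ε) (X0 : ℕ) :
    ∃ X, X0 ≤ X ∧ ∃ θ : Nat.Primes → ℝ, ∀ k, ‖(∑ p ∈ PX X, V k p (θ p)) - z k‖ < ε := by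
  classical
  have hs := summable_inv_sq C
  set r : ℝ := (Fintype.card ι : ℝ) with hr
  have hr0 : 0 ≤ r := by positivity
  obtain ⟨X1, ⟨h1, h2⟩, h3⟩ := (((far_small hs (fun p => sq_nonneg _)
      (show 0 < ε / 8 by positivity)).and
    (far_small (hs.mul_left (4 * r)) (fun p => by positivity)
      (show 0 < (ε / 4) ^ 2 by positivity))).and
    (PX_tendsto.eventually (eventually_ge_atTop F))).exists
  set z0 : ι → ℂ := fun k => ∑ p ∈ PX X1, V k p 0 with hz0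
  have hmem := hull_dense c X1 (max X0 X1) hdiv (fun k => z k - z0 k)
  rw [Metric.mem_closure_iff] at hmem
  obtain ⟨x, ⟨X, hX, a, ha, hx⟩, hd⟩ := hmem (ε / 4) (by positivity)
  have hX0 : X0 ≤ X := (le_max_left _ _).trans hX
  have hX1 : X1 ≤ X := (le_max_right _ _).trans hX
  set D := PX X \ PX X1 with hD
  have hDd : Disjoint D (PX X1) := Finset.sdiff_disjoint
  obtain ⟨e, he, hround⟩ := round_all c a ha D
  choose θ' hθ' using fun p => exists_theta p (he p)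
  refine ⟨X, hX0, fun p => if p ∈ PX X1 then 0 else θ' p, fun k => ?_⟩
  have e1 : ∑ p ∈ PX X, V k p (if p ∈ PX X1 then 0 else θ' p) =
      z0 k + ∑ p ∈ D, V k p (θ' p) := by
    rw [hD, ← Finset.sum_sdiff (PX_mono hX1), add_comm, hz0]
    congr 1
    · refine Finset.sum_congr rfl fun p hp => ?_
      rw [if_pos hp]
    · refine Finset.sum_congr rfl fun p hp => ?_
      rw [if_neg (Finset.mem_sdiff.1 hp).2]
  have e2 : ‖∑ p ∈ D, (V k p (θ' p) - c k p * e p)‖ ≤ ε / 8 := by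
    refine (norm_sum_le_of_le (n := fun p : Nat.Primes => (C / ((p : ℕ) : ℝ)) ^ 2) _
      fun p hp => ?_).trans (h1 D hDd)
    have h4 : p ∉ F := fun h => Finset.disjoint_left.1 hDd hp (h3 h)
    have h5 := herr k p h4 (θ' p)
    rwa [hθ' p] at h5
  have e3 : ‖∑ p ∈ D, (a p - e p) * c k p‖ ≤ ε / 4 := by
    have h4 : ‖∑ p ∈ D, (a p - e p) * c k p‖ ^ 2 ≤ (ε / 4) ^ 2 := by
      have h5 : ‖∑ p ∈ D, (a p - e p) * c k p‖ ^ 2 ≤
          ∑ k, ‖∑ p ∈ D, (a p - e p) * c k p‖ ^ 2 :=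
        Finset.single_le_sum (f := fun k => ‖∑ p ∈ D, (a p - e p) * c k p‖ ^ 2)
          (fun _ _ => by positivity) (Finset.mem_univ k)
      have h6 : 4 * ∑ p ∈ D, ∑ k, ‖c k p‖ ^ 2 ≤ ∑ p ∈ D, 4 * r * (C / ((p : ℕ) : ℝ)) ^ 2 := by
        rw [← Finset.mul_sum, mul_assoc]
        refine mul_le_mul_of_nonneg_left ?_ (by norm_num)
        rw [Finset.mul_sum]
        refine Finset.sum_le_sum fun p _ => ?_
        have h7 : ∑ k, ‖c k p‖ ^ 2 ≤ ∑ _k : ι, (C / ((p : ℕ) : ℝ)) ^ 2 :=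
          Finset.sum_le_sum fun k _ => pow_le_pow_left₀ (norm_nonneg _) (hc k p) 2
        rw [Finset.sum_const, Finset.card_univ, nsmul_eq_mul] at h7
        exact h7
      exact h5.trans (hround.trans (h6.trans (h2 D hDd)))
    exact (abs_le_of_sq_le_sq' h4 (by positivity)).2
  have e4 : ‖(∑ p ∈ D, a p * c k p) - (z k - z0 k)‖ < ε / 4 := by
    have h4 := (dist_pi_lt_iff (by positivity)).1 hd k
    rw [dist_comm, dist_eq_norm, hx k] at h4
    exact h4
  rw [e1]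
  have e5 : z0 k + (∑ p ∈ D, V k p (θ' p)) - z k =
      (∑ p ∈ D, (V k p (θ' p) - c k p * e p)) - (∑ p ∈ D, (a p - e p) * c k p) +
        ((∑ p ∈ D, a p * c k p) - (z k - z0 k)) := by
    rw [Finset.sum_sub_distrib]
    have h4 : ∑ p ∈ D, (a p - e p) * c k p = (∑ p ∈ D, a p * c k p) - ∑ p ∈ D, c k p * e p := by
      rw [← Finset.sum_sub_distrib]
      refine Finset.sum_congr rfl fun p _ => ?_
      ring
    rw [h4]
    ring
  rw [e5]
  refine lt_of_le_of_lt (norm_add_le _ _) ?_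
  have e6 := norm_sub_le (∑ p ∈ D, (V k p (θ' p) - c k p * e p)) (∑ p ∈ D, (a p - e p) * c k p)
  linarith

/-- **Density.** -/
theorem often_near {Y : ι → ℝ → ℂ} {V : ι → Nat.Primes → ℝ → ℂ} (hY : ∀ k, IsModel (Y k) (V k))
    {c : ι → Nat.Primes → ℂ} {C : ℝ}
    (hc : ∀ k p, ‖c k p‖ ≤ C / (p : ℕ)) (F : Finset Nat.Primes)
    (herr : ∀ k, ∀ p ∉ F, ∀ u, ‖V k p u - c k p * ee (-Real.log (p : ℕ)) u‖ ≤
      (C / ((p : ℕ) : ℝ)) ^ 2)
    (hdiv : ∀ ξ : ι → ℂ, ξ ≠ 0 → ¬ Summable fun p => ‖∑ k, ξ k * c k p‖) (z : ι → ℂ) {ε : ℝ}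
    (hε : 0 < ε) : Often {u | ∀ k, ‖Y k u - z k‖ < ε} := by
  obtain ⟨X0, hX0⟩ := eventually_atTop.1 (near hY (half_pos hε))
  obtain ⟨X, hX, θ, hθ⟩ := density hc F herr hdiv z (half_pos hε) X0
  refine (hX0 X hX θ).mono_ae (Eventually.of_forall fun u hu k => ?_)
  have h1 := hu k
  have h2 := hθ k
  have h3 : Y k u - z k = (Y k u - ∑ p ∈ PX X, V k p (θ p)) +
      ((∑ p ∈ PX X, V k p (θ p)) - z k) := by ring
  rw [h3]
  exact lt_of_le_of_lt (norm_add_le _ _) (by linarith)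

end

end Pool.Agent.E8helper69.AP
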