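import Pool.Agent.E8helper69.AQ.P
import Pool.Agent.E8helper69.AP.G
import Pool.Agent.TH339.MP.P10

/-!
# Elliptic curves over number fields on the edge
-/

set_option autoImplicit false

namespace Pool.Agent.E8helper69.AP

open Complex MeasureTheory Finset Filter Topology Set NumberField IsDedekindDomain
open scoped ComplexConjugate ENNReal
open Pool.Agent.TH339.MP
open Pool.Agent.W350.Edge (ps divSet dimH_divSet)
open Pool.Agent.W350.EdgeV (FV mem_FV tendsto_FV)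

section
variable {b : PP → ℂ} {M : ℝ}

lemma ce_succ_le (p : Nat.Primes) (k : ℕ) :
    ce (p, k + 1) ≤ (1 / ((p : ℕ) : ℝ) ^ 2) * (1 / 2) ^ k := by
  unfold ce qq
  simp only
  have h2 : (2 : ℝ) ≤ ((p : ℕ) : ℝ) := two_le_prime p
  have h0 : (0 : ℝ) < ((p : ℕ) : ℝ) := by linarith
  have h3 : (2 : ℝ) ^ k ≤ ((p : ℕ) : ℝ) ^ k := pow_le_pow_left₀ (by norm_num) h2 _
  rw [one_div_pow, one_div_mul_one_div]
  refine one_div_le_one_div_of_le (by positivity) ?_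
  push_cast
  have h4 : (1 : ℝ) ≤ (k : ℝ) + 1 + 1 := by
    have : (0 : ℝ) ≤ k := Nat.cast_nonneg k
    linarith
  have h5 : ((p : ℕ) : ℝ) ^ 2 * 2 ^ k ≤ ((p : ℕ) : ℝ) ^ (k + 1 + 1) := by
    have : ((p : ℕ) : ℝ) ^ (k + 1 + 1) = ((p : ℕ) : ℝ) ^ 2 * ((p : ℕ) : ℝ) ^ k := by ring
    rw [this]
    exact mul_le_mul_of_nonneg_left h3 (by positivity)
  have h6 : (0 : ℝ) < ((p : ℕ) : ℝ) ^ (k + 1 + 1) := by positivity
  nlinarith

lemma lp_err (hb : ∀ x, ‖b x‖ ≤ M / (x.2 + 1 : ℕ)) (p : Nat.Primes) (u : ℝ) :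
    ‖lp b p u - (b (p, 0) / (p : ℕ)) * ee (-Real.log (p : ℕ)) u‖ ≤
      ((2 * M + 1) / ((p : ℕ) : ℝ)) ^ 2 := by
  have hM := M_nonneg hb
  have hp := prime_pos p
  have h1 : lp b p u = tm b (1 + u * I) (p, 0) + ∑' k : ℕ, tm b (1 + u * I) (p, k + 1) :=
    (summable_lp hb p u).tsum_eq_zero_add
  have h2 : tm b (1 + u * I) (p, 0) = (b (p, 0) / (p : ℕ)) * ee (-Real.log (p : ℕ)) u := by
    rw [tm_edge, wt_one]
    unfold fr qq
    simp only [zero_add, pow_one, Nat.cast_one, one_mul]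
    push_cast
    ring
  rw [h1, h2, add_sub_cancel_left]
  have hg : HasSum (fun k : ℕ => M * ((1 / ((p : ℕ) : ℝ) ^ 2) * (1 / 2) ^ k))
      (2 * M / ((p : ℕ) : ℝ) ^ 2) := by
    have h1 := (hasSum_geometric_two).mul_left (M * (1 / ((p : ℕ) : ℝ) ^ 2))
    have e1 : (fun k : ℕ => M * ((1 / ((p : ℕ) : ℝ) ^ 2) * (1 / 2) ^ k)) =
        fun k : ℕ => M * (1 / ((p : ℕ) : ℝ) ^ 2) * (1 / 2) ^ k := by
      funext k
      ring
    have e2 : 2 * M / ((p : ℕ) : ℝ) ^ 2 = M * (1 / ((p : ℕ) : ℝ) ^ 2) * 2 := by ring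
    rw [e1, e2]
    exact h1
  have h3 : ‖∑' k : ℕ, tm b (1 + u * I) (p, k + 1)‖ ≤ 2 * M / ((p : ℕ) : ℝ) ^ 2 :=
    tsum_of_norm_bounded hg fun k => (norm_tm_edge hb (p, k + 1) u).trans
      (mul_le_mul_of_nonneg_left (ce_succ_le p k) hM)
  refine h3.trans ?_
  rw [div_pow]
  refine div_le_div_of_nonneg_right ?_ (by positivity)
  nlinarith

lemma norm_first_le (hb : ∀ x, ‖b x‖ ≤ M / (x.2 + 1 : ℕ)) (p : Nat.Primes) :
    ‖b (p, 0) / (p : ℕ)‖ ≤ (2 * M + 1) / (p : ℕ) := by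
  have hM := M_nonneg hb
  rw [norm_div, Complex.norm_natCast]
  refine div_le_div_of_nonneg_right ?_ (prime_pos p).le
  have := norm_b_le hb (p, 0)
  linarith

end

section
variable {K : Type} [Field K] [NumberField K]

/-- the trace of Frobenius -/
noncomputable abbrev trv (W : HeightOneSpectrum (𝓞 K) → WeierstrassCurve (𝓞 K))
    (v : HeightOneSpectrum (𝓞 K)) : ℝ := Pool.Agent.TH339.MP.av W v

open Classical in
/-- the inverse of the Euler factor -/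
noncomputable def ielf (W : HeightOneSpectrum (𝓞 K) → WeierstrassCurve (𝓞 K))
    (v : HeightOneSpectrum (𝓞 K)) (s : ℂ) : ℂ :=
  1 - (trv W v : ℂ) * (nm v : ℂ) ^ (-s) +
    (if (W v).Δ ∈ v.asIdeal then 0 else (nm v : ℂ)) * (nm v : ℂ) ^ (-2 * s)

variable (W : HeightOneSpectrum (𝓞 K) → WeierstrassCurve (𝓞 K))

lemma elf_eq_inv (v : HeightOneSpectrum (𝓞 K)) (s : ℂ) : elf W v s = (ielf W v s)⁻¹ := rfl

lemma ielf_near (v : HeightOneSpectrum (𝓞 K)) {s : ℂ} (hs : 3 / 2 ≤ s.re) :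
    ‖ielf W v s - 1‖ ≤ 958 / 1000 := by
  classical
  have hq := two_le_nm v
  set q := nm v with hqdef
  have hq0 : (0 : ℝ) < q := by exact_mod_cast (by omega : 0 < q)
  have hq1 : (1 : ℝ) ≤ q := by exact_mod_cast (by omega : 1 ≤ q)
  have hq2 : (2 : ℝ) ≤ q := by exact_mod_cast hq
  have hx : ‖(q : ℂ) ^ (-s)‖ ≤ (q : ℝ) ^ (-(3 / 2) : ℝ) := by
    rw [norm_natCast_cpow_of_pos (by omega), neg_re]
    exact Real.rpow_le_rpow_of_exponent_le hq1 (by linarith)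
  have h1 : (q : ℝ) * (q : ℝ) ^ (-(3 / 2) : ℝ) ≤ 708 / 1000 := by
    have e1 : (q : ℝ) * (q : ℝ) ^ (-(3 / 2) : ℝ) = (Real.sqrt q)⁻¹ := by
      rw [Real.sqrt_eq_rpow, ← Real.rpow_neg hq0.le]
      nth_rewrite 1 [← Real.rpow_one (q : ℝ)]
      rw [← Real.rpow_add hq0]
      norm_num
    rw [e1, inv_le_comm₀ (Real.sqrt_pos.2 hq0) (by norm_num)]
    refine Real.le_sqrt_of_sq_le ?_
    norm_num
    linarith
  have h2 : (q : ℝ) * ((q : ℝ) ^ (-(3 / 2) : ℝ)) ^ 2 ≤ 1 / 4 := by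
    have e1 : (q : ℝ) * ((q : ℝ) ^ (-(3 / 2) : ℝ)) ^ 2 = ((q : ℝ) ^ 2)⁻¹ := by
      rw [← Real.rpow_natCast, ← Real.rpow_mul hq0.le]
      nth_rewrite 1 [← Real.rpow_one (q : ℝ)]
      rw [← Real.rpow_add hq0, ← Real.rpow_natCast (q : ℝ) 2, ← Real.rpow_neg hq0.le]
      norm_num
    rw [e1, inv_le_comm₀ (by positivity) (by norm_num)]
    nlinarith
  have h3 : ‖(trv W v : ℂ) * (q : ℂ) ^ (-s)‖ ≤ 708 / 1000 := by
    rw [norm_mul, Complex.norm_real]
    exact (mul_le_mul (av_triv W v) hx (norm_nonneg _) hq0.le).trans h1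
  have h4 : ‖(if (W v).Δ ∈ v.asIdeal then (0 : ℂ) else (q : ℂ)) * (q : ℂ) ^ (-2 * s)‖ ≤ 1 / 4 := by
    rw [cpow_two q (by omega), norm_mul, norm_pow]
    have he : ‖(if (W v).Δ ∈ v.asIdeal then (0 : ℂ) else (q : ℂ))‖ ≤ q := by
      split_ifs
      · simp
      · simp
    exact (mul_le_mul he (pow_le_pow_left₀ (norm_nonneg _) hx 2) (by positivity) hq0.le).trans h2
  unfold ielf
  have e1 : 1 - (trv W v : ℂ) * (q : ℂ) ^ (-s) +
      (if (W v).Δ ∈ v.asIdeal then (0 : ℂ) else (q : ℂ)) * (q : ℂ) ^ (-2 * s) - 1 =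
      (if (W v).Δ ∈ v.asIdeal then (0 : ℂ) else (q : ℂ)) * (q : ℂ) ^ (-2 * s) -
        (trv W v : ℂ) * (q : ℂ) ^ (-s) := by ring
  rw [e1]
  refine (norm_sub_le _ _).trans ?_
  linarith

lemma ielf_slit (v : HeightOneSpectrum (𝓞 K)) {s : ℂ} (hs : 3 / 2 ≤ s.re) :
    ielf W v s ∈ Complex.slitPlane := by
  refine Or.inl ?_
  have h1 := ielf_near W v hs
  have h2 := (abs_le.1 (Complex.abs_re_le_norm (ielf W v s - 1))).1
  rw [Complex.sub_re, Complex.one_re] at h2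
  linarith

lemma edge_re (u : ℝ) : ((3 / 2 : ℂ) + u * I).re = 3 / 2 := by
  simp

/-- the logarithm of the Euler factor -/
noncomputable def le (v : HeightOneSpectrum (𝓞 K)) (u : ℝ) : ℂ :=
  -Complex.log (ielf W v (3 / 2 + u * I))

lemma exp_le (v : HeightOneSpectrum (𝓞 K)) (u : ℝ) :
    Complex.exp (le W v u) = elf W v (3 / 2 + u * I) := by
  unfold le
  rw [Complex.exp_neg, Complex.exp_log
    (Complex.slitPlane_ne_zero (ielf_slit W v (edge_re u).ge)), elf_eq_inv]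

lemma nm_edge (v : HeightOneSpectrum (𝓞 K)) (u : ℝ) : (nm v : ℂ) ^ (-((3 / 2 : ℂ) + u * I)) =
    (((((pr v : ℕ) : ℝ) ^ (-(3 / 2 : ℝ)) : ℝ) : ℂ) * ee (-Real.log (pr v : ℕ)) u) ^ dg v := by
  have h1 := cpow_eq (pr v) (3 / 2) u
  rw [nm_cpow, ← h1]
  push_cast
  rfl

lemma per_nm (v : HeightOneSpectrum (𝓞 K)) :
    Per (pr v) fun u => (nm v : ℂ) ^ (-((3 / 2 : ℂ) + u * I)) := by
  have h1 : (fun u : ℝ => (nm v : ℂ) ^ (-((3 / 2 : ℂ) + u * I))) = fun u =>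
      (((((pr v : ℕ) : ℝ) ^ (-(3 / 2 : ℝ)) : ℝ) : ℂ) * ee (-Real.log (pr v : ℕ)) u) ^ dg v := by
    funext u
    exact nm_edge v u
  have h2 := per_ee (pr v) (-1)
  have h3 : (((-1 : ℤ) : ℝ) * Real.log (pr v : ℕ)) = -Real.log (pr v : ℕ) := by
    push_cast
    ring
  rw [h3] at h2
  rw [h1]
  refine ⟨(continuous_const.mul h2.cont).pow _, fun u => ?_⟩
  simp only [h2.per u]

lemma per_ielf (v : HeightOneSpectrum (𝓞 K)) : Per (pr v) fun u => ielf W v (3 / 2 + u * I) := by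
  classical
  have h := per_nm v
  have hq : nm v ≠ 0 := by
    have := two_le_nm v
    omega
  unfold ielf
  simp only [cpow_two _ hq]
  refine ⟨?_, fun u => ?_⟩
  · exact (continuous_const.sub (continuous_const.mul h.cont)).add
      (continuous_const.mul (h.cont.pow 2))
  · simp only [h.per u]

lemma per_le (v : HeightOneSpectrum (𝓞 K)) : Per (pr v) (le W v) := by
  have h := per_ielf W v
  refine ⟨?_, fun u => ?_⟩
  · unfold le
    refine Continuous.neg (h.cont.clog fun u => ielf_slit W v (edge_re u).ge)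
  · unfold le
    have := h.per u
    rw [this]

/-- the prime `2` -/
def p2 : Nat.Primes := ⟨2, Nat.prime_two⟩

/-- the prime `3` -/
def p3 : Nat.Primes := ⟨3, Nat.prime_three⟩

lemma p2_ne_p3 : p2 ≠ p3 := by
  intro h
  have h1 : ((p2 : Nat.Primes) : ℕ) = ((p3 : Nat.Primes) : ℕ) := by rw [h]
  have h2 : ((p2 : Nat.Primes) : ℕ) = 2 := rfl
  have h3 : ((p3 : Nat.Primes) : ℕ) = 3 := rfl
  omega

/-- the primes `2` and `3` -/
def F23 : Finset Nat.Primes := {p2, p3}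

open Classical in
/-- the contribution of the primes above `6` -/
noncomputable def g6 (p : Nat.Primes) (u : ℝ) : ℂ :=
  if p ∈ F23 then ∑ v ∈ Sp p, le W v u else 0

lemma per_g6 (p : Nat.Primes) : Per p (g6 W p) := by
  classical
  by_cases h : p ∈ F23
  · have h1 : g6 W p = fun u => ∑ v ∈ Sp p, le W v u := by
      funext u
      unfold g6
      rw [if_pos h]
    rw [h1]
    have h2 : ∀ v ∈ (Sp p : Finset (HeightOneSpectrum (𝓞 K))), Per p (le W v) := by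
      intro v hv
      have h3 := per_le W v
      rwa [(mem_Sp p v).1 hv] at h3
    refine ⟨continuous_finsetSum _ fun v hv => (h2 v hv).cont, fun u => ?_⟩
    exact Finset.sum_congr rfl fun v hv => (h2 v hv).per u
  · have h1 : g6 W p = fun _ => 0 := by
      funext u
      unfold g6
      rw [if_neg h]
    rw [h1]
    exact ⟨continuous_const, fun u => rfl⟩

lemma g6_zero (p : Nat.Primes) (hp : p ∉ F23) : g6 W p = 0 := by
  funext u
  unfold g6
  rw [if_neg hp]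
  rfl

lemma mem_S6_iff (v : HeightOneSpectrum (𝓞 K)) : v ∈ (S6 : Finset (HeightOneSpectrum (𝓞 K))) ↔
    v ∈ (Sp p2 : Finset (HeightOneSpectrum (𝓞 K))) ∨
      v ∈ (Sp p3 : Finset (HeightOneSpectrum (𝓞 K))) := by
  classical
  unfold S6
  exact Finset.mem_union

lemma disj_S6 : Disjoint (Sp p2 : Finset (HeightOneSpectrum (𝓞 K))) (Sp p3) := by
  rw [Finset.disjoint_left]
  intro v h1 h2
  rw [mem_Sp] at h1 h2
  exact p2_ne_p3 (h1.symm.trans h2)

lemma prod_S6 (f : HeightOneSpectrum (𝓞 K) → ℂ) :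
    ∏ v ∈ (S6 : Finset (HeightOneSpectrum (𝓞 K))), f v =
      (∏ v ∈ Sp p2, f v) * ∏ v ∈ Sp p3, f v := by
  classical
  rw [← Finset.prod_union disj_S6]
  refine Finset.prod_congr ?_ fun _ _ => rfl
  ext v
  rw [mem_S6_iff, Finset.mem_union]

lemma exp_g6 (u : ℝ) : Complex.exp (∑ p ∈ F23, g6 W p u) =
    ∏ v ∈ (S6 : Finset (HeightOneSpectrum (𝓞 K))), elf W v (3 / 2 + u * I) := by
  classical
  have h2 : p2 ∈ F23 := Finset.mem_insert_self _ _
  have h3 : p3 ∈ F23 := Finset.mem_insert_of_mem (Finset.mem_singleton_self _)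
  have e1 : ∑ p ∈ F23, g6 W p u = (∑ v ∈ Sp p2, le W v u) + ∑ v ∈ Sp p3, le W v u := by
    have e2 : g6 W p2 u = ∑ v ∈ Sp p2, le W v u := by
      unfold g6
      rw [if_pos h2]
    have e3 : g6 W p3 u = ∑ v ∈ Sp p3, le W v u := by
      unfold g6
      rw [if_pos h3]
    rw [← e2, ← e3]
    exact Finset.sum_pair p2_ne_p3
  rw [e1, prod_S6, Complex.exp_add, Complex.exp_sum, Complex.exp_sum]
  congr 1
  · exact Finset.prod_congr rfl fun v _ => exp_le W v u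
  · exact Finset.prod_congr rfl fun v _ => exp_le W v u

/-- the normalised roots -/
noncomputable def beta : HeightOneSpectrum (𝓞 K) → Fin 2 → ℂ := by
  classical exact fun v j => if v ∈ (S6 : Finset (HeightOneSpectrum (𝓞 K))) then 0 else
    (exists_beta W).choose v j

lemma norm_beta (v : HeightOneSpectrum (𝓞 K)) (j : Fin 2) : ‖beta W v j‖ ≤ 1 := by
  unfold beta
  split_ifs
  · simp
  · exact (exists_beta W).choose_spec.1 v j

lemma beta_S6 {v : HeightOneSpectrum (𝓞 K)} (hv : v ∈ (S6 : Finset (HeightOneSpectrum (𝓞 K))))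
    (j : Fin 2) : beta W v j = 0 := by
  unfold beta
  rw [if_pos hv]

lemma beta_elf {v : HeightOneSpectrum (𝓞 K)} (hv : v ∉ (S6 : Finset (HeightOneSpectrum (𝓞 K))))
    (s : ℂ) : elf W v s = ∏ j, (1 - beta W v j * ((nm v : ℕ) : ℂ) ^ (-(s - 1 / 2)))⁻¹ := by
  have h := (exists_beta W).choose_spec.2 v hv s
  rw [h]
  refine Finset.prod_congr rfl fun j _ => ?_
  unfold beta
  rw [if_neg hv]

/-- the coefficients -/
noncomputable abbrev eb : PP → ℂ := bb (beta W)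

/-- the bound -/
noncomputable abbrev eM (K : Type) [Field K] [NumberField K] : ℝ := (Module.finrank ℚ K : ℝ) * 2

lemma norm_eb (x : PP) : ‖eb W x‖ ≤ eM K / (x.2 + 1 : ℕ) := by
  simpa using norm_bb (norm_beta W) x

/-- the trace and the coefficients -/
lemma sum_beta {v : HeightOneSpectrum (𝓞 K)} (hv : v ∉ (S6 : Finset (HeightOneSpectrum (𝓞 K)))) :
    ∑ j, beta W v j = ((trv W v / Real.sqrt (nm v) : ℝ) : ℂ) := by
  classical
  have hq := two_le_nm v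
  have hq0 : 0 < nm v := by omega
  have hqR : (0 : ℝ) < nm v := by exact_mod_cast hq0
  have hsq : 0 < Real.sqrt (nm v) := Real.sqrt_pos.2 hqR
  have hlog : 0 < Real.log (nm v) := Real.log_pos (by exact_mod_cast (by omega : 1 < nm v))
  have hne : ((nm v : ℕ) : ℂ) ≠ 0 := by exact_mod_cast hq0.ne'
  set e : ℂ := if (W v).Δ ∈ v.asIdeal then (0 : ℂ) else (nm v : ℂ) with he
  have key : ∀ s : ℂ, 1 - (trv W v : ℂ) * (nm v : ℂ) ^ (-s) + e * ((nm v : ℂ) ^ (-s)) ^ 2 =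
      (1 - beta W v 0 * ((Real.sqrt (nm v) : ℝ) : ℂ) * (nm v : ℂ) ^ (-s)) *
        (1 - beta W v 1 * ((Real.sqrt (nm v) : ℝ) : ℂ) * (nm v : ℂ) ^ (-s)) := by
    intro s
    have h1 := beta_elf W hv s
    rw [Fin.prod_univ_two, ← mul_inv, elf_eq_inv, inv_inj, cpow_half _ hq0] at h1
    unfold ielf at h1
    rw [cpow_two _ hq0.ne'] at h1
    rw [h1]
    ring
  have h0 := key 0
  have h1 := key (Real.pi * I / Real.log (nm v))
  have e0 : (nm v : ℂ) ^ (-(0 : ℂ)) = 1 := by simp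
  have e1 : (nm v : ℂ) ^ (-((Real.pi : ℂ) * I / Real.log (nm v))) = -1 := by
    rw [cpow_def_of_ne_zero hne]
    have h2 : Complex.log ((nm v : ℕ) : ℂ) = ((Real.log (nm v) : ℝ) : ℂ) := by
      rw [Complex.ofReal_log hqR.le]
      simp
    have h3 : ((Real.log (nm v) : ℝ) : ℂ) ≠ 0 := by exact_mod_cast hlog.ne'
    rw [h2]
    have h4 : ((Real.log (nm v) : ℝ) : ℂ) * -((Real.pi : ℂ) * I / ((Real.log (nm v) : ℝ) : ℂ)) =
        -(Real.pi * I) := by
      field_simp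
    rw [h4, Complex.exp_neg, Complex.exp_pi_mul_I]
    norm_num
  rw [e0] at h0
  rw [e1] at h1
  have hsC : ((Real.sqrt (nm v) : ℝ) : ℂ) ≠ 0 := by exact_mod_cast hsq.ne'
  rw [Fin.sum_univ_two]
  push_cast
  rw [eq_div_iff hsC]
  linear_combination (1 / 2 : ℂ) * h0 - (1 / 2 : ℂ) * h1

end

end Pool.Agent.E8helper69.AP
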