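import Pool.Agent.E8helper69.AQ.R

/-!
# Joint density of the boundary values
-/

set_option autoImplicit false

namespace Pool.Agent.E8helper69.AP

open Complex MeasureTheory Finset Filter Topology Set NumberField IsDedekindDomain
open scoped ComplexConjugate ENNReal
open Pool.Agent.TH339.MP
open Pool.Agent.W350.Edge (ps divSet dimH_divSet)
open Pool.Agent.E8helper69.AQ (trace eulerFactor hasseWeil partialProduct edgeValue primeTrace)

section
variable {r : ℕ} {K : Fin r → Type} [∀ k, Field (K k)] [∀ k, NumberField (K k)]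
  (V : ∀ k, HeightOneSpectrum (𝓞 (K k)) → WeierstrassCurve (𝓞 (K k)))

/-- the first coefficients -/
noncomputable def cc1 (k : Fin r) (p : Nat.Primes) : ℂ := eb (V k) (p, 0) / ((p : ℕ) : ℂ)

/-- the bounds -/
noncomputable def mM (K : Fin r → Type) [∀ k, Field (K k)] [∀ k, NumberField (K k)] : ℝ :=
  ∑ k, (2 * eM (K k) + 1)

lemma le_mM (k : Fin r) : 2 * eM (K k) + 1 ≤ mM K := by
  unfold mM
  refine Finset.single_le_sum (f := fun k => 2 * eM (K k) + 1) (fun k _ => ?_) (Finset.mem_univ k)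
  have : 0 ≤ eM (K k) := by
    unfold eM
    positivity
  linarith

lemma mM_nonneg : 0 ≤ mM K := Finset.sum_nonneg fun k _ => by
  have : 0 ≤ eM (K k) := by
    unfold eM
    positivity
  linarith

lemma norm_cc1 (k : Fin r) (p : Nat.Primes) : ‖cc1 V k p‖ ≤ mM K / (p : ℕ) :=
  (norm_first_le (norm_eb (V k)) p).trans
    (div_le_div_of_nonneg_right (le_mM k) (prime_pos p).le)

lemma err_cc1 (k : Fin r) (p : Nat.Primes) (hp : p ∉ F23) (u : ℝ) :
    ‖VV (V k) p u - cc1 V k p * ee (-Real.log (p : ℕ)) u‖ ≤ (mM K / ((p : ℕ) : ℝ)) ^ 2 := by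
  have h1 := lp_err (norm_eb (V k)) p u
  have h2 : VV (V k) p u = lp (eb (V k)) p u := by
    unfold VV
    rw [g6_zero (V k) p hp]
    simp
  rw [h2]
  refine h1.trans ?_
  have h3 : 0 ≤ 2 * eM (K k) + 1 := by
    have : 0 ≤ eM (K k) := by
      unfold eM
      positivity
    linarith
  exact pow_le_pow_left₀ (div_nonneg h3 (prime_pos p).le)
    (div_le_div_of_nonneg_right (le_mM k) (prime_pos p).le) 2

/-- the terms of the series in the criterion -/
noncomputable def crit (ξ : Fin r → ℝ) (p : Nat.Primes) : ℝ :=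
  |∑ k, ξ k * ((primeTrace (V k) (p : ℕ) : ℤ) : ℝ)| / ((p : ℕ) : ℝ) ^ (3 / 2 : ℝ)

lemma crit_eq (ξ : Fin r → ℝ) {p : Nat.Primes} (hp : p ∉ F23) :
    ‖∑ k, (ξ k : ℂ) * cc1 V k p‖ = crit V ξ p := by
  have h0 : 0 < ((p : ℕ) : ℝ) ^ (3 / 2 : ℝ) := Real.rpow_pos_of_pos (prime_pos p) _
  have h1 : ∑ k, (ξ k : ℂ) * cc1 V k p =
      (((∑ k, ξ k * ((primeTrace (V k) (p : ℕ) : ℤ) : ℝ)) / ((p : ℕ) : ℝ) ^ (3 / 2 : ℝ) : ℝ) : ℂ) := by
    rw [Finset.sum_div, Complex.ofReal_sum]
    refine Finset.sum_congr rfl fun k _ => ?_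
    unfold cc1
    rw [eb_zero (V k) hp]
    push_cast
    ring
  rw [h1, Complex.norm_real, Real.norm_eq_abs, abs_div, abs_of_pos h0]
  rfl

lemma summable_crit_iff (ξ : Fin r → ℝ) :
    Summable (fun p : Nat.Primes => ‖∑ k, (ξ k : ℂ) * cc1 V k p‖) ↔ Summable (crit V ξ) := by
  refine summable_congr_cofinite ?_
  rw [Filter.EventuallyEq, Filter.eventually_cofinite]
  refine F23.finite_toSet.subset fun p hp => ?_
  by_contra hcon
  exact hp (crit_eq V ξ hcon)

lemma div_complex (h : ∀ ξ : Fin r → ℝ, ξ ≠ 0 → ¬ Summable (crit V ξ)) (ξ : Fin r → ℂ)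
    (hξ : ξ ≠ 0) : ¬ Summable fun p : Nat.Primes => ‖∑ k, ξ k * cc1 V k p‖ := by
  intro hs
  have key : ∀ (ζ : Fin r → ℝ), (∀ p ∉ F23, ‖∑ k, (ζ k : ℂ) * cc1 V k p‖ ≤
      ‖∑ k, ξ k * cc1 V k p‖) → Summable (crit V ζ) := by
    intro ζ hζ
    rw [← summable_crit_iff]
    refine Summable.of_norm_bounded_eventually hs ?_
    rw [Filter.eventually_cofinite]
    refine F23.finite_toSet.subset fun p hp => ?_
    by_contra hcon
    apply hp
    rw [norm_norm]
    exact hζ p hcon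
  have hreal : ∀ p ∉ F23, ∀ k, cc1 V k p = (((cc1 V k p).re : ℝ) : ℂ) := by
    intro p hp k
    unfold cc1
    rw [eb_zero (V k) hp, Complex.ofReal_re]
  have hre : Summable (crit V fun k => (ξ k).re) := by
    refine key _ fun p hp => ?_
    have h1 : ∑ k, (((ξ k).re : ℝ) : ℂ) * cc1 V k p = (((∑ k, ξ k * cc1 V k p).re : ℝ) : ℂ) := by
      rw [Complex.re_sum, Complex.ofReal_sum]
      refine Finset.sum_congr rfl fun k _ => ?_
      rw [hreal p hp k, Complex.re_mul_ofReal]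
      push_cast
      rfl
    rw [h1, Complex.norm_real]
    exact Complex.abs_re_le_norm _
  have him : Summable (crit V fun k => (ξ k).im) := by
    refine key _ fun p hp => ?_
    have h1 : ∑ k, (((ξ k).im : ℝ) : ℂ) * cc1 V k p = (((∑ k, ξ k * cc1 V k p).im : ℝ) : ℂ) := by
      rw [Complex.im_sum, Complex.ofReal_sum]
      refine Finset.sum_congr rfl fun k _ => ?_
      rw [hreal p hp k, Complex.im_mul_ofReal]
      push_cast
      rfl
    rw [h1, Complex.norm_real]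
    exact Complex.abs_im_le_norm _
  have h1 : (fun k => (ξ k).re) = 0 := by
    by_contra hne
    exact h _ hne hre
  have h2 : (fun k => (ξ k).im) = 0 := by
    by_contra hne
    exact h _ hne him
  apply hξ
  funext k
  exact Complex.ext (congrFun h1 k) (congrFun h2 k)

/-- the product of powers of the absolute values -/
noncomputable def pw (ξ : Fin r → ℝ) (z : Fin r → ℂ) : ℝ := ∏ k, ‖z k‖ ^ ξ k

/-- divergence implies density -/
theorem dense_of_div (h : ∀ ξ : Fin r → ℝ, ξ ≠ 0 → ¬ Summable (crit V ξ))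
    (U : Set (Fin r → ℂ)) (hU : IsOpen U) (hne : U.Nonempty) :
    Recurrent {τ | (fun k => edgeValue (V k) τ) ∈ U} := by
  have hd : Dense (Set.univ.pi fun _ : Fin r => ({0}ᶜ : Set ℂ)) :=
    dense_pi _ fun k _ => dense_compl_singleton 0
  obtain ⟨w, hwU, hw⟩ := hd.inter_open_nonempty U hU hne
  have hw0 : ∀ k, w k ≠ 0 := fun k => hw k (Set.mem_univ k)
  set z : Fin r → ℂ := fun k => Complex.log (w k) with hz
  have hcont : Continuous fun y : Fin r → ℂ => fun k => Complex.exp (y k) :=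
    continuous_pi fun k => Complex.continuous_exp.comp (continuous_apply k)
  have hopen : IsOpen ((fun y : Fin r → ℂ => fun k => Complex.exp (y k)) ⁻¹' U) :=
    hU.preimage hcont
  have hzU : z ∈ (fun y : Fin r → ℂ => fun k => Complex.exp (y k)) ⁻¹' U := by
    have : (fun k => Complex.exp (z k)) = w := by
      funext k
      exact Complex.exp_log (hw0 k)
    change (fun k => Complex.exp (z k)) ∈ U
    rw [this]
    exact hwU
  obtain ⟨ε, hε, hball⟩ := Metric.isOpen_iff.1 hopen z hzU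
  have h1 := often_near (Y := fun k => YY (V k)) (V := fun k => VV (V k))
    (fun k => isModel_YY (V k)) (norm_cc1 V) F23 (err_cc1 V) (div_complex V h) z hε
  refine h1.mono_ae ?_
  have h2 : ∀ᵐ u : ℝ, ∀ k, u ∉ divSet (ap (eb (V k))) := by
    rw [ae_all_iff]
    exact fun k => ae_notMem (norm_eb (V k))
  filter_upwards [h2] with u hu hnear
  have h3 : (fun k => edgeValue (V k) u) = fun k => Complex.exp (YY (V k) u) := by
    funext k
    exact edgeValue_eq (V k) (hu k)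
  rw [h3]
  refine hball (a := fun k => YY (V k) u) ?_
  rw [Metric.mem_ball, dist_pi_lt_iff hε]
  intro k
  rw [dist_eq_norm]
  exact hnear k

/-- density implies that no product of powers is bounded on long segments -/
theorem unbdd_of_dense (h : ∀ U : Set (Fin r → ℂ), IsOpen U → U.Nonempty →
      Recurrent {τ | (fun k => edgeValue (V k) τ) ∈ U}) (ξ : Fin r → ℝ) (hξ : ξ ≠ 0) (C : ℝ) :
    ∃ H : ℝ, ∀ T : ℝ, ¬ ∀ᵐ τ ∂(volume.restrict (Set.Icc T (T + H))),
      ∏ k, ‖edgeValue (V k) τ‖ ^ ξ k ≤ C := by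
  classical
  set U : Set (Fin r → ℂ) := {z | ∀ k, z k ≠ 0} ∩ (fun z => ∏ k, ‖z k‖ ^ ξ k) ⁻¹' Set.Ioi C with hU
  have hopen0 : IsOpen {z : Fin r → ℂ | ∀ k, z k ≠ 0} := by
    have : {z : Fin r → ℂ | ∀ k, z k ≠ 0} = ⋂ k, {z : Fin r → ℂ | z k ≠ 0} := by
      ext z
      simp
    rw [this]
    exact isOpen_iInter_of_finite fun k => (isOpen_ne).preimage (continuous_apply k)
  have hopen : IsOpen U := by
    refine ContinuousOn.isOpen_inter_preimage ?_ hopen0 isOpen_Ioi
    refine continuousOn_finsetProd _ fun k _ => ?_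
    refine ContinuousOn.rpow_const (continuous_apply k).norm.continuousOn fun z hz => Or.inl ?_
    exact norm_ne_zero_iff.2 (hz k)
  obtain ⟨k0, hk0⟩ := Function.ne_iff.1 hξ
  have hk0' : ξ k0 ≠ 0 := hk0
  have hne : U.Nonempty := by
    set t : ℝ := (|C| + 1) ^ (ξ k0)⁻¹ with ht
    have ht0 : 0 < t := Real.rpow_pos_of_pos (by positivity) _
    refine ⟨fun k => if k = k0 then (t : ℂ) else 1, fun k => ?_, ?_⟩
    · simp only
      split_ifs
      · exact_mod_cast ht0.ne'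
      · exact one_ne_zero
    · change C < ∏ k, ‖(if k = k0 then (t : ℂ) else 1)‖ ^ ξ k
      rw [Finset.prod_eq_single k0]
      · rw [if_pos rfl, Complex.norm_real, Real.norm_of_nonneg ht0.le, ht,
          ← Real.rpow_mul (by positivity), inv_mul_cancel₀ hk0', Real.rpow_one]
        have := le_abs_self C
        linarith
      · intro k _ hk
        rw [if_neg hk, norm_one, Real.one_rpow]
      · intro h
        exact absurd (Finset.mem_univ k0) h
  obtain ⟨H, δ, hH, hδ, h1⟩ := h U hopen hne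
  refine ⟨H, fun T hcon => ?_⟩
  have h2 := h1 T
  have h3 : volume ({τ | (fun k => edgeValue (V k) τ) ∈ U} ∩ Set.Icc T (T + H)) = 0 := by
    rw [← Measure.restrict_apply' measurableSet_Icc]
    refine measure_mono_null ?_ (ae_iff.1 hcon)
    intro τ hτ
    have h4 : C < ∏ k, ‖edgeValue (V k) τ‖ ^ ξ k := hτ.2
    exact not_le.2 h4
  rw [h3] at h2
  have h4 : ENNReal.ofReal δ = 0 := le_antisymm h2 zero_le
  rw [ENNReal.ofReal_eq_zero] at h4
  linarith

/-- boundedness in the half-plane passes to the edge -/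
theorem bdd_edge (ξ : Fin r → ℝ) {C : ℝ}
    (h : ∀ s : ℂ, 3 / 2 < s.re → ∏ k, ‖hasseWeil (V k) s‖ ^ ξ k ≤ C) :
    ∀ᵐ τ : ℝ, ∏ k, ‖edgeValue (V k) τ‖ ^ ξ k ≤ C := by
  have h2 : ∀ᵐ u : ℝ, ∀ k, u ∉ divSet (ap (eb (V k))) := by
    rw [ae_all_iff]
    exact fun k => ae_notMem (norm_eb (V k))
  filter_upwards [h2] with τ hτ
  have h3 : Tendsto (fun ε : ℝ => ∏ k, ‖hasseWeil (V k) (3 / 2 + τ * I + ε)‖ ^ ξ k) (𝓝[>] 0)
      (𝓝 (∏ k, ‖edgeValue (V k) τ‖ ^ ξ k)) := by
    refine tendsto_finsetProd _ fun k _ => ?_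
    rw [edgeValue_eq (V k) (hτ k)]
    exact (radial (V k) (hτ k)).norm.rpow_const (Or.inl (norm_ne_zero_iff.2 (Complex.exp_ne_zero _)))
  refine le_of_tendsto h3 ?_
  filter_upwards [self_mem_nhdsWithin] with ε hε
  have hε' : (0 : ℝ) < ε := hε
  refine h _ ?_
  simp
  exact hε'

/-- the bound for the product from the convergence of the series -/
theorem bdd_of_summable (ξ : Fin r → ℝ) (hs : Summable (crit V ξ)) :
    ∃ C : ℝ, ∀ s : ℂ, 3 / 2 < s.re → ∏ k, ‖hasseWeil (V k) s‖ ^ ξ k ≤ C := by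
  set c : Fin r → ℂ := fun k => (ξ k : ℂ) with hc
  have hb : ∀ k x, ‖eb (V k) x‖ ≤ (fun k => eM (K k)) k / (x.2 + 1 : ℕ) := fun k x =>
    norm_eb (V k) x
  set B : PP → ℂ := fun x => ∑ k, c k * eb (V k) x with hB
  set M : ℝ := ∑ k, ‖c k‖ * eM (K k) with hM
  have hBb : ∀ x, ‖B x‖ ≤ M / (x.2 + 1 : ℕ) := norm_lin hb c
  have hs1 : Summable fun p : Nat.Primes => ‖B (p, 0)‖ / ((p : ℕ) : ℝ) := by
    refine ((summable_crit_iff V ξ).2 hs).congr fun p => ?_
    have h1 : ∑ k, (ξ k : ℂ) * cc1 V k p = B (p, 0) / ((p : ℕ) : ℂ) := by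
      rw [hB]
      simp only
      rw [Finset.sum_div]
      refine Finset.sum_congr rfl fun k _ => ?_
      unfold cc1
      rw [mul_div_assoc]
    rw [h1, norm_div, Complex.norm_natCast]
  set C1 : ℝ := (∑' p : Nat.Primes, ‖B (p, 0)‖ / ((p : ℕ) : ℝ)) + ∑' x : PP, M * wt 1 (sh x) with hC1
  have hFF : ∀ s : ℂ, 1 < s.re → ‖FF B s‖ ≤ C1 := by
    intro s hs2
    rw [FF_split hBb hs2]
    refine (norm_add_le _ _).trans (add_le_add ?_ ?_)
    · refine tsum_of_norm_bounded hs1.hasSum fun p => ?_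
      rw [norm_tm]
      have h1 : wt s.re (p, 0) ≤ 1 / ((p : ℕ) : ℝ) := by
        refine (wt_anti hs2.le _).trans (le_of_eq ?_)
        rw [wt_one]
        unfold qq
        simp
      calc ‖B (p, 0)‖ * wt s.re (p, 0) ≤ ‖B (p, 0)‖ * (1 / ((p : ℕ) : ℝ)) :=
            mul_le_mul_of_nonneg_left h1 (norm_nonneg _)
        _ = _ := by ring
    · exact tsum_of_norm_bounded (wt_sh_summable.mul_left M).hasSum fun x =>
        norm_tm_sh hBb hs2.le x
  refine ⟨Real.exp C1 * ∏ k, ((24 : ℝ) ^ (S6 : Finset (HeightOneSpectrum (𝓞 (K k)))).card) ^ |ξ k|,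
    fun s hs3 => ?_⟩
  have hs4 : 1 < (s - 1 / 2).re := by
    have : (s - 1 / 2).re = s.re - 1 / 2 := by simp
    rw [this]
    linarith
  have h1 : ∀ k, ‖hasseWeil (V k) s‖ ^ ξ k =
      Real.exp (ξ k * (FF (eb (V k)) (s - 1 / 2)).re) * ‖E6 (V k) s‖ ^ ξ k := by
    intro k
    rw [hasseWeil_eq (V k) hs3, norm_mul, Real.mul_rpow (norm_nonneg _) (norm_nonneg _),
      Complex.norm_exp, ← Real.exp_mul, mul_comm (ξ k)]
  simp_rw [h1]
  rw [Finset.prod_mul_distrib, ← Real.exp_sum]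
  have h2 : ∑ k, ξ k * (FF (eb (V k)) (s - 1 / 2)).re = (FF B (s - 1 / 2)).re := by
    have h3 := FF_lin (b := fun k => eb (V k)) hb c hs4
    change _ = (FF (fun x => ∑ k, c k * eb (V k) x) (s - 1 / 2)).re
    rw [h3, Complex.re_sum]
    refine Finset.sum_congr rfl fun k _ => ?_
    rw [hc]
    simp only
    rw [Complex.re_ofReal_mul]
  rw [h2]
  refine mul_le_mul ?_ ?_ (Finset.prod_nonneg fun k _ => Real.rpow_nonneg (norm_nonneg _) _)
    (Real.exp_pos _).le
  · exact Real.exp_le_exp.2 ((Complex.re_le_norm _).trans (hFF _ hs4))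
  · refine Finset.prod_le_prod (fun k _ => Real.rpow_nonneg (norm_nonneg _) _) fun k _ => ?_
    obtain ⟨h4, h5⟩ := norm_E6 (V k) hs3
    rcases le_total 0 (ξ k) with h | h
    · rw [abs_of_nonneg h]
      exact Real.rpow_le_rpow (norm_nonneg _) h4 h
    · rw [abs_of_nonpos h]
      have h6 : ‖E6 (V k) s‖ ^ ξ k = ‖(E6 (V k) s)⁻¹‖ ^ (-ξ k) := by
        rw [norm_inv, Real.inv_rpow (norm_nonneg _), Real.rpow_neg (norm_nonneg _), inv_inv]
      rw [h6]
      exact Real.rpow_le_rpow (norm_nonneg _) h5 (by linarith)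

/-- unboundedness on all long segments from the divergence of the series -/
theorem unbdd_of_div (ξ : Fin r → ℝ) (hs : ¬ Summable (crit V ξ)) (C : ℝ) :
    ∃ H : ℝ, ∀ T : ℝ, ¬ ∀ᵐ τ ∂(volume.restrict (Set.Icc T (T + H))),
      ∏ k, ‖edgeValue (V k) τ‖ ^ ξ k ≤ C := by
  set c : Fin r → ℂ := fun k => (ξ k : ℂ) with hc
  have hb : ∀ k x, ‖eb (V k) x‖ ≤ (fun k => eM (K k)) k / (x.2 + 1 : ℕ) := fun k x =>
    norm_eb (V k) x
  set B : PP → ℂ := fun x => ∑ k, c k * eb (V k) x with hB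
  set M : ℝ := ∑ k, ‖c k‖ * eM (K k) with hM
  have hBb : ∀ x, ‖B x‖ ≤ M / (x.2 + 1 : ℕ) := norm_lin hb c
  have hs1 : ¬ Summable (sz B) := by
    intro h
    apply hs
    rw [← summable_crit_iff]
    refine h.congr fun p => ?_
    have h1 : ∑ k, (ξ k : ℂ) * cc1 V k p = B (p, 0) / ((p : ℕ) : ℂ) := by
      rw [hB]
      simp only
      rw [Finset.sum_div]
      refine Finset.sum_congr rfl fun k _ => ?_
      unfold cc1
      rw [mul_div_assoc]
    rw [h1, norm_div, Complex.norm_natCast]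
    rfl
  choose! G hG using fun (k : Fin r) (p : Nat.Primes) => (per_g6 (V k) p).bdd
  set G1 : ℝ := ∑ k, |ξ k| * ∑ p ∈ F23, G k p with hG1
  obtain ⟨H, δ, hH, hδ, h1⟩ := (dichotomy hBb).2 hs1 (Real.log (|C| + 1) + G1)
  refine ⟨H, fun T hcon => ?_⟩
  have h2 := h1 T
  have hae := bl_lin (b := fun k => eb (V k)) hb c
  have h3 : volume ({u | Real.log (|C| + 1) + G1 < (bl B u).re} ∩ Set.Icc T (T + H)) = 0 := by
    rw [← Measure.restrict_apply' measurableSet_Icc]
    have h4 : ∀ᵐ u ∂(volume.restrict (Set.Icc T (T + H))),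
        ¬ (Real.log (|C| + 1) + G1 < (bl B u).re) := by
      filter_upwards [hcon, ae_restrict_of_ae hae] with u h5 h6 h7
      obtain ⟨h8, h9⟩ := h6
      have h10 : ∏ k, ‖edgeValue (V k) u‖ ^ ξ k =
          Real.exp ((bl B u).re + ∑ k, ξ k * (∑ p ∈ F23, g6 (V k) p u).re) := by
        have h11 : (bl B u).re = ∑ k, ξ k * (bl (eb (V k)) u).re := by
          change (bl (fun x => ∑ k, c k * eb (V k) x) u).re = _
          rw [h9, Complex.re_sum]
          refine Finset.sum_congr rfl fun k _ => ?_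
          rw [hc]
          simp only
          rw [Complex.re_ofReal_mul]
        rw [h11, ← Finset.sum_add_distrib, Real.exp_sum]
        refine Finset.prod_congr rfl fun k _ => ?_
        rw [edgeValue_eq (V k) (h8 k), Complex.norm_exp, ← Real.exp_mul]
        congr 1
        unfold YY
        rw [Complex.add_re]
        ring
      have h12 : |∑ k, ξ k * (∑ p ∈ F23, g6 (V k) p u).re| ≤ G1 := by
        refine (Finset.abs_sum_le_sum_abs _ _).trans (Finset.sum_le_sum fun k _ => ?_)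
        rw [abs_mul]
        refine mul_le_mul_of_nonneg_left ?_ (abs_nonneg _)
        exact (Complex.abs_re_le_norm _).trans (norm_sum_le_of_le _ fun p _ => hG k p u)
      have h13 := (abs_le.1 h12).1
      have h14 : |C| + 1 < ∏ k, ‖edgeValue (V k) u‖ ^ ξ k := by
        rw [h10]
        calc |C| + 1 = Real.exp (Real.log (|C| + 1)) := (Real.exp_log (by positivity)).symm
          _ < _ := Real.exp_lt_exp.2 (by linarith)
      have := le_abs_self C
      linarith
    have h5 := ae_iff.1 h4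
    refine measure_mono_null (fun u hu => ?_) h5
    exact not_not.2 hu
  rw [h3] at h2
  have h4 : ENNReal.ofReal δ = 0 := le_antisymm h2 zero_le
  rw [ENNReal.ofReal_eq_zero] at h4
  linarith

/-- **The criterion for one product.** -/
theorem product_criterion (ξ : Fin r → ℝ) : List.TFAE [
    Summable fun p : Nat.Primes =>
      |∑ k, ξ k * ((primeTrace (V k) (p : ℕ) : ℤ) : ℝ)| / ((p : ℕ) : ℝ) ^ (3 / 2 : ℝ),
    ∃ C : ℝ, ∀ s : ℂ, 3 / 2 < s.re → ∏ k, ‖hasseWeil (V k) s‖ ^ ξ k ≤ C,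
    ∃ C : ℝ, ∀ H : ℝ, ∃ T : ℝ, ∀ᵐ τ ∂(volume.restrict (Set.Icc T (T + H))),
      ∏ k, ‖edgeValue (V k) τ‖ ^ ξ k ≤ C] := by
  tfae_have 1 → 2 := fun h => bdd_of_summable V ξ h
  tfae_have 2 → 3 := by
    rintro ⟨C, hC⟩
    exact ⟨C, fun H => ⟨0, ae_restrict_of_ae (bdd_edge V ξ hC)⟩⟩
  tfae_have 3 → 1 := by
    rintro ⟨C, hC⟩
    by_contra hs
    obtain ⟨H, hH⟩ := unbdd_of_div V ξ hs C
    obtain ⟨T, hT⟩ := hC H
    exact hH T hT
  tfae_finish

/-- **The criterion for joint density.** -/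
theorem joint_criterion : (∀ U : Set (Fin r → ℂ), IsOpen U → U.Nonempty →
      Recurrent {τ | (fun k => edgeValue (V k) τ) ∈ U}) ↔
    ∀ ξ : Fin r → ℝ, ξ ≠ 0 → ¬ Summable fun p : Nat.Primes =>
      |∑ k, ξ k * ((primeTrace (V k) (p : ℕ) : ℤ) : ℝ)| / ((p : ℕ) : ℝ) ^ (3 / 2 : ℝ) := by
  constructor
  · intro h ξ hξ hs
    obtain ⟨C, hC⟩ := bdd_of_summable V ξ hs
    obtain ⟨H, hH⟩ := unbdd_of_dense V h ξ hξ C
    exact hH 0 (ae_restrict_of_ae (bdd_edge V ξ hC))
  · exact fun h U hU hne => dense_of_div V h U hU hne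

end

end Pool.Agent.E8helper69.AP
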