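import Pool.Agent.E8helper69.AQ.L
import Mathlib.MeasureTheory.Measure.LevyConvergence
import Mathlib.MeasureTheory.Measure.Prokhorov
import Mathlib.MeasureTheory.Integral.Pi
import Mathlib.Probability.ConditionalProbability

/-!
# Limit laws
-/

set_option autoImplicit false

namespace Pool.Agent.E8helper69.AP

open Complex MeasureTheory Finset Filter Topology Set
open scoped ComplexConjugate ENNReal
open Pool.Agent.TH339.MP

/-- means of limits in the mean -/
theorem Mean.limit {f : ℝ → ℂ} (hf : ∀ a c : ℝ, IntervalIntegrable f volume a c)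
    {g : ℕ → ℝ → ℂ} {B : ℕ → ℂ} (hg : ∀ X, Mean (g X) (B X))
    (h : ∀ η : ℝ, 0 < η → ∀ᶠ X : ℕ in atTop, ∀ t : ℝ, ∫ u in t..(t + 1), ‖f u - g X u‖ ≤ η) :
    ∃ A, Mean f A ∧ Tendsto B atTop (𝓝 A) := by
  have key : ∀ η : ℝ, 0 < η → ∀ X X' : ℕ,
      (∀ t : ℝ, ∫ u in t..(t + 1), ‖f u - g X u‖ ≤ η) →
      (∀ t : ℝ, ∫ u in t..(t + 1), ‖f u - g X' u‖ ≤ η) → ‖B X - B X'‖ ≤ 6 * η := by
    intro η hη X X' h1 h2
    obtain ⟨H1, a1, a1'⟩ := (hg X).2 η hη
    obtain ⟨H2, a2, a2'⟩ := (hg X').2 η hη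
    set H : ℝ := max 1 (max H1 H2) with hH
    have hH1 : 1 ≤ H := le_max_left _ _
    have e1 := a1' H ((le_max_left _ _).trans (le_max_right _ _)) 0
    have e2 := a2' H ((le_max_right _ _).trans (le_max_right _ _)) 0
    have i1 := (hg X).1 0 (0 + H)
    have i2 := (hg X').1 0 (0 + H)
    have i0 := hf 0 (0 + H)
    have e3 : ‖∫ u in (0:ℝ)..(0 + H), (f u - g X u)‖ ≤ η * (H + 1) :=
      (intervalIntegral.norm_integral_le_integral_norm (by linarith)).trans
        (window (fun a c => ((hf a c).sub ((hg X).1 a c)).norm) (fun u => norm_nonneg _) h1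
          (by linarith) 0)
    have e4 : ‖∫ u in (0:ℝ)..(0 + H), (f u - g X' u)‖ ≤ η * (H + 1) :=
      (intervalIntegral.norm_integral_le_integral_norm (by linarith)).trans
        (window (fun a c => ((hf a c).sub ((hg X').1 a c)).norm) (fun u => norm_nonneg _) h2
          (by linarith) 0)
    rw [intervalIntegral.integral_sub i0 i1] at e3
    rw [intervalIntegral.integral_sub i0 i2] at e4
    set P := ∫ u in (0:ℝ)..(0 + H), f u
    set Q := ∫ u in (0:ℝ)..(0 + H), g X u
    set R := ∫ u in (0:ℝ)..(0 + H), g X' u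
    have e5 : (H : ℂ) * (B X - B X') = -(Q - H * B X) + (R - H * B X') + (-(P - Q) + (P - R)) := by
      ring
    have e6 : ‖(H : ℂ) * (B X - B X')‖ ≤ η * H + η * H + (η * (H + 1) + η * (H + 1)) := by
      rw [e5]
      refine (norm_add_le _ _).trans (add_le_add ((norm_add_le _ _).trans ?_)
        ((norm_add_le _ _).trans ?_))
      · rw [norm_neg]
        exact add_le_add e1 e2
      · rw [norm_neg]
        exact add_le_add e3 e4
    rw [norm_mul, Complex.norm_real, Real.norm_of_nonneg (by linarith)] at e6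
    have e7 : η * H + η * H + (η * (H + 1) + η * (H + 1)) ≤ H * (6 * η) := by nlinarith
    exact le_of_mul_le_mul_left (e6.trans e7) (by linarith)
  have hcauchy : CauchySeq B := by
    rw [Metric.cauchySeq_iff']
    intro ε hε
    obtain ⟨N, hN⟩ := eventually_atTop.1 (h (ε / 12) (by positivity))
    refine ⟨N, fun n hn => ?_⟩
    rw [dist_eq_norm]
    have := key (ε / 12) (by positivity) n N (hN n hn) (hN N le_rfl)
    linarith
  obtain ⟨A, hA⟩ := cauchySeq_tendsto_of_complete hcauchy
  refine ⟨A, Mean.of_approx hf fun η hη => ?_, hA⟩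
  have h1 : ∀ᶠ X in atTop, ‖B X - A‖ ≤ η := by
    have h2 := (tendsto_iff_norm_sub_tendsto_zero.1 hA).eventually (gt_mem_nhds hη)
    exact h2.mono fun X hX => hX.le
  obtain ⟨X, h2, h3⟩ := (h1.and (h η hη)).exists
  exact ⟨g X, B X, hg X, h2, h3⟩

section law
variable {E : Type*} [NormedAddCommGroup E] [InnerProductSpace ℝ E] [FiniteDimensional ℝ E]
  [MeasurableSpace E] [BorelSpace E]

/-- Lévy's theorem with existence of the limit -/
theorem exists_limit_law {μ : ℕ → ProbabilityMeasure E} {f : E → ℂ} (hf : ContinuousAt f 0)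
    (h : ∀ t, Tendsto (fun n => charFun (μ n : Measure E) t) atTop (𝓝 (f t))) :
    ∃ μ₀ : ProbabilityMeasure E, (∀ t, charFun (μ₀ : Measure E) t = f t) ∧
      Tendsto μ atTop (𝓝 μ₀) := by
  have h_tight : IsTightMeasureSet (Set.range fun n => (μ n : Measure E)) :=
    isTightMeasureSet_of_tendsto_charFun hf h
  have hset : {((ν : ProbabilityMeasure E) : Measure E) | ν ∈ Set.range μ} =
      Set.range fun n => (μ n : Measure E) := by
    ext ν
    constructor
    · rintro ⟨ν', ⟨n, rfl⟩, rfl⟩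
      exact ⟨n, rfl⟩
    · rintro ⟨n, rfl⟩
      exact ⟨μ n, ⟨n, rfl⟩, rfl⟩
  have h_compact : IsCompact (closure (Set.range μ)) := by
    refine isCompact_closure_of_isTightMeasureSet ?_
    rw [hset]
    exact h_tight
  obtain ⟨μ', -, hμ'⟩ := h_compact.ultrafilter_le_nhds ((hyperfilter ℕ).map μ) (by
    rw [Filter.le_principal_iff, Ultrafilter.mem_coe, Ultrafilter.mem_map]
    exact Filter.univ_mem' fun n => subset_closure ⟨n, rfl⟩)
  have hμ'' : Tendsto μ (hyperfilter ℕ : Filter ℕ) (𝓝 μ') := hμ'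
  have hle : (hyperfilter ℕ : Filter ℕ) ≤ atTop := Nat.hyperfilter_le_atTop
  have hchar : ∀ t, charFun (μ' : Measure E) t = f t := by
    intro t
    have h1 : Tendsto (fun n => charFun (μ n : Measure E) t) (hyperfilter ℕ : Filter ℕ)
        (𝓝 (charFun (μ' : Measure E) t)) := by
      have h2 := (ProbabilityMeasure.tendsto_iff_forall_integral_rclike_tendsto ℂ).1 hμ''
      simp_rw [charFun_eq_integral_innerProbChar]
      exact h2 (BoundedContinuousFunction.innerProbChar t)
    exact tendsto_nhds_unique h1 ((h t).mono_left hle)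
  refine ⟨μ', hchar, ?_⟩
  refine ProbabilityMeasure.tendsto_iff_tendsto_charFun.2 fun t => ?_
  rw [hchar t]
  exact h t

end law

end Pool.Agent.E8helper69.AP
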