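import Pool.Agent.E8helper69.AQ.T

/-!
# The joint limit law of a family of models
-/

set_option autoImplicit false

namespace Pool.Agent.E8helper69.AP

open Complex MeasureTheory Finset Filter Topology Set
open scoped ComplexConjugate ENNReal RealInnerProductSpace
open Pool.Agent.TH339.MP
open Pool.Agent.E8helper17.MC (norm_le_add)

section
variable {ι : Type} [Fintype ι]

/-- real coordinates -/
noncomputable def embL : (ι → ℂ) →ₗ[ℝ] EuclideanSpace ℝ (ι ⊕ ι) where
  toFun z := WithLp.toLp 2 (Sum.elim (fun k => (z k).re) (fun k => (z k).im))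
  map_add' z w := by
    ext j
    cases j <;> simp
  map_smul' c z := by
    ext j
    cases j <;> simp

omit [Fintype ι] in
lemma embL_inl (z : ι → ℂ) (k : ι) : embL z (Sum.inl k) = (z k).re := rfl

omit [Fintype ι] in
lemma embL_inr (z : ι → ℂ) (k : ι) : embL z (Sum.inr k) = (z k).im := rfl

/-- back to complex coordinates -/
noncomputable def unemb (y : EuclideanSpace ℝ (ι ⊕ ι)) (k : ι) : ℂ :=
  (y (Sum.inl k) : ℂ) + (y (Sum.inr k) : ℂ) * I

lemma unemb_embL (z : ι → ℂ) : unemb (embL z) = z := by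
  funext k
  unfold unemb
  rw [embL_inl, embL_inr]
  exact Complex.re_add_im _

omit [Fintype ι] in
lemma continuous_unemb : Continuous (unemb : EuclideanSpace ℝ (ι ⊕ ι) → (ι → ℂ)) := by
  unfold unemb
  fun_prop

lemma continuous_embL : Continuous (embL : (ι → ℂ) → EuclideanSpace ℝ (ι ⊕ ι)) :=
  LinearMap.continuous_of_finiteDimensional _

lemma norm_embL_le (z : ι → ℂ) : ‖embL z‖ ≤ ∑ k, ‖z k‖ := by
  rw [EuclideanSpace.norm_eq]
  refine Real.sqrt_le_iff.2 ⟨Finset.sum_nonneg fun k _ => norm_nonneg _, ?_⟩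
  rw [Fintype.sum_sum_type]
  have h1 : (∑ k, ‖embL z (Sum.inl k)‖ ^ 2) + ∑ k, ‖embL z (Sum.inr k)‖ ^ 2 = ∑ k, ‖z k‖ ^ 2 := by
    rw [← Finset.sum_add_distrib]
    refine Finset.sum_congr rfl fun k _ => ?_
    rw [embL_inl, embL_inr, Real.norm_eq_abs, Real.norm_eq_abs, sq_abs, sq_abs,
      ← Complex.normSq_eq_norm_sq, Complex.normSq_apply]
    ring
  rw [h1]
  exact Finset.sum_sq_le_sq_sum_of_nonneg fun k _ => norm_nonneg _

/-- the characters -/
noncomputable def et (t : EuclideanSpace ℝ (ι ⊕ ι)) (z : ι → ℂ) : ℂ :=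
  Complex.exp ((⟪embL z, t⟫ : ℝ) * I)

lemma norm_et (t : EuclideanSpace ℝ (ι ⊕ ι)) (z : ι → ℂ) : ‖et t z‖ = 1 :=
  Complex.norm_exp_ofReal_mul_I _

lemma et_add (t : EuclideanSpace ℝ (ι ⊕ ι)) (z w : ι → ℂ) : et t (z + w) = et t z * et t w := by
  unfold et
  rw [map_add, inner_add_left, ← Complex.exp_add]
  congr 1
  push_cast
  ring

lemma et_zero (t : EuclideanSpace ℝ (ι ⊕ ι)) : et t 0 = 1 := by
  unfold et
  rw [map_zero, inner_zero_left]
  simp

lemma et_sum {α : Type*} (t : EuclideanSpace ℝ (ι ⊕ ι)) (s : Finset α) (z : α → ι → ℂ) :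
    et t (∑ p ∈ s, z p) = ∏ p ∈ s, et t (z p) := by
  classical
  induction s using Finset.induction_on with
  | empty => simp [et_zero]
  | insert a s ha ih => rw [Finset.sum_insert ha, et_add, ih, Finset.prod_insert ha]

lemma continuous_et (t : EuclideanSpace ℝ (ι ⊕ ι)) : Continuous (et t) := by
  unfold et
  have h1 : Continuous fun z : ι → ℂ => (⟪embL z, t⟫ : ℝ) :=
    Continuous.inner continuous_embL continuous_const
  exact Complex.continuous_exp.comp ((Complex.continuous_ofReal.comp h1).mul continuous_const)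

lemma norm_et_sub_one (t : EuclideanSpace ℝ (ι ⊕ ι)) (z : ι → ℂ) :
    ‖et t z - 1‖ ≤ ‖t‖ * ∑ k, ‖z k‖ := by
  unfold et
  rw [mul_comm ((⟪embL z, t⟫ : ℝ) : ℂ) I]
  refine Real.norm_exp_I_mul_ofReal_sub_one_le.trans ?_
  refine (norm_inner_le_norm (𝕜 := ℝ) _ _).trans ?_
  rw [mul_comm]
  exact mul_le_mul_of_nonneg_left (norm_embL_le z) (norm_nonneg _)

lemma norm_et_sub (t : EuclideanSpace ℝ (ι ⊕ ι)) (z w : ι → ℂ) :
    ‖et t z - et t w‖ ≤ ‖t‖ * ∑ k, ‖z k - w k‖ := by
  have h1 : et t z - et t w = et t w * (et t (z - w) - 1) := by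
    rw [mul_sub, ← et_add, add_sub_cancel, mul_one]
  rw [h1, norm_mul, norm_et, one_mul]
  exact norm_et_sub_one t (z - w)

variable {Y : ι → ℝ → ℂ} {V : ι → Nat.Primes → ℝ → ℂ}

lemma aesm_family (hi : ∀ k (a c : ℝ), IntervalIntegrable (Y k) volume a c) (a c : ℝ) :
    AEStronglyMeasurable (fun u k => Y k u) (volume.restrict (Set.uIoc a c)) := by
  exact (aemeasurable_pi_lambda _ fun k =>
    (hi k a c).def'.aestronglyMeasurable.aemeasurable).aestronglyMeasurable

lemma int_et (hi : ∀ k (a c : ℝ), IntervalIntegrable (Y k) volume a c)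
    (t : EuclideanSpace ℝ (ι ⊕ ι)) (a c : ℝ) :
    IntervalIntegrable (fun u => et t fun k => Y k u) volume a c := by
  refine (intervalIntegrable_const (c := (1 : ℝ))).mono_fun ?_ (Eventually.of_forall fun u => ?_)
  · exact (continuous_et t).comp_aestronglyMeasurable (aesm_family hi a c)
  · beta_reduce
    rw [norm_et, norm_one]

/-- the approximation in the first mean -/
lemma close_one (hY : ∀ k, IsModel (Y k) (V k)) {η : ℝ} (hη : 0 < η) :
    ∀ᶠ X : ℕ in atTop, ∀ t : ℝ, ∫ u in t..(t + 1), ∑ k, ‖Y k u - ∑ p ∈ PX X, V k p u‖ ≤ η := by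
  set r : ℝ := (Fintype.card ι : ℝ) with hr
  have hr0 : 0 ≤ r := by positivity
  set δ : ℝ := η / (2 * (r + 1)) with hδ
  have hδ0 : 0 < δ := by positivity
  have hev : ∀ᶠ X : ℕ in atTop, ∀ k, (∀ a c : ℝ,
      IntervalIntegrable (fun u => ‖Y k u - ∑ p ∈ PX X, V k p u‖ ^ 2) volume a c) ∧ ∀ t : ℝ,
      ∫ u in t..(t + 1), ‖Y k u - ∑ p ∈ PX X, V k p u‖ ^ 2 ≤ δ ^ 2 := by
    rw [eventually_all]
    intro k
    filter_upwards [(hY k).sq, (hY k).close (δ ^ 2) (by positivity)] with Z h1 h2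
    exact ⟨h1, h2⟩
  filter_upwards [hev] with X hX t
  have hc : ∀ k, Continuous fun u => ∑ p ∈ PX X, V k p u := fun k =>
    continuous_finsetSum _ fun p _ => ((hY k).per p).cont
  have hi : ∀ k, IntervalIntegrable (fun u => ‖Y k u - ∑ p ∈ PX X, V k p u‖) volume t (t + 1) :=
    fun k => (((hY k).int _ _).sub ((hc k).intervalIntegrable _ _)).norm
  rw [intervalIntegral.integral_finsetSum fun k _ => hi k]
  have h1 : ∀ k, ∫ u in t..(t + 1), ‖Y k u - ∑ p ∈ PX X, V k p u‖ ≤ 2 * δ := by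
    intro k
    have h2 : ∫ u in t..(t + 1), ‖Y k u - ∑ p ∈ PX X, V k p u‖ ≤
        ∫ u in t..(t + 1), (δ + ‖Y k u - ∑ p ∈ PX X, V k p u‖ ^ 2 / δ) :=
      intervalIntegral.integral_mono (by linarith) (hi k)
        (intervalIntegrable_const.add (((hX k).1 _ _).div_const _)) fun u => norm_le_add hδ0 _
    refine h2.trans ?_
    rw [intervalIntegral.integral_add intervalIntegrable_const (((hX k).1 _ _).div_const _),
      intervalIntegral.integral_const, intervalIntegral.integral_div]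
    have h3 := (hX k).2 t
    have h4 : (∫ u in t..(t + 1), ‖Y k u - ∑ p ∈ PX X, V k p u‖ ^ 2) / δ ≤ δ := by
      rw [div_le_iff₀ hδ0, ← sq]
      exact h3
    rw [smul_eq_mul]
    linarith
  refine (Finset.sum_le_sum fun k _ => h1 k).trans ?_
  rw [Finset.sum_const, Finset.card_univ, nsmul_eq_mul, hδ]
  rw [mul_comm, ← mul_div_assoc, div_mul_eq_mul_div, div_le_iff₀ (by positivity)]
  nlinarith

/-- the characteristic function of the limit -/
theorem mean_et (hY : ∀ k, IsModel (Y k) (V k)) (t : EuclideanSpace ℝ (ι ⊕ ι)) :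
    ∃ A : ℂ, Mean (fun u => et t fun k => Y k u) A ∧
      Tendsto (fun X => ∏ p ∈ PX X, av p fun u => et t fun k => V k p u) atTop (𝓝 A) := by
  have hi : ∀ k (a c : ℝ), IntervalIntegrable (Y k) volume a c := fun k => (hY k).int
  refine Mean.limit (g := fun X u => ∏ p ∈ PX X, et t fun k => V k p u) (int_et hi t)
    (fun X => ?_) fun η hη => ?_
  · refine mean_prod' (PX X) (fun p u => et t fun k => V k p u) fun p _ => ⟨?_, fun u => ?_⟩
    · exact (continuous_et t).comp (continuous_pi fun k => ((hY k).per p).cont)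
    · have h1 : (fun k => V k p (u + stp p)) = fun k => V k p u := by
        funext k
        exact ((hY k).per p).per u
      change et t (fun k => V k p (u + stp p)) = et t fun k => V k p u
      rw [h1]
  · filter_upwards [close_one hY (show 0 < η / (‖t‖ + 1) by positivity)] with X hX s
    have hc : ∀ k, Continuous fun u => ∑ p ∈ PX X, V k p u := fun k =>
      continuous_finsetSum _ fun p _ => ((hY k).per p).cont
    have hpr : ∀ u, ∏ p ∈ PX X, et t (fun k => V k p u) = et t fun k => ∑ p ∈ PX X, V k p u := by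
      intro u
      rw [← et_sum]
      congr 1
      funext k
      rw [Finset.sum_apply]
    have hgc : Continuous fun u => et t fun k => ∑ p ∈ PX X, V k p u :=
      (continuous_et t).comp (continuous_pi hc)
    have i1 : IntervalIntegrable (fun u => ‖(et t fun k => Y k u) -
        et t fun k => ∑ p ∈ PX X, V k p u‖) volume s (s + 1) :=
      ((int_et hi t _ _).sub (hgc.intervalIntegrable _ _)).norm
    have i2 : IntervalIntegrable (fun u => ∑ k, ‖Y k u - ∑ p ∈ PX X, V k p u‖) volume s (s + 1) := by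
      have h3 := IntervalIntegrable.sum Finset.univ fun k _ =>
        ((hi k s (s + 1)).sub ((hc k).intervalIntegrable _ _)).norm
      simpa [Finset.sum_fn] using h3
    simp only [hpr]
    have h2 : ∫ u in s..(s + 1), ‖(et t fun k => Y k u) - et t fun k => ∑ p ∈ PX X, V k p u‖ ≤
        ∫ u in s..(s + 1), ‖t‖ * ∑ k, ‖Y k u - ∑ p ∈ PX X, V k p u‖ :=
      intervalIntegral.integral_mono (by linarith) i1 (i2.const_mul _) fun u => norm_et_sub t _ _
    refine h2.trans ?_
    rw [intervalIntegral.integral_const_mul]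
    have h3 := mul_le_mul_of_nonneg_left (hX s) (norm_nonneg t)
    refine h3.trans ?_
    rw [mul_div_assoc', div_le_iff₀ (by positivity)]
    nlinarith [norm_nonneg t]

/-- the characteristic function -/
noncomputable def PHI (hY : ∀ k, IsModel (Y k) (V k)) (t : EuclideanSpace ℝ (ι ⊕ ι)) : ℂ :=
  (mean_et hY t).choose

lemma PHI_mean (hY : ∀ k, IsModel (Y k) (V k)) (t : EuclideanSpace ℝ (ι ⊕ ι)) :
    Mean (fun u => et t fun k => Y k u) (PHI hY t) := (mean_et hY t).choose_spec.1

lemma PHI_tendsto (hY : ∀ k, IsModel (Y k) (V k)) (t : EuclideanSpace ℝ (ι ⊕ ι)) :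
    Tendsto (fun X => ∏ p ∈ PX X, av p fun u => et t fun k => V k p u) atTop (𝓝 (PHI hY t)) :=
  (mean_et hY t).choose_spec.2

/-- a uniform bound in the first mean -/
lemma bound_one (hY : ∀ k, IsModel (Y k) (V k)) :
    ∃ C : ℝ, 0 ≤ C ∧ ∀ t : ℝ, ∫ u in t..(t + 1), ∑ k, ‖Y k u‖ ≤ C := by
  obtain ⟨X, hX⟩ := (close_one hY one_pos).exists
  choose! B hB using fun (k : ι) (p : Nat.Primes) => ((hY k).per p).bdd
  have hc : ∀ k, Continuous fun u => ∑ p ∈ PX X, V k p u := fun k =>
    continuous_finsetSum _ fun p _ => ((hY k).per p).cont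
  have hi : ∀ k (a c : ℝ), IntervalIntegrable (Y k) volume a c := fun k => (hY k).int
  have hB0 : ∀ k p, 0 ≤ B k p := fun k p => (norm_nonneg _).trans (hB k p 0)
  refine ⟨1 + ∑ k, ∑ p ∈ PX X, B k p, ?_, fun t => ?_⟩
  · have : 0 ≤ ∑ k, ∑ p ∈ PX X, B k p :=
      Finset.sum_nonneg fun k _ => Finset.sum_nonneg fun p _ => hB0 k p
    linarith
  have i1 : IntervalIntegrable (fun u => ∑ k, ‖Y k u‖) volume t (t + 1) := by
    have h3 := IntervalIntegrable.sum Finset.univ fun k _ => (hi k t (t + 1)).norm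
    simpa [Finset.sum_fn] using h3
  have i2 : IntervalIntegrable (fun u => ∑ k, ‖Y k u - ∑ p ∈ PX X, V k p u‖) volume t (t + 1) := by
    have h3 := IntervalIntegrable.sum Finset.univ fun k _ =>
      ((hi k t (t + 1)).sub ((hc k).intervalIntegrable _ _)).norm
    simpa [Finset.sum_fn] using h3
  have h1 : ∫ u in t..(t + 1), ∑ k, ‖Y k u‖ ≤
      ∫ u in t..(t + 1), ((∑ k, ‖Y k u - ∑ p ∈ PX X, V k p u‖) + ∑ k, ∑ p ∈ PX X, B k p) := by
    refine intervalIntegral.integral_mono (by linarith) i1 (i2.add intervalIntegrable_const)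
      fun u => ?_
    change ∑ k, ‖Y k u‖ ≤ (∑ k, ‖Y k u - ∑ p ∈ PX X, V k p u‖) + ∑ k, ∑ p ∈ PX X, B k p
    rw [← Finset.sum_add_distrib]
    refine Finset.sum_le_sum fun k _ => ?_
    have h2 : ‖∑ p ∈ PX X, V k p u‖ ≤ ∑ p ∈ PX X, B k p := norm_sum_le_of_le _ fun p _ => hB k p u
    have h3 := norm_add_le (Y k u - ∑ p ∈ PX X, V k p u) (∑ p ∈ PX X, V k p u)
    rw [sub_add_cancel] at h3
    linarith
  refine h1.trans ?_
  rw [intervalIntegral.integral_add i2 intervalIntegrable_const, intervalIntegral.integral_const,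
    smul_eq_mul]
  have := hX t
  linarith

lemma PHI_cont (hY : ∀ k, IsModel (Y k) (V k)) : ContinuousAt (PHI hY) 0 := by
  have hi : ∀ k (a c : ℝ), IntervalIntegrable (Y k) volume a c := fun k => (hY k).int
  obtain ⟨C, hC0, hC⟩ := bound_one hY
  have key : ∀ t, ‖PHI hY t - 1‖ ≤ 2 * C * ‖t‖ := by
    intro t
    refine le_of_forall_pos_le_add fun η hη => ?_
    obtain ⟨H0, h0, h1⟩ := (PHI_mean hY t).2 η hη
    set H : ℝ := max 1 H0 with hH
    have hH1 : 1 ≤ H := le_max_left _ _
    have e1 := h1 H (le_max_right _ _) 0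
    have i1 := int_et hi t 0 (0 + H)
    have i3 : ∀ a c : ℝ, IntervalIntegrable (fun u => ∑ k, ‖Y k u‖) volume a c := by
      intro a c
      have h3 := IntervalIntegrable.sum Finset.univ fun k _ => (hi k a c).norm
      simpa [Finset.sum_fn] using h3
    have e2 : ‖∫ u in (0:ℝ)..(0 + H), ((et t fun k => Y k u) - 1)‖ ≤ ‖t‖ * (C * (H + 1)) := by
      refine (intervalIntegral.norm_integral_le_integral_norm (by linarith)).trans ?_
      have h2 : ∫ u in (0:ℝ)..(0 + H), ‖(et t fun k => Y k u) - 1‖ ≤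
          ∫ u in (0:ℝ)..(0 + H), ‖t‖ * ∑ k, ‖Y k u‖ :=
        intervalIntegral.integral_mono (by linarith) (i1.sub intervalIntegrable_const).norm
          ((i3 _ _).const_mul _) fun u => norm_et_sub_one t _
      refine h2.trans ?_
      rw [intervalIntegral.integral_const_mul]
      refine mul_le_mul_of_nonneg_left ?_ (norm_nonneg t)
      exact window i3 (fun u => Finset.sum_nonneg fun k _ => norm_nonneg _) hC (by linarith) 0
    rw [intervalIntegral.integral_sub i1 intervalIntegrable_const,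
      intervalIntegral.integral_const] at e2
    set P := ∫ u in (0:ℝ)..(0 + H), et t fun k => Y k u
    have e3 : (H : ℂ) * (PHI hY t - 1) = -(P - H * PHI hY t) + (P - (0 + H - 0 : ℝ) • (1 : ℂ)) := by
      rw [Complex.real_smul]
      push_cast
      ring
    have e4 : ‖(H : ℂ) * (PHI hY t - 1)‖ ≤ η * H + ‖t‖ * (C * (H + 1)) := by
      rw [e3]
      refine (norm_add_le _ _).trans (add_le_add ?_ e2)
      rw [norm_neg]
      exact e1
    rw [norm_mul, Complex.norm_real, Real.norm_of_nonneg (by linarith)] at e4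
    have e5 : η * H + ‖t‖ * (C * (H + 1)) ≤ H * (2 * C * ‖t‖ + η) := by
      have : ‖t‖ * C ≤ ‖t‖ * C * H := le_mul_of_one_le_right (by positivity) hH1
      nlinarith
    exact le_of_mul_le_mul_left (e4.trans e5) (by linarith)
  have h0 : PHI hY 0 = 1 := by
    have h1 := key 0
    rw [norm_zero, mul_zero] at h1
    exact sub_eq_zero.1 (norm_le_zero_iff.1 h1)
  have h1 : Tendsto (PHI hY) (𝓝 0) (𝓝 1) := by
    rw [tendsto_iff_norm_sub_tendsto_zero]
    refine squeeze_zero (fun t => norm_nonneg _) key ?_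
    have h2 : Tendsto (fun t : EuclideanSpace ℝ (ι ⊕ ι) => 2 * C * ‖t‖) (𝓝 0)
        (𝓝 (2 * C * ‖(0 : EuclideanSpace ℝ (ι ⊕ ι))‖)) := (continuous_const.mul continuous_norm).tendsto 0
    rwa [norm_zero, mul_zero] at h2
  unfold ContinuousAt
  rw [h0]
  exact h1

end

end Pool.Agent.E8helper69.AP
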