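import Pool.Agent.E8helper69.AQ.U

/-!
# The joint limit law of a family of models, II
-/

set_option autoImplicit false

namespace Pool.Agent.E8helper69.AP

open Complex MeasureTheory Finset Filter Topology Set
open scoped ComplexConjugate ENNReal RealInnerProductSpace BoundedContinuousFunction
open Pool.Agent.TH339.MP

/-- the uniform distribution on `(0, 2π / log p]` -/
noncomputable def unif (p : Nat.Primes) : Measure ℝ :=
  ProbabilityTheory.cond volume (Set.Ioc 0 (2 * Real.pi / Real.log (p : ℕ)))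

/-- the uniform distribution on a window -/
noncomputable def wind (T H : ℝ) : Measure ℝ :=
  ProbabilityTheory.cond volume (Set.Icc T (T + H))

instance (p : Nat.Primes) : IsProbabilityMeasure (unif p) := by
  have h := stp_pos p
  unfold stp at h
  refine ProbabilityTheory.cond_isProbabilityMeasure_of_finite ?_ ?_
  · rw [Real.volume_Ioc, sub_zero]
    exact (ENNReal.ofReal_pos.2 h).ne'
  · rw [Real.volume_Ioc]
    exact ENNReal.ofReal_ne_top

lemma isProb_wind (T : ℝ) {H : ℝ} (hH : 0 < H) : IsProbabilityMeasure (wind T H) := by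
  refine ProbabilityTheory.cond_isProbabilityMeasure_of_finite ?_ ?_
  · rw [Real.volume_Icc, add_sub_cancel_left]
    exact (ENNReal.ofReal_pos.2 hH).ne'
  · rw [Real.volume_Icc]
    exact ENNReal.ofReal_ne_top

lemma integral_unif {F : Type*} [NormedAddCommGroup F] [NormedSpace ℝ F] (p : Nat.Primes)
    (f : ℝ → F) : ∫ u, f u ∂(unif p) = (stp p)⁻¹ • ∫ u in (0:ℝ)..stp p, f u := by
  have h := stp_pos p
  unfold unif ProbabilityTheory.cond
  rw [integral_smul_measure, intervalIntegral.integral_of_le h.le, Real.volume_Ioc, sub_zero,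
    ENNReal.toReal_inv, ENNReal.toReal_ofReal (by unfold stp at h; exact h.le)]
  rfl

lemma integral_wind {F : Type*} [NormedAddCommGroup F] [NormedSpace ℝ F] (T : ℝ) {H : ℝ}
    (hH : 0 < H) (f : ℝ → F) : ∫ u, f u ∂(wind T H) = H⁻¹ • ∫ u in T..(T + H), f u := by
  unfold wind ProbabilityTheory.cond
  rw [integral_smul_measure, intervalIntegral.integral_of_le (by linarith), Real.volume_Icc,
    add_sub_cancel_left, ENNReal.toReal_inv, ENNReal.toReal_ofReal hH.le,
    integral_Icc_eq_integral_Ioc]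

lemma integral_unif_eq_av (p : Nat.Primes) (f : ℝ → ℂ) : ∫ u, f u ∂(unif p) = av p f := by
  rw [integral_unif, Complex.real_smul]
  unfold av
  push_cast
  rfl

section
variable {ι : Type} [Fintype ι] {Y : ι → ℝ → ℂ} {V : ι → Nat.Primes → ℝ → ℂ}

/-- the random sum -/
noncomputable def rs (V : ι → Nat.Primes → ℝ → ℂ) (X : ℕ) (θ : PX X → ℝ) : ι → ℂ :=
  ∑ p : PX X, fun k => V k p (θ p)

omit [Fintype ι] in
lemma continuous_rs (hV : ∀ k p, Per p (V k p)) (X : ℕ) : Continuous (rs V X) := by
  unfold rs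
  refine continuous_finsetSum _ fun p _ => continuous_pi fun k => ?_
  exact (hV k p).cont.comp (continuous_apply p)

/-- the law of the random sum -/
noncomputable def modelLaw (hV : ∀ k p, Per p (V k p)) (X : ℕ) :
    ProbabilityMeasure (EuclideanSpace ℝ (ι ⊕ ι)) :=
  ⟨(Measure.pi fun p : PX X => unif p).map fun θ => embL (rs V X θ),
    Measure.isProbabilityMeasure_map
      (continuous_embL.comp (continuous_rs hV X)).measurable.aemeasurable⟩

lemma charFun_modelLaw (hV : ∀ k p, Per p (V k p)) (X : ℕ) (t : EuclideanSpace ℝ (ι ⊕ ι)) :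
    charFun (modelLaw hV X : Measure (EuclideanSpace ℝ (ι ⊕ ι))) t =
      ∏ p ∈ PX X, av p fun u => et t fun k => V k p u := by
  rw [charFun_apply]
  have h1 : ∫ x, Complex.exp ((⟪x, t⟫ : ℝ) * I)
      ∂((Measure.pi fun p : PX X => unif p).map fun θ => embL (rs V X θ)) =
      ∫ θ, et t (rs V X θ) ∂(Measure.pi fun p : PX X => unif p) := by
    have hm : AEMeasurable (fun θ => embL (rs V X θ)) (Measure.pi fun p : PX X => unif p) :=
      (continuous_embL.comp (continuous_rs hV X)).measurable.aemeasurable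
    rw [integral_map hm]
    · rfl
    · have h2 : Continuous fun x : EuclideanSpace ℝ (ι ⊕ ι) => Complex.exp ((⟪x, t⟫ : ℝ) * I) := by
        have h3 : Continuous fun x : EuclideanSpace ℝ (ι ⊕ ι) => (⟪x, t⟫ : ℝ) :=
          Continuous.inner continuous_id continuous_const
        exact Complex.continuous_exp.comp ((Complex.continuous_ofReal.comp h3).mul continuous_const)
      exact h2.aestronglyMeasurable
  change ∫ x, Complex.exp ((⟪x, t⟫ : ℝ) * I)
      ∂((Measure.pi fun p : PX X => unif p).map fun θ => embL (rs V X θ)) = _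
  rw [h1]
  have h2 : ∀ θ : PX X → ℝ, et t (rs V X θ) = ∏ p : PX X, et t fun k => V k p (θ p) := by
    intro θ
    unfold rs
    rw [et_sum]
  simp_rw [h2]
  rw [integral_fintype_prod_eq_prod (fun (p : PX X) (u : ℝ) => et t fun k => V k p u)]
  rw [← Finset.prod_coe_sort (PX X) fun p => av p fun u => et t fun k => V k p u]
  refine Finset.prod_congr rfl fun p _ => ?_
  exact integral_unif_eq_av p _

/-- the law of the values on a window -/
noncomputable def windLaw (hY : ∀ k, IsModel (Y k) (V k)) (T : ℝ) {H : ℝ} (hH : 0 < H) :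
    ProbabilityMeasure (EuclideanSpace ℝ (ι ⊕ ι)) := by
  have := isProb_wind T hH
  exact ⟨(wind T H).map fun u => embL fun k => Y k u, by
    refine Measure.isProbabilityMeasure_map ?_
    have h1 : AEStronglyMeasurable (fun u k => Y k u) (volume.restrict (Set.uIcc T (T + H))) := by
      have h2 := aesm_family (fun k => (hY k).int) (T - 1) (T + H)
      refine h2.mono_measure (Measure.restrict_mono ?_ le_rfl)
      intro x hx
      rw [Set.uIcc_of_le (by linarith)] at hx
      rw [Set.uIoc_of_le (by linarith)]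
      exact ⟨by linarith [hx.1], hx.2⟩
    rw [Set.uIcc_of_le (by linarith)] at h1
    have h3 : AEMeasurable (fun u k => Y k u) (wind T H) := by
      unfold wind ProbabilityTheory.cond
      exact h1.aemeasurable.smul_measure _
    exact continuous_embL.measurable.comp_aemeasurable h3⟩

lemma aem_wind (hY : ∀ k, IsModel (Y k) (V k)) (T : ℝ) {H : ℝ} (hH : 0 < H) :
    AEMeasurable (fun u => embL fun k => Y k u) (wind T H) := by
  have h1 : AEStronglyMeasurable (fun u k => Y k u) (volume.restrict (Set.uIcc T (T + H))) := by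
    have h2 := aesm_family (fun k => (hY k).int) (T - 1) (T + H)
    refine h2.mono_measure (Measure.restrict_mono ?_ le_rfl)
    intro x hx
    rw [Set.uIcc_of_le (by linarith)] at hx
    rw [Set.uIoc_of_le (by linarith)]
    exact ⟨by linarith [hx.1], hx.2⟩
  rw [Set.uIcc_of_le (by linarith)] at h1
  have h3 : AEMeasurable (fun u k => Y k u) (wind T H) := by
    unfold wind ProbabilityTheory.cond
    exact h1.aemeasurable.smul_measure _
  exact continuous_embL.measurable.comp_aemeasurable h3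

lemma charFun_windLaw (hY : ∀ k, IsModel (Y k) (V k)) (T : ℝ) {H : ℝ} (hH : 0 < H)
    (t : EuclideanSpace ℝ (ι ⊕ ι)) :
    charFun (windLaw hY T hH : Measure (EuclideanSpace ℝ (ι ⊕ ι))) t =
      H⁻¹ • ∫ u in T..(T + H), et t fun k => Y k u := by
  rw [charFun_apply, ← integral_wind T hH]
  change ∫ x, Complex.exp ((⟪x, t⟫ : ℝ) * I) ∂((wind T H).map fun u => embL fun k => Y k u) = _
  rw [integral_map (aem_wind hY T hH)]
  · rfl
  · have h2 : Continuous fun x : EuclideanSpace ℝ (ι ⊕ ι) => Complex.exp ((⟪x, t⟫ : ℝ) * I) := by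
      have h3 : Continuous fun x : EuclideanSpace ℝ (ι ⊕ ι) => (⟪x, t⟫ : ℝ) :=
        Continuous.inner continuous_id continuous_const
      exact Complex.continuous_exp.comp ((Complex.continuous_ofReal.comp h3).mul continuous_const)
    exact h2.aestronglyMeasurable

/-- **The joint limit law.** -/
theorem limit_law (hY : ∀ k, IsModel (Y k) (V k)) :
    ∃ μ : ProbabilityMeasure (EuclideanSpace ℝ (ι ⊕ ι)),
      Tendsto (modelLaw fun k p => (hY k).per p) atTop (𝓝 μ) ∧
      ∀ φ : EuclideanSpace ℝ (ι ⊕ ι) →ᵇ ℝ, ∀ η : ℝ, 0 < η → ∃ H₀ : ℝ, 0 < H₀ ∧ ∀ H : ℝ, H₀ ≤ H →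
        ∀ T : ℝ, |H⁻¹ * (∫ u in T..(T + H), φ (embL fun k => Y k u)) -
          ∫ x, φ x ∂(μ : Measure (EuclideanSpace ℝ (ι ⊕ ι)))| ≤ η := by
  obtain ⟨μ, hμ1, hμ2⟩ := exists_limit_law (μ := modelLaw fun k p => (hY k).per p)
    (f := PHI hY) (PHI_cont hY) (fun t => by
      simp_rw [charFun_modelLaw]
      exact PHI_tendsto hY t)
  refine ⟨μ, hμ2, fun φ η hη => ?_⟩
  by_contra hcon
  push Not at hcon
  choose Hn hHn Tn hbad using fun n : ℕ => hcon (n + 1) (by positivity)
  have hpos : ∀ n, 0 < Hn n := fun n => lt_of_lt_of_le (by positivity) (hHn n)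
  have hlim : Tendsto (fun n => windLaw hY (Tn n) (hpos n)) atTop (𝓝 μ) := by
    refine ProbabilityMeasure.tendsto_iff_tendsto_charFun.2 fun t => ?_
    simp_rw [charFun_windLaw]
    rw [hμ1 t, Metric.tendsto_atTop]
    intro ε hε
    obtain ⟨H0, h0, h1⟩ := (PHI_mean hY t).2 (ε / 2) (half_pos hε)
    obtain ⟨N, hN⟩ := exists_nat_ge H0
    refine ⟨N, fun n hn => ?_⟩
    have h2 : H0 ≤ Hn n := by
      have h3 : (N : ℝ) ≤ n := by exact_mod_cast hn
      linarith [hHn n]
    have h3 := h1 (Hn n) h2 (Tn n)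
    rw [dist_eq_norm, Complex.real_smul]
    have h4 : (((Hn n)⁻¹ : ℝ) : ℂ) * (∫ u in (Tn n)..(Tn n + Hn n), et t fun k => Y k u) -
        PHI hY t = (((Hn n)⁻¹ : ℝ) : ℂ) * ((∫ u in (Tn n)..(Tn n + Hn n), et t fun k => Y k u) -
          Hn n * PHI hY t) := by
      have h5 : ((Hn n : ℝ) : ℂ) ≠ 0 := by exact_mod_cast (hpos n).ne'
      push_cast
      field_simp
    rw [h4, norm_mul, Complex.norm_real, norm_inv, Real.norm_of_nonneg (hpos n).le]
    calc (Hn n)⁻¹ * ‖(∫ u in (Tn n)..(Tn n + Hn n), et t fun k => Y k u) - Hn n * PHI hY t‖ ≤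
          (Hn n)⁻¹ * (ε / 2 * Hn n) := mul_le_mul_of_nonneg_left h3 (inv_nonneg.2 (hpos n).le)
      _ = ε / 2 := by
          have := (hpos n).ne'
          field_simp
      _ < ε := by linarith
  have h1 := (ProbabilityMeasure.tendsto_iff_forall_integral_tendsto.1 hlim) φ
  have h2 : ∀ n, ∫ x, φ x ∂(windLaw hY (Tn n) (hpos n) : Measure (EuclideanSpace ℝ (ι ⊕ ι))) =
      (Hn n)⁻¹ * ∫ u in (Tn n)..(Tn n + Hn n), φ (embL fun k => Y k u) := by
    intro n
    change ∫ x, φ x ∂((wind (Tn n) (Hn n)).map fun u => embL fun k => Y k u) = _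
    rw [integral_map (aem_wind hY (Tn n) (hpos n)) φ.continuous.aestronglyMeasurable,
      integral_wind (Tn n) (hpos n), smul_eq_mul]
  simp_rw [h2] at h1
  rw [Metric.tendsto_atTop] at h1
  obtain ⟨N, hN⟩ := h1 η hη
  have h3 := hN N le_rfl
  rw [Real.dist_eq] at h3
  linarith [hbad N]

end

end Pool.Agent.E8helper69.AP
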