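import Pool.Agent.E8helper69.AQ.X
import Pool.Agent.E8helper69.AQ.R
import Pool.Agent.E8helper69.AQ.Defs2

/-!
# The joint limit law of the boundary values
-/

set_option autoImplicit false

namespace Pool.Agent.E8helper69.AP

open Complex MeasureTheory Finset Filter Topology Set NumberField IsDedekindDomain
open scoped ComplexConjugate ENNReal RealInnerProductSpace BoundedContinuousFunction
open Pool.Agent.TH339.MP
open Pool.Agent.W350.Edge (ps divSet dimH_divSet)
open Pool.Agent.E8helper69.AQ (trace eulerFactor hasseWeil partialProduct edgeValue primeTrace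
  factorAt randomProduct uniformLaw)

section
variable {K : Type} [Field K] [NumberField K]
  (W : HeightOneSpectrum (𝓞 K) → WeierstrassCurve (𝓞 K))

omit [NumberField K] in
lemma coprime_mem {v : HeightOneSpectrum (𝓞 K)} {p q : ℕ} (hpq : Nat.Coprime p q)
    (hp : (p : 𝓞 K) ∈ v.asIdeal) (hq : (q : 𝓞 K) ∈ v.asIdeal) : False := by
  have h1 : IsCoprime (p : ℤ) (q : ℤ) := Nat.isCoprime_iff_coprime.2 hpq
  obtain ⟨a, b, hab⟩ := h1
  have h2 : ((a : ℤ) : 𝓞 K) * (p : 𝓞 K) + ((b : ℤ) : 𝓞 K) * (q : 𝓞 K) = 1 := by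
    exact_mod_cast congrArg (fun n : ℤ => (n : 𝓞 K)) hab
  have h3 : (1 : 𝓞 K) ∈ v.asIdeal := by
    rw [← h2]
    exact v.asIdeal.add_mem (v.asIdeal.mul_mem_left _ hp) (v.asIdeal.mul_mem_left _ hq)
  exact v.isPrime.ne_top ((Ideal.eq_top_iff_one _).2 h3)

lemma mem_iff_pr (p : Nat.Primes) (v : HeightOneSpectrum (𝓞 K)) :
    ((p : ℕ) : 𝓞 K) ∈ v.asIdeal ↔ pr v = p := by
  constructor
  · intro h
    by_contra hne
    have h1 : Nat.Coprime (pr v : ℕ) (p : ℕ) :=
      (Nat.coprime_primes (pr v).2 p.2).2 fun h2 => hne (Subtype.ext h2)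
    exact coprime_mem h1 (pr_mem v) h
  · intro h
    rw [← h]
    exact pr_mem v

lemma factorAt_eq (p : Nat.Primes) (s : ℂ) :
    factorAt W (p : ℕ) s = ∏ v ∈ (Sp p : Finset (HeightOneSpectrum (𝓞 K))), elf W v s := by
  unfold factorAt
  have h1 : {v : HeightOneSpectrum (𝓞 K) | ((p : ℕ) : 𝓞 K) ∈ v.asIdeal} =
      ((Sp p : Finset (HeightOneSpectrum (𝓞 K))) : Set (HeightOneSpectrum (𝓞 K))) := by
    ext v
    rw [Set.mem_ofPred_eq, Finset.mem_coe, mem_Sp]
    exact mem_iff_pr p v
  rw [h1, finprod_mem_coe_finset]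
  exact Finset.prod_congr rfl fun v _ => eulerFactor_eq W v s

lemma lp_eq (p : Nat.Primes) (u : ℝ) :
    lp (eb W) p u = ∑ v ∈ (Sp p : Finset (HeightOneSpectrum (𝓞 K))), lv (beta W) v (1 + u * I) := by
  unfold lp
  exact (hasSum_fiber (norm_beta W) p (by simp)).tsum_eq

/-- the local parts are logarithms of the local factors -/
lemma exp_VV (p : Nat.Primes) (u : ℝ) :
    Complex.exp (VV W p u) = factorAt W (p : ℕ) (3 / 2 + u * I) := by
  classical
  rw [factorAt_eq]
  unfold VV
  rw [lp_eq]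
  by_cases hp : p ∈ F23
  · have h1 : ∀ v ∈ (Sp p : Finset (HeightOneSpectrum (𝓞 K))), lv (beta W) v (1 + u * I) = 0 := by
      intro v hv
      have h2 : v ∈ (S6 : Finset (HeightOneSpectrum (𝓞 K))) := by
        rw [mem_S6_iff]
        unfold F23 at hp
        rw [Finset.mem_insert, Finset.mem_singleton] at hp
        rcases hp with rfl | rfl
        · exact Or.inl hv
        · exact Or.inr hv
      unfold lv
      refine Finset.sum_eq_zero fun j _ => ?_
      rw [beta_S6 W h2 j]
      simp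
    rw [Finset.sum_eq_zero h1, zero_add]
    unfold g6
    rw [if_pos hp, Complex.exp_sum]
    exact Finset.prod_congr rfl fun v _ => exp_le W v u
  · rw [g6_zero W p hp, Pi.zero_apply, add_zero, Complex.exp_sum]
    refine Finset.prod_congr rfl fun v hv => ?_
    have h2 : v ∉ (S6 : Finset (HeightOneSpectrum (𝓞 K))) := by
      intro h
      rw [mem_S6_iff, mem_Sp, mem_Sp] at h
      rw [mem_Sp] at hv
      rw [hv] at h
      apply hp
      unfold F23
      rw [Finset.mem_insert, Finset.mem_singleton]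
      exact h
    rw [exp_lv (norm_beta W) v (by simp), beta_elf W h2]
    refine Finset.prod_congr rfl fun j _ => ?_
    have e1 : (3 / 2 : ℂ) + u * I - 1 / 2 = 1 + u * I := by ring
    rw [e1]

end

section
variable {r : ℕ} {K : Fin r → Type} [∀ k, Field (K k)] [∀ k, NumberField (K k)]
  (V : ∀ k, HeightOneSpectrum (𝓞 (K k)) → WeierstrassCurve (𝓞 (K k)))

lemma randomProduct_eq (X : ℕ) (θ : PX X → ℝ) (k : Fin r) :
    randomProduct (V k) X θ = Complex.exp (rs (fun k p => VV (V k) p) X θ k) := by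
  unfold randomProduct rs
  rw [Finset.sum_apply, Complex.exp_sum]
  exact Finset.prod_congr rfl fun p _ => (exp_VV (V k) p (θ p)).symm

/-- the exponential map -/
noncomputable def psi (y : EuclideanSpace ℝ (Fin r ⊕ Fin r)) (k : Fin r) : ℂ :=
  Complex.exp (unemb y k)

omit [∀ k, Field (K k)] [∀ k, NumberField (K k)] in
lemma continuous_psi : Continuous (psi : EuclideanSpace ℝ (Fin r ⊕ Fin r) → (Fin r → ℂ)) := by
  unfold psi
  refine continuous_pi fun k => Complex.continuous_exp.comp ?_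
  exact (continuous_apply k).comp continuous_unemb

lemma psi_embL (z : Fin r → ℂ) : psi (embL z) = fun k => Complex.exp (z k) := by
  unfold psi
  rw [unemb_embL]

lemma ae_edge : ∀ᵐ τ ∂(volume : Measure ℝ), (fun k => edgeValue (V k) τ) =
    psi (embL fun k => YY (V k) τ) := by
  have h1 : ∀ k, ∀ᵐ τ ∂(volume : Measure ℝ), τ ∉ divSet (ap (eb (V k))) := by
    intro k
    have h2 : dimH (divSet (ap (eb (V k)))) = 0 := dimH_divSet _ _ (norm_ap (norm_eb (V k)))
    have h3 : volume (divSet (ap (eb (V k)))) = 0 := by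
      rw [← hausdorffMeasure_real]
      have h4 : dimH (divSet (ap (eb (V k)))) < ((1 : NNReal) : ℝ≥0∞) := by
        rw [h2]
        simp
      simpa using hausdorffMeasure_of_dimH_lt h4
    exact measure_eq_zero_iff_ae_notMem.1 h3
  filter_upwards [ae_all_iff.2 h1] with τ hτ
  rw [psi_embL]
  funext k
  exact edgeValue_eq (V k) (hτ k)

/-- **The joint limit law of the boundary values.** -/
theorem edge_limit_law : ∃ μ : Measure (Fin r → ℂ), IsProbabilityMeasure μ ∧
    (∀ k, μ {z | z k = 0} = 0) ∧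
    ∀ φ : (Fin r → ℂ) → ℝ, ContinuousOn φ {z | ∀ k, z k ≠ 0} →
      (∃ C : ℝ, ∀ z, |φ z| ≤ C) →
      (∀ η : ℝ, 0 < η → ∃ H₀ : ℝ, 0 < H₀ ∧ ∀ H : ℝ, H₀ ≤ H → ∀ T : ℝ,
        |H⁻¹ * (∫ τ in T..(T + H), φ fun k => edgeValue (V k) τ) - ∫ z, φ z ∂μ| ≤ η) ∧
      Tendsto (fun X : ℕ => ∫ θ, φ (fun k => randomProduct (V k) X θ) ∂(uniformLaw X)) atTop
        (𝓝 (∫ z, φ z ∂μ)) := by
  have hY : ∀ k : Fin r, IsModel (YY (V k)) (VV (V k)) := fun k => isModel_YY (V k)
  obtain ⟨μ, h1, h2⟩ := limit_law hY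
  have hm : Measurable (psi : EuclideanSpace ℝ (Fin r ⊕ Fin r) → (Fin r → ℂ)) :=
    continuous_psi.measurable
  refine ⟨(μ : Measure (EuclideanSpace ℝ (Fin r ⊕ Fin r))).map psi,
    Measure.isProbabilityMeasure_map hm.aemeasurable, fun k => ?_, fun φ hφ hφb => ?_⟩
  · rw [Measure.map_apply hm]
    · have h3 : psi ⁻¹' {z : Fin r → ℂ | z k = 0} = ∅ := by
        ext y
        simp only [Set.mem_preimage, Set.mem_ofPred_eq, Set.mem_empty_iff_false, iff_false]
        exact Complex.exp_ne_zero _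
      rw [h3, measure_empty]
    · exact measurableSet_eq_fun (measurable_pi_apply k) measurable_const
  obtain ⟨C, hC⟩ := hφb
  have hc : Continuous fun y => φ (psi y) := by
    refine hφ.comp_continuous continuous_psi fun y k => ?_
    exact Complex.exp_ne_zero _
  set ψ : EuclideanSpace ℝ (Fin r ⊕ Fin r) →ᵇ ℝ :=
    BoundedContinuousFunction.ofNormedAddCommGroup (fun y => φ (psi y)) hc C
      (fun y => hC (psi y)) with hψ
  have hψa : ∀ y, ψ y = φ (psi y) := fun y => rfl
  have hopen : IsOpen {z : Fin r → ℂ | ∀ k, z k ≠ 0} := by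
    have h3 : {z : Fin r → ℂ | ∀ k, z k ≠ 0} = ⋂ k, {z | z k ≠ 0} := by
      ext z
      simp
    rw [h3]
    exact isOpen_iInter_of_finite fun k => isOpen_ne_fun (continuous_apply k) continuous_const
  have hint : ∫ z, φ z ∂((μ : Measure (EuclideanSpace ℝ (Fin r ⊕ Fin r))).map psi) =
      ∫ y, ψ y ∂(μ : Measure (EuclideanSpace ℝ (Fin r ⊕ Fin r))) := by
    have h3 : AEStronglyMeasurable φ
        ((μ : Measure (EuclideanSpace ℝ (Fin r ⊕ Fin r))).map psi) := by
      have h4 : AEStronglyMeasurable φ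
          (((μ : Measure (EuclideanSpace ℝ (Fin r ⊕ Fin r))).map psi).restrict
            {z | ∀ k, z k ≠ 0}) := hφ.aestronglyMeasurable hopen.measurableSet
      have h5 : ((μ : Measure (EuclideanSpace ℝ (Fin r ⊕ Fin r))).map psi).restrict
            {z | ∀ k, z k ≠ 0} = (μ : Measure (EuclideanSpace ℝ (Fin r ⊕ Fin r))).map psi := by
        refine Measure.restrict_eq_self_of_ae_mem ?_
        exact (ae_map_iff (p := fun x : Fin r → ℂ => ∀ k, x k ≠ 0) hm.aemeasurable
          hopen.measurableSet).2 (Eventually.of_forall fun y k => Complex.exp_ne_zero _)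
      rwa [h5] at h4
    rw [integral_map hm.aemeasurable h3]
    rfl
  rw [hint]
  constructor
  · intro η hη
    obtain ⟨H₀, h3, h4⟩ := h2 ψ η hη
    refine ⟨H₀, h3, fun H hH T => ?_⟩
    have h5 : ∫ τ in T..(T + H), φ (fun k => edgeValue (V k) τ) =
        ∫ τ in T..(T + H), ψ (embL fun k => YY (V k) τ) := by
      refine intervalIntegral.integral_congr_ae ?_
      filter_upwards [ae_edge V] with τ hτ _
      rw [hτ]
      rfl
    rw [h5]
    exact h4 H hH T
  · have h3 := (ProbabilityMeasure.tendsto_iff_forall_integral_tendsto.1 h1) ψ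
    refine h3.congr fun X => ?_
    change ∫ x, ψ x ∂((Measure.pi fun p : PX X => unif p).map fun θ =>
      embL (rs (fun k p => VV (V k) p) X θ)) = _
    have hmr : AEMeasurable (fun θ => embL (rs (fun k p => VV (V k) p) X θ))
        (Measure.pi fun p : PX X => unif p) :=
      (continuous_embL.comp (continuous_rs (fun k p => (hY k).per p) X)).measurable.aemeasurable
    rw [integral_map hmr ψ.continuous.aestronglyMeasurable]
    refine integral_congr_ae (Eventually.of_forall fun θ => ?_)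
    change φ (psi (embL (rs (fun k p => VV (V k) p) X θ))) = _
    rw [psi_embL]
    congr 1
    funext k
    exact (randomProduct_eq V X θ k).symm

end

end Pool.Agent.E8helper69.AP
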